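import Pool.Agent.Lib.MP_bc213e_ag.KBV.BL

/-!
Virtual dimension.
-/

namespace Pool.Agent.Lib.MP_bc213e_ag.KBV
open Module Filter Topology

variable {k M N : Type*} [Field k] [AddCommGroup M] [Module k M] [AddCommGroup N] [Module k N]
  {ν : ℕ} {U W : ℕ → Submodule k M}

theorem Tame.fin (h : Tame ν U) (b : ℕ) : FiniteDimensional k (U b) := (h.choose_spec b).1

theorem Tame.bdd (h : Tame ν U) : Bdd fun b => (finrank k (U b) : ℝ) / ((b : ℝ) + 1) ^ ν := by
  obtain ⟨C, hC⟩ := h
  refine ⟨C, fun b => ?_⟩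
  rw [abs_of_nonneg (by positivity), div_le_iff₀ (by positivity)]
  exact (hC b).2

theorem tame_of_bdd (hf : ∀ b, FiniteDimensional k (U b))
    (h : Bdd fun b => (finrank k (U b) : ℝ) / ((b : ℝ) + 1) ^ ν) : Tame ν U := by
  obtain ⟨C, hC⟩ := h
  exact ⟨C, fun b => ⟨hf b, (div_le_iff₀ (by positivity)).mp ((le_abs_self _).trans (hC b))⟩⟩

theorem vd_nonneg (h : Tame ν U) : 0 ≤ vd ν U :=
  BL_nonneg h.bdd (Eventually.of_forall fun _ => by positivity)

/-- comparison of dimensions -/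
theorem Tame.of_finrank_le {U' : ℕ → Submodule k N} (h : Tame ν U')
    (hf : ∀ b, FiniteDimensional k (U b)) (hle : ∀ b, finrank k (U b) ≤ finrank k (U' b)) :
    Tame ν U :=
  h.imp fun _ hC b => ⟨hf b, le_trans (by exact_mod_cast hle b) (hC b).2⟩

theorem Tame.mono (h : Tame ν W) (hle : ∀ b, U b ≤ W b) : Tame ν U :=
  h.of_finrank_le (fun b => have := h.fin b; Submodule.finiteDimensional_of_le (hle b))
    fun b => have := h.fin b; Submodule.finrank_mono (hle b)

theorem vd_le_of_finrank {U' : ℕ → Submodule k N} (hU : Tame ν U) (h : Tame ν U')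
    (hle : ∀ᶠ b in atTop, finrank k (U b) ≤ finrank k (U' b)) : vd ν U ≤ vd ν U' :=
  BL_mono hU.bdd h.bdd (hle.mono fun _ hb =>
    div_le_div_of_nonneg_right (by exact_mod_cast hb) (by positivity))

theorem vd_mono' (hU : Tame ν U) (h : Tame ν W) (hle : ∀ᶠ b in atTop, U b ≤ W b) :
    vd ν U ≤ vd ν W :=
  vd_le_of_finrank hU h (hle.mono fun b hb => have := h.fin b; Submodule.finrank_mono hb)

theorem vd_mono (h : Tame ν W) (hle : ∀ b, U b ≤ W b) : vd ν U ≤ vd ν W :=
  vd_mono' (h.mono hle) h (Eventually.of_forall hle)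

/-- a linear relation between dimensions passes to virtual dimensions -/
theorem vd_add_le_add {M₁ M₂ M₃ : Type*} [AddCommGroup M₁] [Module k M₁] [AddCommGroup M₂]
    [Module k M₂] [AddCommGroup M₃] [Module k M₃] {U₁ : ℕ → Submodule k M₁}
    {U₂ : ℕ → Submodule k M₂} {U₃ : ℕ → Submodule k M₃} (h : Tame ν U) (h₁ : Tame ν U₁)
    (h₂ : Tame ν U₂) (h₃ : Tame ν U₃) (hle : ∀ᶠ b in atTop,
      finrank k (U b) + finrank k (U₁ b) ≤ finrank k (U₂ b) + finrank k (U₃ b)) :
    vd ν U + vd ν U₁ ≤ vd ν U₂ + vd ν U₃ := by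
  unfold vd
  rw [← BL_add h.bdd h₁.bdd, ← BL_add h₂.bdd h₃.bdd]
  refine BL_mono (h.bdd.add h₁.bdd) (h₂.bdd.add h₃.bdd) (hle.mono fun b hb => ?_)
  rw [← add_div, ← add_div]
  exact div_le_div_of_nonneg_right (by exact_mod_cast hb) (by positivity)

theorem Tame.sup (hU : Tame ν U) (hW : Tame ν W) : Tame ν fun b => U b ⊔ W b := by
  obtain ⟨C, hC⟩ := hU
  obtain ⟨C', hC'⟩ := hW
  refine ⟨C + C', fun b => ?_⟩
  have := (hC b).1
  have := (hC' b).1
  refine ⟨inferInstance, ?_⟩
  have h := Submodule.finrank_add_le_finrank_add_finrank (U b) (W b)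
  have h' : (finrank k ↥(U b ⊔ W b) : ℝ) ≤ finrank k (U b) + finrank k (W b) := by exact_mod_cast h
  linarith [(hC b).2, (hC' b).2]

theorem Tame.inf (hU : Tame ν U) (W : ℕ → Submodule k M) : Tame ν fun b => U b ⊓ W b :=
  hU.mono fun _ => inf_le_left

theorem vd_sup_add_inf (hU : Tame ν U) (hW : Tame ν W) :
    (vd ν fun b => U b ⊔ W b) + (vd ν fun b => U b ⊓ W b) = vd ν U + vd ν W := by
  have e : ∀ b, finrank k ↥(U b ⊔ W b) + finrank k ↥(U b ⊓ W b) =
      finrank k (U b) + finrank k (W b) := fun b =>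
    have := hU.fin b; have := hW.fin b; Submodule.finrank_sup_add_finrank_inf_eq _ _
  exact le_antisymm
    (vd_add_le_add (hU.sup hW) (hU.inf W) hU hW (Eventually.of_forall fun b => (e b).le))
    (vd_add_le_add hU hW (hU.sup hW) (hU.inf W) (Eventually.of_forall fun b => (e b).ge))

theorem finrank_map_add (f : M →ₗ[k] N) (X : Submodule k M) [FiniteDimensional k X] :
    finrank k (X.map f) + finrank k ↥(X ⊓ LinearMap.ker f) = finrank k X := by
  have h := LinearMap.finrank_range_add_finrank_ker (f.domRestrict X)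
  rw [LinearMap.range_domRestrict, LinearMap.ker_domRestrict] at h
  rw [← h, ← Submodule.finrank_map_subtype_eq X (Submodule.comap X.subtype (LinearMap.ker f)),
    Submodule.map_comap_subtype]

theorem Tame.map (h : Tame ν U) (f : ℕ → M →ₗ[k] N) : Tame ν fun b => (U b).map (f b) :=
  h.of_finrank_le (fun b => have := h.fin b; inferInstance)
    fun b => have := h.fin b; Submodule.finrank_map_le _ _

theorem tame_bot : Tame ν fun _ => (⊥ : Submodule k M) :=
  ⟨0, fun _ => ⟨inferInstance, by simp⟩⟩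

theorem vd_bot : (vd ν fun _ => (⊥ : Submodule k M)) = 0 := by simp [vd, BL_const]

/-- rank and nullity -/
theorem vd_map_add (h : Tame ν U) (f : ℕ → M →ₗ[k] N) :
    (vd ν fun b => (U b).map (f b)) + (vd ν fun b => U b ⊓ LinearMap.ker (f b)) = vd ν U := by
  have e := fun b => have := h.fin b; finrank_map_add (f b) (U b)
  have t : Tame ν fun _ => (⊥ : Submodule k M) := tame_bot
  rw [← add_zero (vd ν U), ← vd_bot (k := k) (M := M) (ν := ν)]
  exact le_antisymm
    (vd_add_le_add (h.map f) (h.inf _) h t (Eventually.of_forall fun b => by simpa using (e b).le))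
    (vd_add_le_add h t (h.map f) (h.inf _) (Eventually.of_forall fun b => by simpa using (e b).ge))

theorem fin_of_inj {X : Submodule k M} {Y : Submodule k N} [FiniteDimensional k Y]
    (f : M →ₗ[k] N) (hf : ∀ x ∈ X, f x ∈ Y) (hi : ∀ x ∈ X, f x = 0 → x = 0) :
    FiniteDimensional k X ∧ finrank k X ≤ finrank k Y := by
  have : Function.Injective (f.restrict hf) := by
    rw [injective_iff_map_eq_zero]
    exact fun x hx => Subtype.ext (hi x x.2 (congrArg Subtype.val hx))
  exact ⟨.of_injective _ this, LinearMap.finrank_le_finrank_of_injective this⟩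

/-- an injective linear map -/
theorem Tame.of_inj {U' : ℕ → Submodule k N} (h : Tame ν U') (f : ℕ → M →ₗ[k] N)
    (hf : ∀ b, ∀ x ∈ U b, f b x ∈ U' b) (hi : ∀ b, ∀ x ∈ U b, f b x = 0 → x = 0) :
    Tame ν U ∧ vd ν U ≤ vd ν U' := by
  have e := fun b => have := h.fin b; fin_of_inj (f b) (hf b) (hi b)
  have t : Tame ν U := h.of_finrank_le (fun b => (e b).1) fun b => (e b).2
  exact ⟨t, vd_le_of_finrank t h (Eventually.of_forall fun b => (e b).2)⟩

theorem finrank_cond {X : Submodule k M} {A C : Submodule k N} [FiniteDimensional k X]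
    [FiniteDimensional k A] (f : M →ₗ[k] N) (hf : ∀ x ∈ X, f x ∈ A) (hC : C ≤ A) :
    finrank k X + finrank k C ≤ finrank k ↥(X ⊓ C.comap f) + finrank k A := by
  have : FiniteDimensional k C := Submodule.finiteDimensional_of_le hC
  have h1 := finrank_map_add f X
  have h2 := finrank_map_add f (X ⊓ C.comap f)
  have h3 := Submodule.finrank_sup_add_finrank_inf_eq (X.map f) C
  have h4 : finrank k ↥(X.map f ⊔ C) ≤ finrank k A :=
    Submodule.finrank_mono (sup_le (Submodule.map_le_iff_le_comap.mpr hf) hC)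
  have h5 : X ⊓ C.comap f ⊓ LinearMap.ker f = X ⊓ LinearMap.ker f := by
    rw [inf_assoc, inf_of_le_right (LinearMap.ker_le_comap f)]
  have h6 : (X ⊓ C.comap f).map f = X.map f ⊓ C := by
    ext y
    constructor
    · rintro ⟨x, hx, rfl⟩
      exact ⟨⟨x, hx.1, rfl⟩, hx.2⟩
    · rintro ⟨⟨x, hx, rfl⟩, hy⟩
      exact ⟨x, ⟨hx, hy⟩, rfl⟩
  rw [h5, h6] at h2
  omega

/-- one linear condition `f x ∈ C`, where `f x ∈ A` is known, costs at most `vd A - vd C` -/
theorem vd_cond {A C : ℕ → Submodule k N} (hU : Tame ν U) (hA : Tame ν A) (f : ℕ → M →ₗ[k] N)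
    (hf : ∀ b, ∀ x ∈ U b, f b x ∈ A b) (hC : ∀ b, C b ≤ A b) :
    vd ν U - (vd ν A - vd ν C) ≤ vd ν fun b => U b ⊓ (C b).comap (f b) := by
  have := vd_add_le_add hU (hA.mono hC) (hU.inf fun b => (C b).comap (f b)) hA
    (Eventually.of_forall fun b =>
      have := hU.fin b; have := hA.fin b; finrank_cond (f b) (hf b) (hC b))
  linarith

/-- finitely many linear conditions -/
theorem vd_conds {ι : Type*} (s : Finset ι) {A C : ι → ℕ → Submodule k N} (hU : Tame ν U)
    (hA : ∀ i ∈ s, Tame ν (A i)) (f : ι → ℕ → M →ₗ[k] N)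
    (hf : ∀ i ∈ s, ∀ b, ∀ x ∈ U b, f i b x ∈ A i b) (hC : ∀ i ∈ s, ∀ b, C i b ≤ A i b) :
    vd ν U - ∑ i ∈ s, (vd ν (A i) - vd ν (C i)) ≤
      vd ν fun b => U b ⊓ ⨅ i ∈ s, (C i b).comap (f i b) := by
  classical
  induction s using Finset.induction_on with
  | empty => simp
  | insert i s hi ih =>
    have h1 := ih (fun j hj => hA j (by simp [hj])) (fun j hj => hf j (by simp [hj]))
      fun j hj => hC j (by simp [hj])
    have h2 := vd_cond (hU.inf fun b => ⨅ i ∈ s, (C i b).comap (f i b)) (hA i (by simp)) (f i)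
      (fun b x hx => hf i (by simp) b x hx.1) (hC i (by simp))
    simp only [Finset.sum_insert hi, Finset.iInf_insert]
    simp only [inf_assoc, inf_comm (⨅ i ∈ s, _)] at h2
    linarith

theorem finrank_pi_univ {ι : Type*} [Fintype ι] (X : ι → Submodule k M)
    [∀ i, FiniteDimensional k (X i)] : FiniteDimensional k (Submodule.pi Set.univ X) ∧
      finrank k (Submodule.pi Set.univ X) = ∑ i, finrank k (X i) := by
  let e : Submodule.pi Set.univ X ≃ₗ[k] ∀ i, X i :=
    { toFun := fun x i => ⟨x.1 i, x.2 i trivial⟩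
      invFun := fun x => ⟨fun i => x i, fun i _ => (x i).2⟩
      map_add' := fun _ _ => rfl
      map_smul' := fun _ _ => rfl
      left_inv := fun _ => rfl
      right_inv := fun _ => rfl }
  exact ⟨e.symm.finiteDimensional, by rw [e.finrank_eq, finrank_pi_fintype]⟩

/-- finite products -/
theorem vd_pi {ι : Type*} [Fintype ι] {X : ι → ℕ → Submodule k M} (h : ∀ i, Tame ν (X i)) :
    (Tame ν fun b => Submodule.pi Set.univ fun i => X i b) ∧
      (vd ν fun b => Submodule.pi Set.univ fun i => X i b) = ∑ i, vd ν (X i) := by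
  have e := fun b => have := fun i => (h i).fin b; finrank_pi_univ fun i => X i b
  have e' : (fun b : ℕ => (finrank k (Submodule.pi Set.univ fun i => X i b) : ℝ) /
      ((b : ℝ) + 1) ^ ν) = fun b => ∑ i, (finrank k (X i b) : ℝ) / ((b : ℝ) + 1) ^ ν := by
    funext b
    rw [(e b).2, Nat.cast_sum, Finset.sum_div]
  refine ⟨tame_of_bdd (fun b => (e b).1) ?_, ?_⟩
  · rw [e']
    exact Bdd.sum fun i _ => (h i).bdd
  · unfold vd
    rw [e', BL_sum fun i _ => (h i).bdd]

/-- binary products -/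
theorem vd_prod {U' : ℕ → Submodule k N} (hU : Tame ν U) (h : Tame ν U') :
    (Tame ν fun b => (U b).prod (U' b)) ∧
      (vd ν fun b => (U b).prod (U' b)) = vd ν U + vd ν U' := by
  have e : ∀ b, FiniteDimensional k ((U b).prod (U' b)) ∧
      finrank k ((U b).prod (U' b)) = finrank k (U b) + finrank k (U' b) := fun b => by
    have := hU.fin b
    have := h.fin b
    let e : (U b).prod (U' b) ≃ₗ[k] U b × U' b :=
      { toFun := fun x => (⟨x.1.1, x.2.1⟩, ⟨x.1.2, x.2.2⟩)
        invFun := fun x => ⟨(x.1, x.2), x.1.2, x.2.2⟩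
        map_add' := fun _ _ => rfl
        map_smul' := fun _ _ => rfl
        left_inv := fun _ => rfl
        right_inv := fun _ => rfl }
    exact ⟨e.symm.finiteDimensional, by rw [e.finrank_eq, finrank_prod]⟩
  have e' : (fun b : ℕ => (finrank k ((U b).prod (U' b)) : ℝ) / ((b : ℝ) + 1) ^ ν) = fun b =>
      (finrank k (U b) : ℝ) / ((b : ℝ) + 1) ^ ν + (finrank k (U' b) : ℝ) / ((b : ℝ) + 1) ^ ν := by
    funext b
    rw [(e b).2, Nat.cast_add, add_div]
  refine ⟨tame_of_bdd (fun b => (e b).1) ?_, ?_⟩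
  · rw [e']
    exact hU.bdd.add h.bdd
  · unfold vd
    rw [e', BL_add hU.bdd h.bdd]

theorem tendsto_ratio (ν r : ℕ) :
    Tendsto (fun b : ℕ => (((b + r : ℕ) : ℝ) + 1) ^ ν / ((b : ℝ) + 1) ^ ν) atTop (𝓝 1) := by
  have h1 : Tendsto (fun b : ℕ => (1 + (r : ℝ) * (1 / ((b : ℝ) + 1))) ^ ν) atTop (𝓝 1) := by
    simpa using ((tendsto_one_div_add_atTop_nhds_zero_nat.const_mul (r : ℝ)).const_add 1).pow ν
  refine h1.congr fun b => ?_
  rw [← div_pow]
  congr 1
  push_cast
  field_simp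
  ring

/-- shift invariance -/
theorem vd_shift (h : Tame ν U) (r : ℕ) :
    (Tame ν fun b => U (b + r)) ∧ (vd ν fun b => U (b + r)) = vd ν U := by
  have e : (fun b : ℕ => (finrank k (U (b + r)) : ℝ) / ((b : ℝ) + 1) ^ ν) = fun b : ℕ =>
      (((b + r : ℕ) : ℝ) + 1) ^ ν / ((b : ℝ) + 1) ^ ν *
        ((finrank k (U (b + r)) : ℝ) / (((b + r : ℕ) : ℝ) + 1) ^ ν) := by
    funext b
    field_simp
  refine ⟨tame_of_bdd (fun b => h.fin _) ?_, ?_⟩
  · rw [e]
    exact (Bdd.of_tendsto (tendsto_ratio ν r)).mul (h.bdd.shift r)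
  · unfold vd
    rw [e, BL_mul_tendsto (h.bdd.shift r) (tendsto_ratio ν r), one_mul, BL_shift h.bdd]

/-- a family which is tame after a shift and has finite dimensional members -/
theorem Tame.of_shift (r : ℕ) (h : Tame ν fun b => U (b + r))
    (hf : ∀ b, FiniteDimensional k (U b)) : Tame ν U := by
  obtain ⟨C, hC⟩ := h
  refine ⟨max C 0 + ∑ b ∈ Finset.range r, (finrank k (U b) : ℝ), fun b => ⟨hf b, ?_⟩⟩
  have h1 : (1 : ℝ) ≤ ((b : ℝ) + 1) ^ ν := one_le_pow₀ (by simp)
  have h2 : (0 : ℝ) ≤ ∑ b ∈ Finset.range r, (finrank k (U b) : ℝ) := by positivity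
  have h0 := le_max_right C 0
  rcases lt_or_ge b r with hb | hb
  · have := Finset.single_le_sum (f := fun b => (finrank k (U b) : ℝ)) (s := Finset.range r)
      (fun _ _ => by positivity) (Finset.mem_range.mpr hb)
    nlinarith
  · obtain ⟨c, rfl⟩ := Nat.exists_eq_add_of_le' hb
    have h3 : ((c : ℝ) + 1) ^ ν ≤ (((c + r : ℕ) : ℝ) + 1) ^ ν := by
      gcongr
      omega
    have h4 : C * ((c : ℝ) + 1) ^ ν ≤ max C 0 * ((c : ℝ) + 1) ^ ν := by
      gcongr
      exact le_max_left _ _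
    nlinarith [(hC c).2]

theorem frequently_ne_bot (h : Tame ν U) (hp : 0 < vd ν U) : ∃ᶠ b in atTop, U b ≠ ⊥ :=
  (frequently_of_lt_BL h.bdd hp).mono fun b hb h0 => by
    rw [h0] at hb
    simp at hb

theorem vd_of_tendsto {x : ℝ}
    (h : Tendsto (fun b => (finrank k (U b) : ℝ) / ((b : ℝ) + 1) ^ ν) atTop (𝓝 x)) :
    vd ν U = x := BL_of_tendsto h

end Pool.Agent.Lib.MP_bc213e_ag.KBV
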