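import Pool.Agent.Lib.MP_bc213e_ag.KBV.Deg

/-!
From the Cousin problem to the vanishing of the first cohomology.
-/

set_option linter.unusedSectionVars false

namespace Pool.Agent.Lib.MP_bc213e_ag.KBV
open Module Filter Topology

variable {k F₀ Ω : Type} [Field k] [Field F₀] [Field Ω] [Algebra k F₀] [Algebra F₀ Ω]
  [Algebra k Ω] [IsScalarTower k F₀ Ω] [IsAlgClosure F₀ Ω] [CharZero k] [CharZero F₀] [CharZero Ω]

namespace VC
variable {V : VC k F₀ Ω} {F : IntermediateField F₀ Ω} {D G : V.Dv} {A : Type} [Fintype A]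
  {Q : A → QVal F₀}

theorem Cou_ns (n : ℕ) (D : V.Dv) (v : V.P) : (n • D) v = n * D v := nsmul_eq_mul n (D v)

/-- The pointwise part. Sketch: `x * y i ^ r = u i + u' i`; put `a i = u' i / y i ^ r`, so
`x - a i = u i / y i ^ r`. Off `Q i` the order of `y i ^ r` is `- r H`. Hence `a i` is a section of `D`
off `Q i`, `Q a₁` and `x - a i` is one off `Q i`, `Q a₀`; as `Q a₀ ≠ Q a₁` the differences `a i - a j` are
sections off `Q i`, `Q j`. `Cous` gives `a'`; `x - a' = (x - a a₀) + (a a₀ - a')` is a section of `G`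
off `Q a₀`, and `a' = a a₁ - (a a₁ - a')` is one off `Q a₁`. Over `Q a₀` use `x` and `a'`, over `Q a₁` use
`a' = x - (x - a')`. -/
theorem cou_mem {y : A → Ω} (hy : ∀ a, y a ∈ F) (hy0 : ∀ a, y a ≠ 0)
    (hQ : ∀ a, V.H + V.dv (y a) = V.ov (Q a)) {a₀ a₁ : A} (hne : Q a₀ ≠ Q a₁) (h : D ≤ G)
    (hc : V.Cous F Q D G) {m r : ℕ} {A₀ : V.Dv} (h0 : 0 ≤ A₀)
    (h1 : ∀ v, V.res v = Q a₀ → D v + m ≤ G v + A₀ v) {x : Ω}
    (hx : x ∈ V.Γ F (D + m • V.ov (Q a₀) + m • V.ov (Q a₁)))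
    (hxy : ∀ i, x * y i ^ r ∈ V.Γ F (D + r • V.H + m • V.ov (Q a₀)) ⊔
      V.Γ F (D + r • V.H + m • V.ov (Q a₁))) :
    x ∈ V.Γ F (G + A₀) ⊔ V.Γ F (G + m • V.ov (Q a₁)) := by
  choose u hu u' hu' e using fun i => Submodule.mem_sup.mp (hxy i)
  have hyr : ∀ i, y i ^ r ≠ 0 := fun i => pow_ne_zero _ (hy0 i)
  have key : ∀ i (p : QVal F₀) (w : Ω), w ∈ V.Γ F (D + r • V.H + m • V.ov p) →
      ∀ v, V.res v ≠ Q i → V.res v ≠ p → v.1.Ge (w / y i ^ r) (-D v) := by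
    intro i p w hw v hv hp
    have h2 := congrFun (hQ i) v
    have h3 := (Base.mem_Γ.mp hw).2 v
    rw [Pi.add_apply, Base.dv_apply, Base.ov_of_ne hv] at h2
    simp only [Pi.add_apply, Cou_ns, Base.ov_of_ne hp, mul_zero, add_zero] at h3
    rw [QVal.ge_div_iff (hyr i), QVal.ord_pow, eq_neg_of_add_eq_zero_right h2]
    exact h3.mono (le_of_eq (by ring))
  have hxF : x ∈ F := hx.1
  have haF : ∀ i, u' i / y i ^ r ∈ F := fun i => div_mem (hu' i).1 (pow_mem (hy i) r)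
  have P1 : ∀ i v, V.res v ≠ Q i → V.res v ≠ Q a₁ → v.1.Ge (u' i / y i ^ r) (-D v) :=
    fun i => key i _ _ (hu' i)
  have P0 : ∀ i v, V.res v ≠ Q i → V.res v ≠ Q a₀ → v.1.Ge (x - u' i / y i ^ r) (-D v) := by
    intro i v h2 h3
    have h4 : x - u' i / y i ^ r = u i / y i ^ r := by
      rw [eq_div_iff (hyr i), sub_mul, div_mul_cancel₀ _ (hyr i), ← e i, add_sub_cancel_right]
    rw [h4]
    exact key i _ _ (hu i) v h2 h3
  obtain ⟨a', ha', h2⟩ := hc (fun i => u' i / y i ^ r) haF fun i j =>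
    ⟨sub_mem (haF i) (haF j), fun v hv => by
      by_cases h3 : V.res v = Q a₁
      · have h4 : V.res v ≠ Q a₀ := fun h4 => hne (h4.symm.trans h3)
        have h5 := (P0 j v hv.2 h4).sub (P0 i v hv.1 h4)
        rwa [sub_sub_sub_cancel_left] at h5
      · exact (P1 i v hv.1 h3).sub (P1 j v hv.2 h3)⟩
  have R0 : ∀ v, V.res v ≠ Q a₀ → v.1.Ge (x - a') (-G v) := fun v hv => by
    have h3 := ((P0 a₀ v hv hv).mono (neg_le_neg (h v))).add ((h2 a₀).2 v hv)
    rwa [sub_add_sub_cancel] at h3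
  have R1 : ∀ v, V.res v ≠ Q a₁ → v.1.Ge a' (-G v) := fun v hv => by
    have h3 := ((P1 a₁ v hv hv).mono (neg_le_neg (h v))).sub ((h2 a₁).2 v hv)
    rwa [sub_sub_cancel] at h3
  have hm : (0 : ℚ) ≤ m := Nat.cast_nonneg m
  refine Submodule.mem_sup.mpr ⟨x - a', Base.mem_Γ.mpr ⟨sub_mem hxF ha', fun v => ?_⟩, a',
    Base.mem_Γ.mpr ⟨ha', fun v => ?_⟩, sub_add_cancel _ _⟩
  · have h3 : 0 ≤ A₀ v := h0 v
    rw [Pi.add_apply]
    by_cases hv : V.res v = Q a₀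
    · have h4 : V.res v ≠ Q a₁ := fun h4 => hne (hv.symm.trans h4)
      have h5 := (Base.mem_Γ.mp hx).2 v
      simp only [Pi.add_apply, Cou_ns, Base.ov_of_ne h4, Base.ov_of_eq hv, mul_zero, add_zero,
        mul_one] at h5
      exact (h5.mono (neg_le_neg (h1 v hv))).sub ((R1 v h4).mono (by linarith))
    · exact (R0 v hv).mono (by linarith)
  · by_cases hv : V.res v = Q a₁
    · have h4 : V.res v ≠ Q a₀ := fun h4 => hne (h4.symm.trans hv)
      have h5 := (Base.mem_Γ.mp hx).2 v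
      have h6 : D v ≤ G v := h v
      simp only [Pi.add_apply, Cou_ns, Base.ov_of_ne h4, Base.ov_of_eq hv, mul_zero, add_zero,
        mul_one] at h5 ⊢
      have h7 := (h5.mono (m' := -(G v + m)) (by linarith)).sub ((R0 v h4).mono (by linarith))
      rwa [sub_sub_cancel] at h7
    · simp only [Pi.add_apply, Cou_ns, Base.ov_of_ne hv, mul_zero, add_zero]
      exact R1 v hv

/-- the inequality for fixed `m` and `r` -/
theorem Cou_step (hF : V.Ok F) {y : A → Ω} (hy : ∀ a, y a ∈ F) (hy0 : ∀ a, y a ≠ 0)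
    (hQ : ∀ a, V.H + V.dv (y a) = V.ov (Q a)) {a₀ a₁ : A} (hne : Q a₀ ≠ Q a₁)
    (hD : V.IsDiv F D) (hG : V.IsDiv F G) (h : D ≤ G) {b₁ : ℕ}
    (hc : ∀ b, b₁ ≤ b → V.Cous F Q (D + b • V.L) (G + b • V.L)) {m : ℕ} (r : ℕ)
    (hm : ∀ v, V.res v = Q a₀ → G v - D v ≤ m) :
    V.sig F G ≤ V.sig F (D + m • V.ov (Q a₀)) + V.sig F (D + m • V.ov (Q a₁)) +
      Fintype.card A * V.sig F (D + r • V.H) := by
  have hX : V.IsDiv F (m • V.ov (Q a₀)) := (Base.isDiv_ov F _).nsmul m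
  have hX' : V.IsDiv F (m • V.ov (Q a₁)) := (Base.isDiv_ov F _).nsmul m
  have hE : V.IsDiv F ({v | V.res v = Q a₀}.indicator (G - D)) :=
    (hG.sub hD).indicator fun v w hs hv => hs.res.symm.trans hv
  have hm0 : (0 : ℚ) ≤ m := Nat.cast_nonneg m
  have c0 : ∀ v, V.res v = Q a₀ → (m • V.ov (Q a₀)) v = m ∧ (m • V.ov (Q a₁)) v = 0 ∧
      {v | V.res v = Q a₀}.indicator (G - D) v = G v - D v := fun v hv =>
    ⟨by simp [Base.ov_of_eq hv], by simp [Base.ov_of_ne (hv.trans_ne hne)],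
      Set.indicator_of_mem (s := {v | V.res v = Q a₀}) hv _⟩
  have c1 : ∀ v, V.res v ≠ Q a₀ → (m • V.ov (Q a₀)) v = 0 ∧ 0 ≤ (m • V.ov (Q a₁)) v ∧
      {v | V.res v = Q a₀}.indicator (G - D) v = 0 := fun v hv =>
    ⟨by simp [Base.ov_of_ne hv], nsmul_nonneg (Base.ov_nonneg _ v) m,
      Set.indicator_of_notMem (s := {v | V.res v = Q a₀}) hv _⟩
  have mem := fun b (hb : b₁ ≤ b) => @cou_mem k F₀ Ω _ _ _ _ _ _ _ _ _ _ _ V F (D + b • V.L)
    (G + b • V.L) A _ Q y hy hy0 hQ a₀ a₁ hne (add_le_add_left h _) (hc b hb) m r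
  generalize m • V.ov (Q a₀) = X at hX c0 c1 mem ⊢
  generalize m • V.ov (Q a₁) = X' at hX' c0 c1 mem ⊢
  generalize {v | V.res v = Q a₀}.indicator (G - D) = E at hE c0 c1
  have cases : ∀ v, D v ≤ G v ∧ ((X v = m ∧ X' v = 0 ∧ E v = G v - D v) ∧ G v - D v ≤ m ∨
      X v = 0 ∧ 0 ≤ X' v ∧ E v = 0) := fun v =>
    ⟨h v, (em (V.res v = Q a₀)).imp (fun hv => ⟨c0 v hv, hm v hv⟩) (c1 v)⟩
  have hX0 : 0 ≤ X := fun v => by
    obtain ⟨h1, ⟨⟨h2, h3, h4⟩, h5⟩ | ⟨h2, h3, h4⟩⟩ := cases v <;> rw [Pi.zero_apply] <;> linarith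
  have hX0' : 0 ≤ X' := fun v => by
    obtain ⟨h1, ⟨⟨h2, h3, h4⟩, h5⟩ | ⟨h2, h3, h4⟩⟩ := cases v <;> rw [Pi.zero_apply] <;> linarith
  have hA0 : 0 ≤ X - E := fun v => by
    obtain ⟨h1, ⟨⟨h2, h3, h4⟩, h5⟩ | ⟨h2, h3, h4⟩⟩ := cases v <;>
      rw [Pi.zero_apply, Pi.sub_apply] <;> linarith
  have hXX : X ⊓ X' = 0 := funext fun v => by
    obtain ⟨h1, ⟨⟨h2, h3, h4⟩, h5⟩ | ⟨h2, h3, h4⟩⟩ := cases v <;>
      rw [Pi.zero_apply, Pi.inf_apply, h2]
    · rw [h3, inf_of_le_right hm0]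
    · rw [inf_of_le_left h3]
  have hAX : (X - E) ⊓ X' = 0 := funext fun v => by
    have h6 := hA0 v
    obtain ⟨h1, ⟨⟨h2, h3, h4⟩, h5⟩ | ⟨h2, h3, h4⟩⟩ := cases v <;> rw [Pi.zero_apply, Pi.inf_apply]
    · rw [h3]
      exact inf_of_le_right h6
    · rw [Pi.sub_apply, h2, h4, sub_zero, inf_of_le_left h3]
  have hA := hX.sub hE
  have hDr := hD.add ((Base.isDiv_H F).nsmul r)
  have tT := hF.tame ((hD.add hX).add hX')
  have tW := hF.tame (hG.add hX')
  have tA := hF.tame (hG.add hA)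
  have tE := hF.tame ((hD.add hE).add hX')
  have s1 := vd_conds (Finset.univ : Finset A)
    (A := fun _ b => V.Γ F (D + r • V.H + X + X' + b • V.L))
    (C := fun _ b => V.Γ F (D + r • V.H + X + b • V.L) ⊔ V.Γ F (D + r • V.H + X' + b • V.L))
    tT (fun _ _ => hF.tame ((hDr.add hX).add hX')) (fun i _ => LinearMap.mulRight k (y i ^ r))
    (fun i _ b x hx => by
      refine Base.Γ_mono (fun v => ?_)
        (Base.mul_mem_Γ hx (Base.pow_mem_Γ (Base.mem_Γ_dv (hy i)) r))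
      have h1 := congrFun (hQ i) v
      have h2 : 0 ≤ V.ov (Q i) v := Base.ov_nonneg _ v
      have h3 := mul_nonneg (Nat.cast_nonneg (α := ℚ) r) (h2.trans h1.ge)
      simp only [Pi.add_apply, Cou_ns, Pi.neg_apply] at h3 ⊢
      linarith)
    fun i _ b => sup_le (Base.Γ_mono (add_le_add_left (le_add_of_nonneg_right hX0') _))
      (Base.Γ_mono (add_le_add_left (add_le_add_left (le_add_of_nonneg_right hX0) _) _))
  have s2 := hF.defect hDr hX hX' hXX
  have s3 := hF.sig_anti (hDr.add hX) ((hDr.add hX).add hX') (le_add_of_nonneg_right hX0')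
  have s4 := hF.sig_nonneg (hDr.add hX')
  rw [div_eq_iff hF.pos.ne'] at s2
  rw [Finset.sum_const, Finset.card_univ, nsmul_eq_mul, s2] at s1
  have tT' := tT.inf fun b => ⨅ i ∈ (Finset.univ : Finset A),
    (V.Γ F (D + r • V.H + X + b • V.L) ⊔ V.Γ F (D + r • V.H + X' + b • V.L)).comap
      (LinearMap.mulRight k (y i ^ r))
  have s5 := vd_sup_add_inf tT' tW
  have s6 := vd_mono' (tT'.sup tW) (tA.sup tW) ((eventually_ge_atTop b₁).mono fun b hb =>
    sup_le (fun x hx => by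
      have h1 := mem b hb hA0 (fun v hv => by
        obtain ⟨h2, -, h3⟩ := c0 v hv
        simp only [Pi.add_apply, Pi.sub_apply, h2, h3]
        linarith) (x := x) (Base.Γ_mono (le_of_eq (by abel)) hx.1) fun i => by
          have h2 := (Submodule.mem_iInf _).mp ((Submodule.mem_iInf _).mp hx.2 i)
            (Finset.mem_univ i)
          rwa [show D + b • V.L + r • V.H + X = D + r • V.H + X + b • V.L by abel,
            show D + b • V.L + r • V.H + X' = D + r • V.H + X' + b • V.L by abel]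
      rwa [add_right_comm G _ (X - E), add_right_comm G _ X'] at h1) le_sup_right)
  have s7 : ∀ b : ℕ, V.Γ F (D + X + X' + b • V.L) ⊓ V.Γ F (G + X' + b • V.L) ≤
      V.Γ F (D + E + X' + b • V.L) := fun b => by
    rw [← Base.Γ_inf]
    refine Base.Γ_mono fun v => ?_
    obtain ⟨h1, ⟨⟨h2, h3, h4⟩, h5⟩ | ⟨h2, h3, h4⟩⟩ := cases v
    · refine inf_le_right.trans (le_of_eq (?_ : (G + X' + b • V.L) v = _))
      simp only [Pi.add_apply, h4]
      ring
    · refine inf_le_left.trans (le_of_eq (?_ : (D + X + X' + b • V.L) v = _))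
      simp only [Pi.add_apply, h2, h4]
  have s8 := (add_le_add_right (vd_mono tE fun b => (inf_le_inf_right _ inf_le_left).trans (s7 b))
    _).trans' s5.ge
  have s9 := vd_sup_add_inf tA tW
  have s10 : ∀ b : ℕ, V.Γ F (G + (X - E) + b • V.L) ⊓ V.Γ F (G + X' + b • V.L) =
      V.Γ F (G + b • V.L) := fun b => by rw [← Base.Γ_inf, ← inf_add, ← add_inf, hAX, add_zero]
  simp only [s10] at s9
  have t1 : V.f F G + V.f F (D + X + X') ≤ V.f F (G + (X - E)) + V.f F (D + E + X') +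
      Fintype.card A * V.sig F (D + r • V.H) := by
    have h1 := mul_le_mul_of_nonneg_left (mul_le_mul_of_nonneg_right
      (show V.sig F (D + r • V.H + X + X') - V.sig F (D + r • V.H + X) -
        V.sig F (D + r • V.H + X') + V.sig F (D + r • V.H) ≤ V.sig F (D + r • V.H) by linarith)
      hF.pos.le) (Nat.cast_nonneg (α := ℝ) (Fintype.card A))
    simp only [f]
    rw [← add_div, ← add_div, div_add' _ _ _ hF.pos.ne', div_le_div_iff_of_pos_right hF.pos]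
    linarith
  have t2 := hF.chi_add hG hA
  have t3 := hF.chi_add ((hD.add hE).add hX') hA
  rw [show D + E + X' + (X - E) = D + X + X' by abel] at t3
  have t4 := hF.chi_le ((hD.add hX).add hX')
  have t5 := hF.sig_anti (hD.add hX) (hG.add hA) fun v => by
    obtain ⟨h1, ⟨⟨h2, h3, h4⟩, h5⟩ | ⟨h2, h3, h4⟩⟩ := cases v <;>
      simp only [Pi.add_apply, Pi.sub_apply] <;> linarith
  have t6 := hF.sig_anti (hD.add hX') ((hD.add hE).add hX') fun v => by
    obtain ⟨h1, ⟨⟨h2, h3, h4⟩, h5⟩ | ⟨h2, h3, h4⟩⟩ := cases v <;>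
      simp only [Pi.add_apply] <;> linarith
  have t7 : V.sig F G = V.f F G - V.chi F G := rfl
  have t8 : V.sig F (G + (X - E)) = V.f F (G + (X - E)) - V.chi F (G + (X - E)) := rfl
  have t9 : V.sig F (D + E + X') = V.f F (D + E + X') - V.chi F (D + E + X') := rfl
  linarith

/-- Sketch: `X = m • ov (Q a₀)`, `X' = m • ov (Q a₁)`, `E₀` the part of `G - D` over `Q a₀`,
`A₀ = X - E₀ ≥ 0` for large `m` (`exists_reps`). `T b = Γ (D + X + X' + b L)`, `T' b ≤ T b` cut out by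
the conditions `hxy` (`vd_conds`; each costs at most `sig (D + r H)` by `defect` and `sig_anti`).
`cou_mem` and `vd_mono'`: `vd (T' ⊔ Γ (G + X')) ≤ vd (Γ (G + A₀) ⊔ Γ (G + X'))`. Also
`(D + X + X') ⊓ (G + X') = D + E₀ + X'`. With `vd_sup_add_inf` and `defect` for `G`, `A₀`, `X'`:
`sig G ≤ sig (G + A₀) + sig (G + X') + card A * sig (D + r H) + sig (D + X')`, and
`D + X ≤ G + A₀`; `sig (D + X) = sig (D + X') = sig (D + m H)` by `sig_dv`. Let `m, r → ∞`. -/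
theorem Ok.cou (hF : V.Ok F)
    (hyp : ∀ a, ∃ y : F₀, y ≠ 0 ∧ V.H + V.dv (algebraMap F₀ Ω y) = V.ov (Q a))
    (two : ∃ a₀ a₁, Q a₀ ≠ Q a₁) (hD : V.IsDiv F D) (hG : V.IsDiv F G) (h : D ≤ G) {b₁ : ℕ}
    (hc : ∀ b, b₁ ≤ b → V.Cous F Q (D + b • V.L) (G + b • V.L)) : V.sig F G ≤ 0 := by
  have := hF.fin
  choose y hy0 hQ using hyp
  obtain ⟨a₀, a₁, hne⟩ := two
  have hy : ∀ a, algebraMap F₀ Ω (y a) ∈ F := fun a => F.algebraMap_mem _
  have hy1 : ∀ a, algebraMap F₀ Ω (y a) ≠ 0 := fun a => by simpa using hy0 a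
  obtain ⟨T, -, hT, -⟩ := Base.exists_reps (B := V.toBase) F (Set.finite_singleton (Q a₀))
  obtain ⟨c, hc0⟩ := (T.finite_toSet.image fun w => G w - D w).bddAbove
  obtain ⟨m₀, hm₀⟩ := exists_nat_ge c
  have e : ∀ (a : A) (m : ℕ), V.sig F (D + m • V.ov (Q a)) = V.sig F (D + m • V.H) := fun a m => by
    rw [← hQ a, smul_add, ← add_assoc, ← Base.dv_pow,
      hF.sig_dv (hD.add ((Base.isDiv_H F).nsmul m)) (pow_mem (hy a) m) (pow_ne_zero m (hy1 a))]
  have t := hF.sig_tendsto hD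
  have t' := (t.add t).add (t.const_mul (Fintype.card A : ℝ))
  rw [add_zero, mul_zero, add_zero] at t'
  refine ge_of_tendsto t' ((eventually_ge_atTop m₀).mono fun m hm => ?_)
  have h1 := Cou_step hF hy hy1 hQ hne hD hG h hc (m := m) m fun v hv => by
    obtain ⟨w, hw, hs⟩ := hT v hv
    rw [hG.same v w hs, hD.same v w hs]
    exact (hc0 ⟨w, hw, rfl⟩).trans (hm₀.trans (by exact_mod_cast hm))
  rwa [e, e] at h1

variable {M : ℕ → ℕ → Submodule k Ω}

theorem nv (G : V.toBase.Geo V.K V.L V.ν Q M) : V.NV := by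
  intro F E hF hE hdeg
  have := hF.fin
  have := V.finK
  have hH : ∀ n : ℕ, V.IsDiv F (n • V.H) := (Base.isDiv_H _).nsmul
  have hCK : V.IsDiv F (V.Cod V.K) := (Base.isDiv_Cod _).mono hF.le
  have hC : V.IsDiv F (V.Cod F) := Base.isDiv_Cod _
  have hG := hE.add (hC.sub hCK)
  obtain ⟨h, hh⟩ := G.nc F hF.le hF.fin _ hG
  have hG' := (hG.sub hC).add (hH (Fintype.card A))
  have hpos : 0 < V.deg (E + (V.Cod F - V.Cod V.K) - V.Cod F + Fintype.card A • V.H) := by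
    rw [hF.deg_add (hG.sub hC) (hH _), hF.deg_sub hG hC, hF.deg_add hE (hC.sub hCK),
      hF.deg_sub hC hCK, hF.deg_nsmul (Base.isDiv_H _), deg_H]
    have : V.deg (V.Cod V.K) ≤ (Fintype.card A + 1) * V.δ := le_of_forall_pos_le_add fun ε hε => by
      obtain ⟨T, hT⟩ := exists_nat_ge (V.δ / ε)
      rw [div_le_iff₀ hε] at hT
      obtain ⟨m, a, c, hm, x, hx, -, hle⟩ := G.adj T
      have hL := hF.hL.nsmul a
      have h1 := hF.deg_mono (hCK.nsmul m) (((hH _).add hL).add (Base.isDiv_dv (hF.le hx))) hle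
      rw [hF.deg_nsmul hCK, hF.deg_add ((hH _).add hL) (Base.isDiv_dv (hF.le hx)),
        hF.deg_add (hH _) hL, hF.deg_nsmul (Base.isDiv_H _), hF.deg_nsmul hF.hL, deg_dv, deg_L,
        deg_H] at h1
      have hm' : (0 : ℝ) < m := by exact_mod_cast Nat.zero_lt_of_lt hm
      have h2 : (T : ℝ) * c ≤ m := by exact_mod_cast hm.le
      have h3 := mul_le_mul_of_nonneg_left hT (Nat.cast_nonneg (α := ℝ) c)
      have h4 := mul_le_mul_of_nonneg_right h2 hε.le
      push_cast at h1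
      exact le_of_mul_le_mul_left (by linarith) hm'
    linarith
  generalize E + (V.Cod F - V.Cod V.K) - V.Cod F + Fintype.card A • V.H = X at hh hG' hpos
  obtain ⟨κ, hκ⟩ := exists_nat_gt ((((h + 1 : ℕ) : ℝ) * V.δ - V.chi F 0) / V.deg X)
  rw [div_lt_iff₀ hpos] at hκ
  have hY := (hG'.nsmul (κ + 1)).sub (hH (h + 1))
  obtain ⟨β, e, he, he0⟩ := (hF.exists_sec hY (lt_of_lt_of_le (by
    rw [hF.chi_eq hY, hF.deg_sub (hG'.nsmul _) (hH _), hF.deg_nsmul hG',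
      hF.deg_nsmul (Base.isDiv_H _), deg_H]
    push_cast at hκ ⊢
    linarith) (hF.chi_le hY))).exists
  obtain ⟨N, hN, s, hs, hs0⟩ := G.nef (κ * β)
  obtain ⟨D, b₁, hD, hle, hc⟩ := hh (N * (κ + 1)) β (by positivity) (e ^ N * s)
    (Base.Γ_mono (fun v => by
      have h1 : 0 ≤ V.H v := Base.H_nonneg v
      have h2 : (1 : ℚ) ≤ N := by exact_mod_cast hN
      have h3 := mul_nonneg (mul_nonneg (sub_nonneg.mpr h2) (Nat.cast_nonneg (α := ℚ) h)) h1
      simp only [Pi.add_apply, Pi.sub_apply, Pi.smul_apply]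
      simp only [nsmul_eq_mul]
      push_cast
      linarith)
      (Base.mul_mem_Γ (Base.pow_mem_Γ he N) (Base.Γ_mono_field hF.le le_rfl hs)))
    (mul_ne_zero (pow_ne_zero _ he0) hs0)
  exact hF.cou G.hyp G.two hD hG hle hc

end VC

end Pool.Agent.Lib.MP_bc213e_ag.KBV
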