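import Pool.Agent.Lib.MP_bc213e_ag.KBV.Deg

/-!
The numerical consequences of the geometric input.
-/

set_option linter.unusedSectionVars false

namespace Pool.Agent.Lib.MP_bc213e_ag.KBV
open Module Filter Topology

variable {k F₀ Ω : Type} [Field k] [Field F₀] [Field Ω] [Algebra k F₀] [Algebra F₀ Ω]
  [Algebra k Ω] [IsScalarTower k F₀ Ω] [IsAlgClosure F₀ Ω] [CharZero k] [CharZero F₀] [CharZero Ω]

variable {A : Type} [Fintype A] {Q : A → QVal F₀} {M : ℕ → ℕ → Submodule k Ω}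

/-- Sketch: `D₁ ≤ c H + dv z` (`exists_bound`, enlarge `c ≥ j₀`), so multiplication by `z` embeds
`Γ K (m H + b L)` into `Γ K ((m + c) H - D₁ + b L) ≤ M (m + c) b` (`Tame.of_inj`). With `G.le`:
`vd (M m) ≤ vd Γ (m H) ≤ vd (M (m + c))`; take `δ = α / finrank F₀ K`; the finitely many small `m` are
absorbed in the constant. -/
theorem Base.Geo.exists_slope {B : Base k F₀ Ω} {K : IntermediateField F₀ Ω} {L : B.Dv} {ν : ℕ}
    (G : B.Geo K L ν Q M) : (∀ m : ℕ, Tame ν fun b => B.Γ K (m • B.H + b • L)) ∧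
      ∃ δ C : ℝ, ∀ m : ℕ,
        |vd ν (fun b => B.Γ K (m • B.H + b • L)) / finrank F₀ K - m * δ| ≤ C := by
  have := G.finK
  obtain ⟨D₁, D₂, j₀, h1, -, -, -, -, hk⟩ := G.kill
  obtain ⟨c, z, hz, hc, -⟩ := h1.exists_bound
  have hz' : algebraMap F₀ Ω z ≠ 0 := (map_ne_zero _).mpr hz
  have key : ∀ m : ℕ, (Tame ν fun b => B.Γ K (m • B.H + b • L)) ∧
      (vd ν fun b => B.Γ K (m • B.H + b • L)) ≤ vd ν (M (m + (c + j₀))) := fun m =>
    (G.tame _).of_inj (fun _ => LinearMap.mulRight k (algebraMap F₀ Ω z))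
      (fun b x hx => (hk _ b (by omega)).1
        ((Base.mul_mem_Γ_iff (K.algebraMap_mem z) hz').mpr (Base.Γ_mono (fun v => by
          have h2 := hc v
          have h3 := mul_nonneg (Nat.cast_nonneg (α := ℚ) j₀) (Base.H_nonneg (B := B) v)
          simp only [Pi.add_apply, Pi.sub_apply, Pi.smul_apply] at h2 ⊢
          simp only [nsmul_eq_mul] at h2 ⊢
          push_cast
          linarith) hx)))
      fun b x _ hx => (mul_eq_zero.mp hx).resolve_right hz'
  refine ⟨fun m => (key m).1, ?_⟩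
  obtain ⟨α, γ, hp, -⟩ := G.poly
  obtain ⟨j₁, hp⟩ := eventually_atTop.mp hp
  refine ⟨α / finrank F₀ K, (|γ| + |α * (c + j₀ : ℕ)| + ∑ m ∈ Finset.range j₁,
    |(vd ν fun b => B.Γ K (m • B.H + b • L)) - m * α|) / finrank F₀ K, fun m => ?_⟩
  rw [← mul_div_assoc, ← sub_div, abs_div, Nat.abs_cast]
  refine div_le_div_of_nonneg_right ?_ (Nat.cast_nonneg _)
  have p1 := abs_nonneg γ
  have p2 := abs_nonneg (α * (c + j₀ : ℕ))
  rcases lt_or_ge m j₁ with hm | hm
  · have := Finset.single_le_sum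
      (f := fun m : ℕ => |(vd ν fun b => B.Γ K (m • B.H + b • L)) - m * α|)
      (fun _ _ => abs_nonneg _) (Finset.mem_range.mpr hm)
    linarith
  · have h2 := (key m).2
    have h3 := vd_mono (key m).1 (G.le m)
    have h4 : 0 ≤ ∑ m ∈ Finset.range j₁, |(vd ν fun b => B.Γ K (m • B.H + b • L)) - m * α| :=
      Finset.sum_nonneg fun _ _ => abs_nonneg _
    rw [hp _ (by omega), Nat.cast_add] at h2
    rw [hp _ hm] at h3
    have p3 := le_abs_self γ
    have p4 := neg_abs_le γ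
    have p5 := le_abs_self (α * (c + j₀ : ℕ))
    rw [abs_le]
    constructor <;> linarith

theorem Kill_lin {a b c : ℝ} (h : Tendsto (fun j : ℕ => a * j + b) atTop (𝓝 c)) :
    a = 0 ∧ b = c := by
  have h1 := ((tendsto_add_atTop_iff_nat 1).mpr h).sub h
  have h2 : a = 0 := by
    rw [sub_self] at h1
    refine tendsto_nhds_unique tendsto_const_nhds (h1.congr fun j => ?_)
    push_cast
    ring
  refine ⟨h2, tendsto_nhds_unique tendsto_const_nhds (h.congr fun j => ?_)⟩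
  rw [h2, zero_mul, zero_add]

namespace VC
variable {V : VC k F₀ Ω}

/-- Sketch: `defect` for `D = j H - D₁ - D₂`, `A = D₂`, `A' = D₁` is at most `sig D → 0`. -/
theorem killers (G : V.toBase.Geo V.K V.L V.ν Q M) :
    Tendsto (fun j : ℕ => V.f V.K (j • V.H) - vd V.ν (M j) / finrank F₀ V.K) atTop (𝓝 0) := by
  obtain ⟨D₁, D₂, j₀, h1, h2, p1, -, hd, hk⟩ := G.kill
  have hK := V.ok_K
  have hH : ∀ j : ℕ, V.IsDiv V.K (j • V.H) := (Base.isDiv_H _).nsmul
  refine tendsto_of_tendsto_of_tendsto_of_le_of_le' tendsto_const_nhds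
    (hK.sig_tendsto (h1.neg.sub h2)) (.of_forall fun j => ?_)
    ((eventually_ge_atTop j₀).mono fun j hj => ?_)
  · exact sub_nonneg.mpr
      (div_le_div_of_nonneg_right (vd_mono (hK.tame (hH j)) (G.le j)) hK.pos.le)
  · have hD := (h1.neg.sub h2).add (hH j)
    have h3 := hK.defect hD h2 h1 (by rw [inf_comm, hd])
    have e1 : -D₁ - D₂ + j • V.H + D₂ = j • V.H - D₁ := by abel
    have e2 : -D₁ - D₂ + j • V.H + D₁ = j • V.H - D₂ := by abel
    rw [e1, e2, sub_add_cancel, sub_div] at h3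
    have h4 := hK.sig_anti ((hH j).sub h1) (hH j) (sub_le_self _ p1)
    have h5 := hK.sig_nonneg ((hH j).sub h2)
    have h6 := div_le_div_of_nonneg_right
      (vd_mono (G.tame j) fun b => sup_le (hk j b hj).1 (hk j b hj).2) hK.pos.le
    change vd V.ν _ / _ - _ ≤ _
    linarith

/-- Sketch: by `killers` and `tendsto_chi`, `(α j + γ) / d - (j δ + chi 0) → 0`, so `α = d δ` and
`γ = d chi 0`. Then `0 < ∑ j < J, sig ((j + 1) H) ≤ J * sig H` (`G.le`, `chi_H`, `sig_anti`). -/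
theorem sig_pos (G : V.toBase.Geo V.K V.L V.ν Q M) : 0 < V.sig V.K V.H := by
  have hK := V.ok_K
  have hH : V.IsDiv V.K V.H := Base.isDiv_H _
  have hd := hK.pos
  obtain ⟨α, γ, hp, J, hJ⟩ := G.poly
  have h1 := (hK.tendsto_chi .zero).sub (killers G)
  rw [sub_zero] at h1
  obtain ⟨h2, h3⟩ := Kill_lin (a := α / finrank F₀ V.K - V.δ) (b := γ / finrank F₀ V.K)
    (h1.congr' (hp.mono fun j hj => by
      simp only [zero_add, hj]
      ring))
  by_contra hs
  refine absurd hJ (not_lt.mpr (Finset.sum_le_sum fun j _ => ?_))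
  have h4 : vd V.ν (M (j + 1)) / finrank F₀ V.K ≤ V.f V.K ((j + 1) • V.H) :=
    div_le_div_of_nonneg_right (vd_mono (hK.tame (hH.nsmul _)) (G.le _)) hd.le
  have h5 := hK.sig_anti hH (hH.nsmul (j + 1)) (by
    rw [succ_nsmul]
    exact le_add_of_nonneg_left (nsmul_nonneg Base.H_nonneg j))
  have h6 := hK.chi_H .zero (j + 1)
  rw [zero_add, ← h3, ← sub_eq_zero.mp h2] at h6
  rw [sig, h6] at h5
  refine (div_le_div_iff_of_pos_right hd).mp ?_
  rw [add_div, mul_div_right_comm]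
  push_cast at h5
  linarith

/-- if `δ = 0` then `f H ≤ f (H + m H) → chi H` -/
theorem δ_pos (h : 0 < V.sig V.K V.H) : 0 < V.δ := by
  have hK := V.ok_K
  have hH : V.IsDiv V.K V.H := Base.isDiv_H _
  refine V.δ_nonneg.lt_of_ne fun h0 => absurd h (not_lt.mpr (sub_nonpos.mpr ?_))
  refine ge_of_tendsto' (hK.tendsto_chi hH) fun m => ?_
  rw [← h0, mul_zero, sub_zero]
  exact hK.f_mono (hH.add (hH.nsmul m)) (le_add_of_nonneg_right (nsmul_nonneg Base.H_nonneg m))

end VC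

end Pool.Agent.Lib.MP_bc213e_ag.KBV
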