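import Pool.Agent.Lib.MP_bc213e_ag.KBV.OutA

/-!
From the key inequality to the output of the virtual curve.
-/

set_option linter.unusedSectionVars false

namespace Pool.Agent.Lib.MP_bc213e_ag.KBV
open Module Filter Topology

variable {k F₀ Ω : Type} [Field k] [Field F₀] [Field Ω] [Algebra k F₀] [Algebra F₀ Ω]
  [Algebra k Ω] [IsScalarTower k F₀ Ω] [IsAlgClosure F₀ Ω] [CharZero k]

namespace Base
variable (B : Base k F₀ Ω)

/-- the properties of the degree that are used -/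
structure DegData (K : IntermediateField F₀ Ω) (L : B.Dv) (deg : B.Dv → ℝ) : Prop where
  hL : B.IsDiv K L
  add : ∀ D E, B.IsDiv K D → B.IsDiv K E → deg (D + E) = deg D + deg E
  nonneg : ∀ D, B.IsDiv K D → 0 ≤ D → 0 ≤ deg D
  dv : ∀ x ∈ K, x ≠ 0 → deg (B.dv x) = 0
  degL : deg L = 0

/-- `c` is a rational section of `d L` whose poles have degree zero -/
def SV (K : IntermediateField F₀ Ω) (L : B.Dv) (deg : B.Dv → ℝ) (d : ℤ) (c : Ω) : Prop :=
  ∃ E, B.IsDiv K E ∧ 0 ≤ E ∧ deg E = 0 ∧ c ∈ B.Γ K (d • L + E)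

variable {B} {K : IntermediateField F₀ Ω} {L : B.Dv} {deg : B.Dv → ℝ} {D E : B.Dv}

namespace DegData
variable (h : B.DegData K L deg)
include h

theorem zero : deg 0 = 0 := by
  have := h.add 0 0 out_zero out_zero
  rw [add_zero] at this
  linarith

theorem neg (hD : B.IsDiv K D) : deg (-D) = -deg D := by
  have := h.add D (-D) hD (out_neg hD)
  rw [add_neg_cancel, h.zero] at this
  linarith

theorem nsmul (hD : B.IsDiv K D) (n : ℕ) : deg (n • D) = n * deg D := by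
  induction n with
  | zero => simpa using h.zero
  | succ n ih =>
    rw [succ_nsmul, h.add _ _ (out_nsmul hD n) hD, ih]
    push_cast
    ring

theorem zsmul (hD : B.IsDiv K D) (n : ℤ) : deg (n • D) = n * deg D := by
  obtain ⟨n, rfl | rfl⟩ := n.eq_nat_or_neg
  · rw [natCast_zsmul, h.nsmul hD]
    simp
  · rw [neg_zsmul, natCast_zsmul, h.neg (out_nsmul hD n), h.nsmul hD]
    simp

theorem mono (hD : B.IsDiv K D) (hE : B.IsDiv K E) (hle : D ≤ E) : deg D ≤ deg E := by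
  have h1 := h.nonneg _ (out_sub hE hD) (sub_nonneg.2 hle)
  have h2 := h.add _ _ (out_sub hE hD) hD
  rw [sub_add_cancel] at h2
  linarith

theorem sum {ι : Type*} (s : Finset ι) {D : ι → B.Dv} (hD : ∀ i ∈ s, B.IsDiv K (D i)) :
    B.IsDiv K (∑ i ∈ s, D i) ∧ deg (∑ i ∈ s, D i) = ∑ i ∈ s, deg (D i) := by
  classical
  induction s using Finset.induction_on with
  | empty => exact ⟨out_zero, h.zero⟩
  | insert a s ha ih =>
    obtain ⟨h1, h2⟩ := ih fun i hi => hD i (Finset.mem_insert_of_mem hi)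
    have h3 := hD a (Finset.mem_insert_self _ _)
    rw [Finset.sum_insert ha, Finset.sum_insert ha]
    exact ⟨out_add h3 h1, by rw [h.add _ _ h3 h1, h2]⟩

theorem sv_zero (d : ℤ) : B.SV K L deg d 0 := ⟨0, out_zero, le_rfl, h.zero, zero_mem _⟩

theorem sv_add {d : ℤ} {x y : Ω} (hx : B.SV K L deg d x) (hy : B.SV K L deg d y) :
    B.SV K L deg d (x + y) := by
  obtain ⟨E, h1, h2, h3, h4⟩ := hx
  obtain ⟨E', h5, h6, h7, h8⟩ := hy
  refine ⟨E + E', out_add h1 h5, add_nonneg h2 h6, by rw [h.add _ _ h1 h5, h3, h7, add_zero],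
    add_mem (out_mono ?_ h4) (out_mono ?_ h8)⟩
  · exact add_le_add le_rfl (le_add_of_nonneg_right h6)
  · exact add_le_add le_rfl (le_add_of_nonneg_left h2)

theorem sv_mul {d d' : ℤ} {x y : Ω} (hx : B.SV K L deg d x) (hy : B.SV K L deg d' y) :
    B.SV K L deg (d + d') (x * y) := by
  obtain ⟨E, h1, h2, h3, h4⟩ := hx
  obtain ⟨E', h5, h6, h7, h8⟩ := hy
  refine ⟨E + E', out_add h1 h5, add_nonneg h2 h6, by rw [h.add _ _ h1 h5, h3, h7, add_zero], ?_⟩
  have := out_mul h4 h8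
  rwa [add_add_add_comm, ← add_zsmul] at this

theorem sv_const (c : k) : B.SV K L deg 0 (algebraMap k Ω c) := by
  refine ⟨0, out_zero, le_rfl, h.zero, ?_⟩
  rw [Algebra.algebraMap_eq_smul_one]
  refine Submodule.smul_mem _ c (mem_Γ.2 ⟨one_mem _, fun v => ?_⟩)
  simpa using v.1.ge_one

theorem sv_pow {d : ℤ} {x : Ω} (hx : B.SV K L deg d x) (n : ℕ) :
    B.SV K L deg (n * d) (x ^ n) := by
  induction n with
  | zero => simpa using h.sv_const 1
  | succ n ih =>
    have := h.sv_mul ih hx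
    rwa [← pow_succ, ← add_one_mul, ← Nat.cast_succ] at this

theorem sv_null {d : ℤ} {x : Ω} (h0 : x ≠ 0) (h1 : B.IsDiv K E) (h3 : deg E = 0)
    (h4 : x ∈ B.Γ K (d • L + E)) : B.IsDiv K (B.dv x + (d • L + E)) ∧
      0 ≤ B.dv x + (d • L + E) ∧ deg (B.dv x + (d • L + E)) = 0 := by
  rw [mem_Γ] at h4
  have h5 := out_dv (B := B) h4.1 h0
  have h6 := out_zsmul h.hL d
  refine ⟨out_add h5 (out_add h6 h1), fun v => ?_, ?_⟩
  · have := (h4.2 v).le h0
    rw [Pi.add_apply, Pi.zero_apply, Base.dv]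
    linarith
  · rw [h.add _ _ h5 (out_add h6 h1), h.add _ _ h6 h1, h.dv x h4.1 h0, h.zsmul h.hL, h.degL, h3]
    simp

theorem sv_inv {d : ℤ} {x : Ω} (hx : B.SV K L deg d x) : B.SV K L deg (-d) x⁻¹ := by
  by_cases h0 : x = 0
  · rw [h0, inv_zero]
    exact h.sv_zero _
  obtain ⟨E, h1, h2, h3, h4⟩ := hx
  obtain ⟨h5, h6, h7⟩ := h.sv_null h0 h1 h3 h4
  refine ⟨_, h5, h6, h7, mem_Γ.2 ⟨inv_mem (mem_Γ.1 h4).1, fun v => QVal.Ge.of_le ?_⟩⟩
  have := h2 v
  rw [Pi.zero_apply] at this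
  simp only [QVal.ord_inv, Pi.add_apply, neg_zsmul, Pi.neg_apply, Base.dv]
  linarith

/-- the field of vertical functions -/
def KK : IntermediateField k Ω where
  carrier := {x | B.SV K L deg 0 x}
  mul_mem' hx hy := by simpa using h.sv_mul hx hy
  add_mem' hx hy := h.sv_add hx hy
  algebraMap_mem' := h.sv_const
  inv_mem' _ hx := by simpa using h.sv_inv hx

theorem mem_KK {x : Ω} : x ∈ h.KK ↔ B.SV K L deg 0 x := Iff.rfl

theorem common {ι : Type*} (s : Finset ι) {c : ι → Ω} (hc : ∀ i ∈ s, B.SV K L deg 0 (c i)) :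
    ∃ E, B.IsDiv K E ∧ 0 ≤ E ∧ deg E = 0 ∧ ∀ i ∈ s, c i ∈ B.Γ K E := by
  classical
  induction s using Finset.induction_on with
  | empty => exact ⟨0, out_zero, le_rfl, h.zero, by simp⟩
  | insert a s ha ih =>
    obtain ⟨E, h1, h2, h3, h4⟩ := ih fun i hi => hc i (Finset.mem_insert_of_mem hi)
    obtain ⟨E', h5, h6, h7, h8⟩ := hc a (Finset.mem_insert_self _ _)
    rw [zero_zsmul, zero_add] at h8
    refine ⟨E + E', out_add h1 h5, add_nonneg h2 h6, by rw [h.add _ _ h1 h5, h3, h7, add_zero],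
      fun i hi => ?_⟩
    rcases Finset.mem_insert.1 hi with rfl | hi
    · exact out_mono (le_add_of_nonneg_left h2) h8
    · exact out_mono (le_add_of_nonneg_right h6) (h4 i hi)

theorem closed {x : Ω} (hx : x ∈ K) (ha : IsAlgebraic h.KK x) : x ∈ h.KK := by
  by_cases h0 : x = 0
  · rw [h0]
    exact zero_mem _
  obtain ⟨E, h1, h2, h3, h4⟩ := h.common (Finset.range ((minpoly h.KK x).natDegree + 1))
    (c := fun i => algebraMap h.KK Ω ((minpoly h.KK x).coeff i))
    fun i _ => ((minpoly h.KK x).coeff i).2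
  refine ⟨E, h1, h2, h3, ?_⟩
  rw [zero_zsmul, zero_add, mem_Γ]
  refine ⟨hx, fun v => ?_⟩
  by_contra hc
  obtain ⟨-, h5⟩ := QVal.not_ge_iff.1 hc
  have h6 : 0 ≤ E v := h2 v
  refine (QVal.ord_sum_of_lt (V := v.1) (Finset.self_mem_range_succ _) (ext_top ha h0)
    fun i hi hne => ?_).1 (ext_sum h.KK x)
  have h7 : (i : ℚ) + 1 ≤ (minpoly h.KK x).natDegree := by
    exact_mod_cast lt_of_le_of_ne (Nat.lt_succ_iff.mp (Finset.mem_range.mp hi)) hne
  rw [(minpoly.monic ha.isIntegral).coeff_natDegree, map_one, one_mul, QVal.ord_pow]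
  exact (((mem_Γ.1 (h4 i hi)).2 v).mul ((v.1.ge_ord x).pow i)).gt (by nlinarith)

/-- a valuation at infinity of positive weight -/
theorem exists_pos [FiniteDimensional F₀ K] (hH : 0 < deg B.H) :
    ∃ w : B.P, B.res w = B.inf ∧ ∃ π ∈ K, π ≠ 0 ∧ 0 < w.1.ord π ∧
      (∀ x ∈ K, 0 < w.1.ord x → w.1.ord π ≤ w.1.ord x) ∧ 0 < deg (outPt K w (w.1.ord π)) := by
  obtain ⟨T, hT, h1⟩ := out_classes (B := B) (K := K)
  obtain ⟨z, z0, hz⟩ := out_unif (B := B)
  have z1 : algebraMap F₀ Ω z ≠ 0 := by simpa using z0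
  have h2 : ∀ w : B.P, B.res w = B.inf → w.1.ord (algebraMap F₀ Ω z) = 1 := fun w hw => by
    rw [← hw] at hz
    exact hz
  have h3 : ∀ w ∈ T, B.IsDiv K (outPt K w 1) := fun w hw => by
    rw [← h2 w (hT w hw)]
    exact out_pt (K.algebraMap_mem z) z1
  obtain ⟨h4, h5⟩ := h.sum T h3
  have h6 : B.H ≤ ∑ w ∈ T, outPt K w 1 := fun v => by
    rw [Finset.sum_apply]
    by_cases hv : B.res v = B.inf
    · obtain ⟨w, hw, h7⟩ := h1 v hv
      have h8 := Finset.single_le_sum (f := fun w => outPt K w 1 v)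
        (fun w _ => out_pt_nonneg zero_le_one v) hw
      simp only [out_pt_same h7] at h8
      simpa [H, ov, hv] using h8
    · have h8 : 0 ≤ ∑ w ∈ T, outPt K w 1 v :=
        Finset.sum_nonneg fun w _ => out_pt_nonneg zero_le_one v
      simpa [H, ov, hv] using h8
  have h7 := h.mono out_H h4 h6
  obtain ⟨w, hw, h8⟩ : ∃ w ∈ T, 0 < deg (outPt K w 1) := by
    by_contra hc
    push Not at hc
    have := Finset.sum_nonpos hc
    linarith
  obtain ⟨π, h9, π0, h10, h11⟩ := out_least (K := K) (hT w hw)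
  refine ⟨w, hT w hw, π, h9, π0, h10, h11, ?_⟩
  obtain ⟨n, hn⟩ := exists_nat_ge (w.1.ord π)⁻¹
  have h12 := out_pt (B := B) (w := w) h9 π0
  have h13 : outPt K w 1 ≤ n • outPt K w (w.1.ord π) := fun v => by
    by_cases hs : B.Same K v w
    · rw [Pi.smul_apply, out_pt_same hs, out_pt_same hs, nsmul_eq_mul]
      rwa [inv_le_iff_one_le_mul₀ h10] at hn
    · rw [Pi.smul_apply, out_pt_not hs, out_pt_not hs, smul_zero]
  have h14 := h.mono (h3 w hw) (out_nsmul h12 n) h13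
  rw [h.nsmul h12] at h14
  by_contra hc
  have : (n : ℝ) * deg (outPt K w (w.1.ord π)) ≤ 0 :=
    mul_nonpos_of_nonneg_of_nonpos (Nat.cast_nonneg n) (not_lt.1 hc)
  linarith

theorem null_eq {w : B.P} {π : Ω} (hπ : π ∈ K) (π0 : π ≠ 0)
    (hp : 0 < deg (outPt K w (w.1.ord π))) (h1 : B.IsDiv K E) (h2 : 0 ≤ E) (h3 : deg E = 0) :
    E w = 0 := by
  by_contra hc
  have h4 : 0 < E w := lt_of_le_of_ne (h2 w) (Ne.symm hc)
  obtain ⟨n, hn⟩ := exists_nat_ge (w.1.ord π / E w)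
  rw [div_le_iff₀ h4] at hn
  have h5 : outPt K w (w.1.ord π) ≤ n • E := fun v => by
    by_cases hs : B.Same K v w
    · rw [Pi.smul_apply, out_pt_same hs, h1.same v w hs, nsmul_eq_mul]
      exact hn
    · rw [out_pt_not hs]
      exact nsmul_nonneg h2 n v
  have h6 := h.mono (out_pt hπ π0) (out_nsmul h1 n) h5
  rw [h.nsmul h1, h3, mul_zero] at h6
  linarith

theorem sv_ord {w : B.P} {π : Ω} (hπ : π ∈ K) (π0 : π ≠ 0)
    (hp : 0 < deg (outPt K w (w.1.ord π))) {d : ℤ} {x : Ω} (hx : B.SV K L deg d x) (h0 : x ≠ 0) :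
    w.1.ord x + d * L w = 0 := by
  obtain ⟨E, h1, h2, h3, h4⟩ := hx
  obtain ⟨h5, h6, h7⟩ := h.sv_null h0 h1 h3 h4
  have h8 := h.null_eq hπ π0 hp h5 h6 h7
  have h9 := h.null_eq hπ π0 hp h1 h2 h3
  rw [Pi.add_apply, Pi.add_apply, Pi.smul_apply, zsmul_eq_mul, h9, add_zero] at h8
  exact h8

end DegData

/-- The output of the virtual curve from the degree and the key inequality. -/
theorem out_of_key [FiniteDimensional F₀ K] {ν : ℕ} {M : ℕ → ℕ → Submodule k Ω}
    (h : B.DegData K L deg) (hH : 0 < deg B.H) (f : B.Dv → ℝ) {r : ℝ} (hr : 0 < r)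
    (hf : ∀ D, B.IsDiv K D → f D = r * vd ν fun b => B.Γ K (D + b • L))
    (tameD : ∀ D, B.IsDiv K D → Tame ν fun b => B.Γ K (D + b • L))
    (lim : ∀ D, B.IsDiv K D →
      Tendsto (fun m : ℕ => f (D + m • B.H) - f (m • B.H)) atTop (𝓝 (deg D)))
    (tame : ∀ j, Tame ν (M j))
    (kill : ∃ (D₁ D₂ : B.Dv) (j₀ : ℕ), B.IsDiv K D₁ ∧ B.IsDiv K D₂ ∧ 0 ≤ D₁ ∧ 0 ≤ D₂ ∧
      D₁ ⊓ D₂ = 0 ∧ ∀ j b, j₀ ≤ j →
        B.Γ K (j • B.H - D₁ + b • L) ≤ M j b ∧ B.Γ K (j • B.H - D₂ + b • L) ≤ M j b)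
    (key : ∀ j : ℕ, ∃ N₀ : ℕ, ∀ (I : Type) [Fintype I] (a : I → ℕ) (s : I → Ω),
      (∀ l, s l ∈ B.Γ K (j • B.H + a l • L)) →
      (∀ (d : ℤ) (c : I → Ω), (∀ l, B.SV K L deg (d - a l) (c l)) → ∑ l, c l * s l = 0 →
        ∀ l, c l = 0) → Fintype.card I ≤ N₀) :
    ∃ KK c lam w, B.Out K L ν M KK c lam w := by
  classical
  obtain ⟨w, hw, π, hπ, π0, hπ1, hπ2, hp⟩ := h.exists_pos hH
  have hjH : ∀ j : ℕ, B.IsDiv K (j • B.H) := fun j => out_nsmul out_H j
  obtain ⟨c, hc, lam, lam0, hlam⟩ : ∃ c : ℕ, 0 < c ∧ ∃ lam, lam ≠ 0 ∧ B.SV K L deg c lam := by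
    by_contra hn
    have h1 : ∀ (d : ℤ) (x : Ω), B.SV K L deg d x → x ≠ 0 → d = 0 := fun d x hx x0 => by
      obtain ⟨n, rfl | rfl⟩ := d.eq_nat_or_neg
      · by_contra h2
        exact hn ⟨n, Nat.pos_of_ne_zero fun h3 => h2 (by simp [h3]), x, x0, hx⟩
      · by_contra h2
        exact hn ⟨n, Nat.pos_of_ne_zero fun h3 => h2 (by simp [h3]), x⁻¹, inv_ne_zero x0,
          by simpa using h.sv_inv hx⟩
    obtain ⟨m, hm⟩ := ((lim _ out_H).eventually (lt_mem_nhds hH)).exists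
    have h2 : 0 ≤ f (m • B.H) := by
      rw [hf _ (hjH m)]
      exact mul_nonneg hr.le (vd_nonneg (tameD _ (hjH m)))
    have h3 : 0 < f ((m + 1) • B.H) := by
      rw [succ_nsmul']
      linarith
    rw [hf _ (hjH (m + 1))] at h3
    have h4 := frequently_ne_bot (tameD _ (hjH (m + 1))) ((mul_pos_iff_of_pos_left hr).1 h3)
    obtain ⟨N₀, hN⟩ := key (m + 1)
    obtain ⟨T, hT, h5⟩ := (Nat.frequently_atTop_iff_infinite.1 h4).exists_subset_card_eq (N₀ + 1)
    have h6 : ∀ b : T, ∃ s ∈ B.Γ K ((m + 1) • B.H + (b : ℕ) • L), s ≠ 0 := fun b =>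
      Submodule.exists_mem_ne_zero_of_ne_bot (hT b.2)
    choose s hs s0 using h6
    have h7 := hN T (fun b => b) s hs fun d c h8 h9 l => by
      by_contra hl
      have h10 : ∀ l', l' ≠ l → c l' * s l' = 0 := fun l' hl' => by
        by_contra h11
        have e1 := h1 _ _ (h8 l) hl
        have e2 := h1 _ _ (h8 l') (left_ne_zero_of_mul h11)
        exact hl' (Subtype.ext (by omega))
      rw [Finset.sum_eq_single l (fun l' _ hl' => h10 l' hl') (by simp)] at h9
      exact mul_ne_zero hl (s0 l) h9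
    rw [Fintype.card_coe] at h7
    omega
  refine ⟨h.KK, c, lam, w, hc, ?_, lam0, ?_, fun x hx => h.closed hx, hw, fun x hx => ?_, ?_,
    fun j => ?_, ?_⟩
  · obtain ⟨E, -, -, -, h1⟩ := hlam
    exact (mem_Γ.1 h1).1
  · rintro x ⟨E, -, -, -, h1⟩
    exact (mem_Γ.1 h1).1
  · by_cases x0 : x = 0
    · simp [x0]
    · simpa using h.sv_ord hπ π0 hp hx x0
  · simpa using h.sv_ord hπ π0 hp hlam lam0
  · obtain ⟨N₀, hN⟩ := key j
    obtain ⟨b, hb, h1, h2⟩ := exists_linearIndependent h.KK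
      {x : Ω | ∃ a : ℕ, x * lam ^ a ∈ B.Γ K (j • B.H + (a * c) • L)}
    rw [← h1]
    refine FiniteDimensional.span_of_finite _ ?_
    by_contra hinf
    obtain ⟨T, hT, h5⟩ := Set.Infinite.exists_subset_card_eq hinf (N₀ + 1)
    have h6 : ∀ x : T, ∃ a : ℕ, (x : Ω) * lam ^ a ∈ B.Γ K (j • B.H + (a * c) • L) :=
      fun x => hb (hT x.2)
    choose a ha using h6
    have h3 : LinearIndependent h.KK fun x : T => (x : Ω) :=
      h2.comp (fun x : T => (⟨x, hT x.2⟩ : b)) fun x y e =>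
        Subtype.ext (congrArg (fun z : b => (z : Ω)) e)
    have h7 := hN T (fun x => a x * c) (fun x => (x : Ω) * lam ^ a x) ha fun d e h8 h9 l => by
      by_contra hl
      have h10 : ∀ x, B.SV K L deg d (e x * lam ^ a x) := fun x => by
        have := h.sv_mul (h8 x) (h.sv_pow hlam (a x))
        rwa [Nat.cast_mul, sub_add_cancel] at this
      have h11 : e l * lam ^ a l ≠ 0 := mul_ne_zero hl (pow_ne_zero _ lam0)
      have h12 : ∀ x, e x * lam ^ a x * (e l * lam ^ a l)⁻¹ ∈ h.KK := fun x => by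
        have := h.sv_mul (h10 x) (h.sv_inv (h10 l))
        rwa [add_neg_cancel] at this
      have h13 := Fintype.linearIndependent_iff.1 h3 (fun x => ⟨_, h12 x⟩) (by
        have h14 := congrArg (· * (e l * lam ^ a l)⁻¹) h9
        simp only [zero_mul, Finset.sum_mul] at h14
        rw [← h14]
        refine Finset.sum_congr rfl fun x _ => ?_
        rw [IntermediateField.smul_def, smul_eq_mul]
        ring) l
      have h15 := congrArg (fun z : h.KK => (z : Ω)) h13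
      simp only [mul_inv_cancel₀ h11] at h15
      exact one_ne_zero h15
    rw [Fintype.card_coe] at h7
    omega
  · obtain ⟨D₁, j₀, h1, h2, h3⟩ : ∃ (D₁ : B.Dv) (j₀ : ℕ), B.IsDiv K D₁ ∧ D₁ w = 0 ∧
        ∀ j b, j₀ ≤ j → B.Γ K (j • B.H - D₁ + b • L) ≤ M j b := by
      obtain ⟨D₁, D₂, j₀, h1, h2, -, -, h3, h4⟩ := kill
      have h5 : min (D₁ w) (D₂ w) = 0 := congrFun h3 w
      rcases min_choice (D₁ w) (D₂ w) with h6 | h6
      · exact ⟨D₁, j₀, h1, h6 ▸ h5, fun j b hj => (h4 j b hj).1⟩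
      · exact ⟨D₂, j₀, h2, h6 ▸ h5, fun j b hj => (h4 j b hj).2⟩
    have hP := out_pt (B := B) (w := w) hπ π0
    set P := outPt K w (w.1.ord π) with hPd
    have h4 := out_neg h1
    have h5 := out_sub h4 hP
    have h6 := (lim _ h4).sub (lim _ h5)
    have h7 : deg (-D₁) - deg (-D₁ - P) = deg P := by
      have := h.add _ _ h5 hP
      rw [sub_add_cancel] at this
      linarith
    rw [h7] at h6
    refine ⟨deg P / 2 / r, by positivity, ?_⟩
    filter_upwards [h6.eventually (lt_mem_nhds (half_lt_self hp)), eventually_ge_atTop j₀]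
      with j h8 hj
    have h9 := out_add h4 (hjH j)
    have h10 := out_add h5 (hjH j)
    rw [hf (-D₁ + j • B.H) h9, hf (-D₁ - P + j • B.H) h10] at h8
    have hU : ∀ b : ℕ, B.Γ K (-D₁ + j • B.H + b • L) ≤ M j b := fun b => by
      rw [neg_add_eq_sub]
      exact h3 j b hj
    have h11 := vd_sup_add_inf (tameD _ h9)
      ((tame j).inf fun b => B.van w (j • B.H + b • L))
    have h12 := vd_mono (U := fun b => B.Γ K (-D₁ + j • B.H + b • L) ⊔
      (M j b ⊓ B.van w (j • B.H + b • L))) (tame j) fun b => sup_le (hU b) inf_le_left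
    have h13 := vd_mono (U := fun b => B.Γ K (-D₁ + j • B.H + b • L) ⊓
      (M j b ⊓ B.van w (j • B.H + b • L))) (tameD _ h10) fun b x hx => by
        obtain ⟨h14, -, h15⟩ := hx
        have h16 := mem_Γ.1 h14
        have h17 := mem_van.1 h15
        refine mem_Γ.2 ⟨h16.1, fun v => ?_⟩
        by_cases hs : B.Same K v w
        · by_cases x0 : x = 0
          · simp [x0]
          have h18 := out_add (hjH j) (out_nsmul h.hL b)
          obtain ⟨y, hy, y0, h19⟩ := h18.val w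
          have h20 := hπ2 (x * y) (mul_mem h16.1 hy) (by
            have := h17.lt x0
            rw [w.1.ord_mul x0 y0]
            linarith)
          have h21 := h18.same v w hs
          have h22 := h1.same v w hs
          rw [w.1.ord_mul x0 y0] at h20
          refine QVal.Ge.of_le ?_
          rw [hs x h16.1]
          simp only [Pi.add_apply, Pi.sub_apply, Pi.neg_apply, hPd, out_pt_same hs] at h19 h21 ⊢
          linarith
        · have h18 := h16.2 v
          simp only [Pi.add_apply, Pi.sub_apply, Pi.neg_apply, hPd, out_pt_not hs,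
            sub_zero] at h18 ⊢
          exact h18
    rw [div_le_iff₀ hr]
    nlinarith

end Base

end Pool.Agent.Lib.MP_bc213e_ag.KBV
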