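import Pool.Agent.Lib.MP_bc213e_ag.KBV.Key
import Pool.Agent.Lib.MP_bc213e_ag.KBV.Cou
import Pool.Agent.Lib.MP_bc213e_ag.KBV.Kill
import Pool.Agent.Lib.MP_bc213e_ag.KBV.Out

/-!
The theorem on the virtual curve.
-/

namespace Pool.Agent.Lib.MP_bc213e_ag.KBV
open Module Filter Topology

variable {k F₀ Ω : Type} [Field k] [Field F₀] [Field Ω] [Algebra k F₀] [Algebra F₀ Ω]
  [Algebra k Ω] [IsScalarTower k F₀ Ω] [IsAlgClosure F₀ Ω] [CharZero k]

theorem VC.main [CharZero F₀] [CharZero Ω] (V : VC k F₀ Ω) {A : Type} [Fintype A]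
    {Q : A → QVal F₀} {M : ℕ → ℕ → Submodule k Ω} (G : V.toBase.Geo V.K V.L V.ν Q M) :
    ∃ KK c lam w, V.toBase.Out V.K V.L V.ν M KK c lam w := by
  have := V.finK
  have hK := V.ok_K
  have hs := VC.sig_pos G
  have hδ := VC.δ_pos hs
  refine Base.out_of_key (deg := V.deg) ⟨V.hL, fun D E => hK.deg_add, fun D => hK.deg_nonneg,
    fun x _ _ => VC.deg_dv x, VC.deg_L⟩ (by rwa [VC.deg_H]) (V.f V.K) (inv_pos.mpr hK.pos)
    (fun D _ => div_eq_inv_mul _ _) (fun D => hK.tame) (fun D hD => ?_) G.tame G.kill fun j => ?_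
  · rw [hK.deg_eq hD]
    refine ((hK.tendsto_chi hD).sub (hK.tendsto_chi .zero)).congr fun m => ?_
    rw [zero_add]
    ring
  · refine ⟨⌊V.sig V.K (V.H - j • V.H) / V.sig V.K V.H⌋₊, fun I _ a s h ind => Nat.le_floor ?_⟩
    rw [le_div_iff₀ hs]
    exact VC.key hδ (VC.nv G) h fun l₀ c hc h0 => ind _ c hc h0 l₀

theorem Base.Geo.main {B : Base k F₀ Ω} {K : IntermediateField F₀ Ω} {L : B.Dv} {ν : ℕ} {A : Type}
    [Fintype A] {Q : A → QVal F₀} {M : ℕ → ℕ → Submodule k Ω} (G : B.Geo K L ν Q M) :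
    ∃ KK c lam w, B.Out K L ν M KK c lam w := by
  have : CharZero F₀ := charZero_of_injective_algebraMap (algebraMap k F₀).injective
  have : CharZero Ω := charZero_of_injective_algebraMap (algebraMap k Ω).injective
  obtain ⟨h1, δ, h2⟩ := G.exists_slope
  exact VC.main ⟨B, K, G.finK, L, G.hL, ν, h1, δ, h2⟩ G

end Pool.Agent.Lib.MP_bc213e_ag.KBV
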