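import Pool.Agent.Lib.MP_bc213e_ag.KBV.QConj

/-!
The virtual curve: definitions.

`k ≤ F₀ ≤ K ≤ Ω`, where `F₀` carries a set of places like the prime divisors of a projective space
over `k`. Divisors are functions on the set of all valuations of `Ω` above these places.
-/

set_option linter.unusedSectionVars false

namespace Pool.Agent.Lib.MP_bc213e_ag.KBV
open Module Filter Topology

/-- a Banach limit -/
noncomputable def BL (a : ℕ → ℝ) : ℝ :=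
  limUnder (hyperfilter ℕ : Filter ℕ) fun n => (∑ i ∈ Finset.range n, a i) / n

/-- bounded sequences -/
def Bdd (a : ℕ → ℝ) : Prop := ∃ C : ℝ, ∀ n, |a n| ≤ C

section
variable {k M : Type*} [Field k] [AddCommGroup M] [Module k M]

/-- the dimension of `U b` is `O(b ^ ν)` -/
def Tame (ν : ℕ) (U : ℕ → Submodule k M) : Prop :=
  ∃ C : ℝ, ∀ b, FiniteDimensional k (U b) ∧ (finrank k (U b) : ℝ) ≤ C * ((b : ℝ) + 1) ^ ν

/-- virtual dimension of a family of subspaces -/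
noncomputable def vd (ν : ℕ) (U : ℕ → Submodule k M) : ℝ :=
  BL fun b => (finrank k (U b) : ℝ) / ((b : ℝ) + 1) ^ ν

end

open Classical in
/-- Places of `F₀ / k` behaving like the prime divisors of a projective space with the hyperplane
`inf` at infinity. The last parameter is the overfield `Ω` whose valuations will be used. -/
structure Base (k F₀ Ω : Type) [Field k] [Field F₀] [Algebra k F₀] where
  Pl : Set (QVal F₀)
  int : ∀ p ∈ Pl, ∀ x, ∃ n : ℤ, p.ord x = n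
  triv : ∀ p ∈ Pl, ∀ c : k, p.ord (algebraMap k F₀ c) = 0
  fin : ∀ x : F₀, {p | p ∈ Pl ∧ p.ord x ≠ 0}.Finite
  inf : QVal F₀
  inf_mem : inf ∈ Pl
  pic : ∀ p ∈ Pl, ∃ (m : ℕ) (z : F₀), z ≠ 0 ∧
    ∀ q ∈ Pl, q.ord z + (if q = inf then (m : ℚ) else 0) = if q = p then 1 else 0
  hyp : ∀ S : Set (QVal F₀), S.Finite → ∃ p ∈ Pl, p ∉ S ∧ ∃ z : F₀, z ≠ 0 ∧
    ∀ q ∈ Pl, q.ord z + (if q = inf then 1 else 0) = if q = p then 1 else 0

variable {k F₀ Ω : Type} [Field k] [Field F₀] [Field Ω] [Algebra k F₀] [Algebra F₀ Ω]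
  [Algebra k Ω] [IsScalarTower k F₀ Ω]

namespace Base
variable (B : Base k F₀ Ω)

/-- all valuations of `Ω` above the places of `F₀` -/
def P : Type := {v : QVal Ω // v.comap (algebraMap F₀ Ω) ∈ B.Pl}

/-- the place below -/
def res (v : B.P) : QVal F₀ := v.1.comap (algebraMap F₀ Ω)

/-- functions on the valuations -/
abbrev Dv : Type := B.P → ℚ

/-- `v` and `w` agree on `F` -/
def Same (F : IntermediateField F₀ Ω) (v w : B.P) : Prop := ∀ x ∈ F, v.1.ord x = w.1.ord x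

/-- `D` is a divisor of `F` -/
structure IsDiv (F : IntermediateField F₀ Ω) (D : B.Dv) : Prop where
  fin : ∃ S : Set (QVal F₀), S.Finite ∧ ∀ v, D v ≠ 0 → B.res v ∈ S
  same : ∀ v w, B.Same F v w → D v = D w
  val : ∀ v, ∃ x ∈ F, x ≠ 0 ∧ D v = v.1.ord x

/-- principal divisor -/
def dv (x : Ω) : B.Dv := fun v => v.1.ord x

open Classical in
/-- pull-back of the place `p` -/
noncomputable def ov (p : QVal F₀) : B.Dv := fun v => if B.res v = p then 1 else 0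

/-- the hyperplane at infinity -/
noncomputable def H : B.Dv := B.ov B.inf

lemma ge_smul (v : B.P) (c : k) {x : Ω} {m : ℚ} (h : v.1.Ge x m) : v.1.Ge (c • x) m := by
  rw [Algebra.smul_def, IsScalarTower.algebraMap_apply k F₀ Ω]
  exact QVal.Ge.mul₀ (.of_le (B.triv _ v.2 c).ge) h

lemma gt_smul (v : B.P) (c : k) {x : Ω} {m : ℚ} (h : v.1.Gt x m) : v.1.Gt (c • x) m := by
  rw [Algebra.smul_def, IsScalarTower.algebraMap_apply k F₀ Ω]
  exact QVal.Ge.mul_gt₀ (.of_le (B.triv _ v.2 c).ge) h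

/-- sections of `D` over the set `U` of valuations -/
def Γ' (F : IntermediateField F₀ Ω) (U : Set B.P) (D : B.Dv) : Submodule k Ω where
  carrier := {x | x ∈ F ∧ ∀ v ∈ U, v.1.Ge x (-D v)}
  zero_mem' := ⟨zero_mem _, fun v _ => v.1.ge_zero _⟩
  add_mem' h h' := ⟨add_mem h.1 h'.1, fun v hv => (h.2 v hv).add (h'.2 v hv)⟩
  smul_mem' c x h := ⟨by
    rw [Algebra.smul_def, IsScalarTower.algebraMap_apply k F₀ Ω]
    exact mul_mem (F.algebraMap_mem _) h.1, fun v hv => B.ge_smul v c (h.2 v hv)⟩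

/-- global sections -/
def Γ (F : IntermediateField F₀ Ω) (D : B.Dv) : Submodule k Ω := B.Γ' F Set.univ D

/-- elements vanishing at `w` as sections of `D` -/
def van (w : B.P) (D : B.Dv) : Submodule k Ω where
  carrier := {x | w.1.Gt x (-D w)}
  zero_mem' := w.1.gt_zero _
  add_mem' h h' := h.add h'
  smul_mem' c _ h := B.gt_smul w c h

variable {B} in
lemma mem_Γ' {F : IntermediateField F₀ Ω} {U : Set B.P} {D : B.Dv} {x : Ω} :
    x ∈ B.Γ' F U D ↔ x ∈ F ∧ ∀ v ∈ U, v.1.Ge x (-D v) := Iff.rfl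

variable {B} in
lemma mem_Γ {F : IntermediateField F₀ Ω} {D : B.Dv} {x : Ω} :
    x ∈ B.Γ F D ↔ x ∈ F ∧ ∀ v : B.P, v.1.Ge x (-D v) := by simp [Γ, mem_Γ']

variable {B} in
lemma mem_van {w : B.P} {D : B.Dv} {x : Ω} : x ∈ B.van w D ↔ w.1.Gt x (-D w) := Iff.rfl

/-- the least positive value of `v` on `F`, that is `1 / e` -/
noncomputable def eps (F : IntermediateField F₀ Ω) (v : B.P) : ℚ :=
  Classical.epsilon fun e => IsLeast {q : ℚ | 0 < q ∧ ∃ x ∈ F, v.1.ord x = q} e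

/-- the ramification divisor of `F / F₀` (all ramification is tame) -/
noncomputable def Cod (F : IntermediateField F₀ Ω) : B.Dv := fun v => 1 - B.eps F v

/-- the map from the first cohomology of `D` to that of `G` vanishes, for the cover by the
complements of the hyperplanes `Q a` -/
def Cous (F : IntermediateField F₀ Ω) {A : Type} (Q : A → QVal F₀) (D G : B.Dv) : Prop :=
  ∀ a : A → Ω, (∀ i, a i ∈ F) →
    (∀ i j, a i - a j ∈ B.Γ' F {v | B.res v ≠ Q i ∧ B.res v ≠ Q j} D) →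
      ∃ a' ∈ F, ∀ i, a i - a' ∈ B.Γ' F {v | B.res v ≠ Q i} G

/-- The geometric input. `M j b` is a space of sections of `j H + b L`. -/
structure Geo (K : IntermediateField F₀ Ω) (L : B.Dv) (ν : ℕ) {A : Type} [Fintype A]
    (Q : A → QVal F₀) (M : ℕ → ℕ → Submodule k Ω) : Prop where
  finK : FiniteDimensional F₀ K
  hL : B.IsDiv K L
  hyp : ∀ a, ∃ y : F₀, y ≠ 0 ∧ B.H + B.dv (algebraMap F₀ Ω y) = B.ov (Q a)
  two : ∃ a₀ a₁, Q a₀ ≠ Q a₁
  nef : ∀ ρ : ℕ, ∃ N : ℕ, 0 < N ∧ ∃ s ∈ B.Γ K (N • B.H + (N * ρ) • L), s ≠ 0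
  adj : ∀ T : ℕ, ∃ m a c : ℕ, T * c < m ∧ ∃ x ∈ K, x ≠ 0 ∧
    m • B.Cod K ≤ (m * (Fintype.card A + 1) + c) • B.H + a • L + B.dv x
  nc : ∀ F : IntermediateField F₀ Ω, K ≤ F → FiniteDimensional F₀ F → ∀ G, B.IsDiv F G →
    ∃ h : ℕ, ∀ κ b₀ : ℕ, 0 < κ →
      ∀ e₀ ∈ B.Γ F (κ • (G - B.Cod F + Fintype.card A • B.H) + (κ * b₀) • L - h • B.H), e₀ ≠ 0 →
        ∃ (D : B.Dv) (b₁ : ℕ), B.IsDiv F D ∧ D ≤ G ∧
          ∀ b, b₁ ≤ b → B.Cous F Q (D + b • L) (G + b • L)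
  tame : ∀ j, Tame ν (M j)
  le : ∀ j b, M j b ≤ B.Γ K (j • B.H + b • L)
  kill : ∃ (D₁ D₂ : B.Dv) (j₀ : ℕ), B.IsDiv K D₁ ∧ B.IsDiv K D₂ ∧ 0 ≤ D₁ ∧ 0 ≤ D₂ ∧ D₁ ⊓ D₂ = 0 ∧
    ∀ j b, j₀ ≤ j → B.Γ K (j • B.H - D₁ + b • L) ≤ M j b ∧ B.Γ K (j • B.H - D₂ + b • L) ≤ M j b
  poly : ∃ α γ : ℝ, (∀ᶠ j : ℕ in atTop, vd ν (M j) = α * j + γ) ∧
    ∃ J : ℕ, ∑ j ∈ Finset.range J, (α * (j + 1) + γ) < ∑ j ∈ Finset.range J, vd ν (M (j + 1))

/-- The output: a field `KK` of vertical functions, a vertical section `lam` of `c L`, and a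
valuation `w` at infinity of positive weight. -/
structure Out (K : IntermediateField F₀ Ω) (L : B.Dv) (ν : ℕ) (M : ℕ → ℕ → Submodule k Ω)
    (KK : IntermediateField k Ω) (c : ℕ) (lam : Ω) (w : B.P) : Prop where
  pos : 0 < c
  mem : lam ∈ K
  ne : lam ≠ 0
  le : ∀ x ∈ KK, x ∈ K
  closed : ∀ x ∈ K, IsAlgebraic KK x → x ∈ KK
  inf : B.res w = B.inf
  triv : ∀ x ∈ KK, w.1.ord x = 0
  unit : w.1.ord lam + c * L w = 0
  fin : ∀ j : ℕ, FiniteDimensional KK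
    (Submodule.span KK {x : Ω | ∃ a : ℕ, x * lam ^ a ∈ B.Γ K (j • B.H + (a * c) • L)})
  big : ∃ η : ℝ, 0 < η ∧ ∀ᶠ j : ℕ in atTop,
    η ≤ vd ν (M j) - vd ν fun b => M j b ⊓ B.van w (j • B.H + b • L)

end Base

/-- the virtual curve -/
structure VC (k F₀ Ω : Type) [Field k] [Field F₀] [Field Ω] [Algebra k F₀] [Algebra F₀ Ω]
    [Algebra k Ω] [IsScalarTower k F₀ Ω] extends Base k F₀ Ω where
  K : IntermediateField F₀ Ω
  finK : FiniteDimensional F₀ K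
  L : toBase.Dv
  hL : toBase.IsDiv K L
  ν : ℕ
  tame : ∀ m : ℕ, Tame ν fun b => toBase.Γ K (m • toBase.H + b • L)
  δ : ℝ
  lin : ∃ C : ℝ, ∀ m : ℕ,
    |vd ν (fun b => toBase.Γ K (m • toBase.H + b • L)) / finrank F₀ K - m * δ| ≤ C

end Pool.Agent.Lib.MP_bc213e_ag.KBV
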