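import Pool.Agent.Lib.MP_bc213e_ag.KBV.Vd

/-!
Divisors and sections.
-/

set_option linter.unusedSectionVars false

namespace Pool.Agent.Lib.MP_bc213e_ag.KBV
open Module Filter Topology

variable {k F₀ Ω : Type} [Field k] [Field F₀] [Field Ω] [Algebra k F₀] [Algebra F₀ Ω]
  [Algebra k Ω] [IsScalarTower k F₀ Ω] [IsAlgClosure F₀ Ω] [CharZero k] [CharZero F₀] [CharZero Ω]

namespace Base
variable {B : Base k F₀ Ω} {F F' : IntermediateField F₀ Ω} {D D' E : B.Dv} {v w : B.P} {x y : Ω}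

lemma res_mem (v : B.P) : B.res v ∈ B.Pl := v.2

@[simp] lemma res_ord (v : B.P) (z : F₀) : (B.res v).ord z = v.1.ord (algebraMap F₀ Ω z) := rfl

@[simp] lemma dv_apply (x : Ω) (v : B.P) : B.dv x v = v.1.ord x := rfl

lemma ord_k (v : B.P) (c : k) : v.1.ord (algebraMap k Ω c) = 0 := by
  rw [IsScalarTower.algebraMap_apply k F₀ Ω]
  exact B.triv _ v.2 c

lemma ord_natCast (v : B.P) (n : ℕ) : v.1.ord (n : Ω) = 0 := by simpa using ord_k v (n : k)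

lemma ord_intCast (v : B.P) (n : ℤ) : v.1.ord (n : Ω) = 0 := by simpa using ord_k v (n : k)

lemma exists_over {p : QVal F₀} (hp : p ∈ B.Pl) : ∃ v : B.P, B.res v = p := by
  have := IsAlgClosure.isAlgebraic (R := F₀) (K := Ω)
  obtain ⟨V, hV⟩ := QVal.exists_ext (E := Ω) p
  have e : V.comap (algebraMap F₀ Ω) = p := QVal.ext (funext hV)
  exact ⟨⟨V, e ▸ hp⟩, e⟩

lemma Same.refl (F : IntermediateField F₀ Ω) (v : B.P) : B.Same F v v := fun _ _ => rfl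

lemma Same.symm (h : B.Same F v w) : B.Same F w v := fun x hx => (h x hx).symm

lemma Same.trans {u : B.P} (h : B.Same F u v) (h' : B.Same F v w) : B.Same F u w :=
  fun x hx => (h x hx).trans (h' x hx)

lemma Same.mono (h : B.Same F' v w) (hF : F ≤ F') : B.Same F v w := fun x hx => h x (hF hx)

lemma Same.res (h : B.Same F v w) : B.res v = B.res w :=
  QVal.ext (funext fun z => h _ (F.algebraMap_mem z))

lemma Same.ge (h : B.Same F v w) (hx : x ∈ F) {m : ℚ} : v.1.Ge x m ↔ w.1.Ge x m := by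
  simp [QVal.Ge, h x hx]

lemma Same.gt (h : B.Same F v w) (hx : x ∈ F) {m : ℚ} : v.1.Gt x m ↔ w.1.Gt x m := by
  simp [QVal.Gt, h x hx]

lemma dv_mul (hx : x ≠ 0) (hy : y ≠ 0) : B.dv (x * y) = B.dv x + B.dv y :=
  funext fun v => v.1.ord_mul hx hy

@[simp] lemma dv_inv (x : Ω) : B.dv x⁻¹ = -B.dv x := funext fun v => v.1.ord_inv x

@[simp] lemma dv_pow (x : Ω) (n : ℕ) : B.dv (x ^ n) = n • B.dv x := funext fun v => by simp

@[simp] lemma dv_zpow (x : Ω) (n : ℤ) : B.dv (x ^ n) = n • B.dv x := funext fun v => by simp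

@[simp] lemma dv_one : B.dv 1 = 0 := funext fun v => v.1.ord_one

@[simp] lemma dv_zero : B.dv 0 = 0 := funext fun v => v.1.ord_zero

@[simp] lemma dv_neg (x : Ω) : B.dv (-x) = B.dv x := funext fun v => v.1.ord_neg x

lemma ov_of_eq {p : QVal F₀} (h : B.res v = p) : B.ov p v = 1 := if_pos h

lemma ov_of_ne {p : QVal F₀} (h : B.res v ≠ p) : B.ov p v = 0 := if_neg h

lemma ov_nonneg (p : QVal F₀) : 0 ≤ B.ov p := fun v => by
  by_cases h : B.res v = p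
  · simp [ov_of_eq h]
  · simp [ov_of_ne h]

lemma H_nonneg : 0 ≤ B.H := ov_nonneg _

lemma pic' {p : QVal F₀} (hp : p ∈ B.Pl) :
    ∃ (m : ℕ) (z : F₀), z ≠ 0 ∧ m • B.H + B.dv (algebraMap F₀ Ω z) = B.ov p := by
  obtain ⟨m, z, hz, h⟩ := B.pic p hp
  refine ⟨m, z, hz, funext fun v => ?_⟩
  have := h _ (res_mem v)
  by_cases hv : B.res v = B.inf <;> simp only [hv, if_true, if_false] at this <;>
    simp [H, ov, hv, ← this, add_comm, ← res_ord]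

lemma hyp' {S : Set (QVal F₀)} (hS : S.Finite) : ∃ p ∈ B.Pl, p ∉ S ∧
    ∃ z : F₀, z ≠ 0 ∧ B.H + B.dv (algebraMap F₀ Ω z) = B.ov p := by
  obtain ⟨p, hp, hpS, z, hz, h⟩ := B.hyp S hS
  exact ⟨p, hp, hpS, z, hz, funext fun v => by
    simpa [H, ov, add_comm] using h _ (res_mem v)⟩

/-- every place has a uniformiser -/
lemma exists_unif {p : QVal F₀} (hp : p ∈ B.Pl) : ∃ z : F₀, z ≠ 0 ∧ p.ord z = 1 := by
  by_cases h : p = B.inf
  · obtain ⟨q, -, hq, z, hz, h1⟩ := B.hyp {B.inf} (Set.finite_singleton _)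
    have := h1 _ B.inf_mem
    rw [if_pos rfl, if_neg fun e => hq e.symm] at this
    exact ⟨z⁻¹, inv_ne_zero hz, by rw [h, QVal.ord_inv]; linarith⟩
  · obtain ⟨m, z, hz, h1⟩ := B.pic p hp
    exact ⟨z, hz, by simpa [h] using h1 p hp⟩

namespace IsDiv

/-- pointwise selection among values of divisors -/
lemma of_cases (hD : B.IsDiv F D) (hD' : B.IsDiv F D') (h : ∀ v, E v = D v ∨ E v = D' v)
    (hs : ∀ v w, B.Same F v w → E v = E w) : B.IsDiv F E := by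
  obtain ⟨S, hS, h1⟩ := hD.fin
  obtain ⟨S', hS', h2⟩ := hD'.fin
  refine ⟨⟨S ∪ S', hS.union hS', fun v hv => ?_⟩, hs, fun v => ?_⟩
  · rcases h v with e | e <;> rw [e] at hv
    exacts [Or.inl (h1 v hv), Or.inr (h2 v hv)]
  · rcases h v with e | e <;> rw [e]
    exacts [hD.val v, hD'.val v]

lemma zero : B.IsDiv F 0 :=
  ⟨⟨∅, Set.finite_empty, fun _ h => h rfl⟩, fun _ _ _ => rfl,
    fun _ => ⟨1, one_mem _, one_ne_zero, by simp⟩⟩

lemma add (hD : B.IsDiv F D) (hD' : B.IsDiv F D') : B.IsDiv F (D + D') := by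
  obtain ⟨S, hS, h1⟩ := hD.fin
  obtain ⟨S', hS', h2⟩ := hD'.fin
  refine ⟨⟨S ∪ S', hS.union hS', fun v hv => ?_⟩, fun v w h => ?_, fun v => ?_⟩
  · by_contra hc
    simp only [Set.mem_union, not_or] at hc
    exact hv (by simp [not_not.mp (mt (h1 v) hc.1), not_not.mp (mt (h2 v) hc.2)])
  · simp [hD.same v w h, hD'.same v w h]
  · obtain ⟨x, hx, h0, e⟩ := hD.val v
    obtain ⟨y, hy, h0', e'⟩ := hD'.val v
    exact ⟨x * y, mul_mem hx hy, mul_ne_zero h0 h0', by simp [e, e', v.1.ord_mul h0 h0']⟩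

lemma neg (hD : B.IsDiv F D) : B.IsDiv F (-D) := by
  obtain ⟨S, hS, h1⟩ := hD.fin
  refine ⟨⟨S, hS, fun v hv => h1 v (by simpa using hv)⟩, fun v w h => ?_, fun v => ?_⟩
  · simp [hD.same v w h]
  · obtain ⟨x, hx, h0, e⟩ := hD.val v
    exact ⟨x⁻¹, inv_mem hx, inv_ne_zero h0, by simp [e]⟩

lemma sub (hD : B.IsDiv F D) (hD' : B.IsDiv F D') : B.IsDiv F (D - D') := by
  rw [sub_eq_add_neg]
  exact hD.add hD'.neg

lemma sum {ι : Type*} {s : Finset ι} {D : ι → B.Dv} (h : ∀ i ∈ s, B.IsDiv F (D i)) :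
    B.IsDiv F (∑ i ∈ s, D i) :=
  Finset.sum_induction D (B.IsDiv F) (fun _ _ => add) zero h

lemma nsmul (hD : B.IsDiv F D) (n : ℕ) : B.IsDiv F (n • D) := by
  simpa using sum (s := Finset.range n) fun _ _ => hD

lemma zsmul (hD : B.IsDiv F D) (n : ℤ) : B.IsDiv F (n • D) := by
  obtain ⟨n, rfl | rfl⟩ := n.eq_nat_or_neg
  · simpa using hD.nsmul n
  · simpa using (hD.nsmul n).neg

lemma sup (hD : B.IsDiv F D) (hD' : B.IsDiv F D') : B.IsDiv F (D ⊔ D') :=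
  hD.of_cases hD' (fun v => max_choice (D v) (D' v)) fun v w h => by
    simp [hD.same v w h, hD'.same v w h]

lemma inf (hD : B.IsDiv F D) (hD' : B.IsDiv F D') : B.IsDiv F (D ⊓ D') :=
  hD.of_cases hD' (fun v => min_choice (D v) (D' v)) fun v w h => by
    simp [hD.same v w h, hD'.same v w h]

lemma posPart (hD : B.IsDiv F D) : B.IsDiv F D⁺ := hD.sup zero

lemma negPart (hD : B.IsDiv F D) : B.IsDiv F D⁻ := hD.neg.sup zero

/-- restriction to a set of valuations which is defined over `F` -/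
lemma indicator (hD : B.IsDiv F D) {T : Set B.P} (hT : ∀ v w, B.Same F v w → v ∈ T → w ∈ T) :
    B.IsDiv F (T.indicator D) :=
  hD.of_cases zero (fun v => (em (v ∈ T)).imp (fun h => by simp [h]) fun h => by simp [h])
    fun v w h => by
      by_cases hv : v ∈ T
      · simp [hv, hT v w h hv, hD.same v w h]
      · simp [hv, mt (hT w v h.symm) hv]

lemma mono (hD : B.IsDiv F D) (h : F ≤ F') : B.IsDiv F' D :=
  ⟨hD.fin, fun v w hs => hD.same v w (hs.mono h), fun v =>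
    (hD.val v).imp fun _ hx => ⟨h hx.1, hx.2⟩⟩

end IsDiv

lemma isDiv_ov (F : IntermediateField F₀ Ω) (p : QVal F₀) : B.IsDiv F (B.ov p) := by
  refine ⟨⟨{p}, Set.finite_singleton p, fun v hv => ?_⟩, fun v w h => ?_, fun v => ?_⟩
  · by_contra h
    exact hv (ov_of_ne h)
  · unfold ov
    rw [h.res]
  · by_cases h : B.res v = p
    · obtain ⟨z, hz, e⟩ := exists_unif (res_mem v)
      exact ⟨_, F.algebraMap_mem z, by simpa using hz, by rw [ov_of_eq h, ← e, res_ord]⟩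
    · exact ⟨1, one_mem _, one_ne_zero, by simp [ov_of_ne h]⟩

lemma isDiv_H (F : IntermediateField F₀ Ω) : B.IsDiv F B.H := isDiv_ov F _

lemma fin_poles (x : Ω) : ∃ S : Set (QVal F₀), S.Finite ∧ ∀ v : B.P, B.res v ∉ S → v.1.Ge x 0 := by
  have := IsAlgClosure.isAlgebraic (R := F₀) (K := Ω)
  obtain ⟨f, hf, hx⟩ := Algebra.IsIntegral.isIntegral (R := F₀) x
  refine ⟨⋃ i ∈ f.support, {p | p ∈ B.Pl ∧ p.ord (f.coeff i) ≠ 0},
    f.support.finite_toSet.biUnion fun i _ => B.fin _, fun v hv => ?_⟩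
  have h1 : ∀ i, f.coeff i ∈ (B.res v).O := fun i => by
    by_cases hi : i ∈ f.support
    · refine QVal.Ge.of_le (not_not.mp fun h => hv ?_ : (B.res v).ord (f.coeff i) = 0).ge
      exact Set.mem_biUnion hi ⟨res_mem v, h⟩
    · rw [Polynomial.notMem_support_iff.mp hi]
      exact zero_mem _
  obtain ⟨g, hg, -, hm⟩ := Polynomial.lifts_and_degree_eq_and_monic
    (f := (B.res v).O.subtype) ((Polynomial.lifts_iff_coeff_lifts f).mpr fun i => ⟨⟨_, h1 i⟩, rfl⟩) hf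
  refine v.1.ge_of_isIntegral (R := (B.res v).O) (fun a => ?_) ⟨g, hm, ?_⟩
  · exact (QVal.comap_ge _ _ _ _).mp a.2
  · rw [← hx, ← hg, Polynomial.eval₂_map]
    rfl

lemma isDiv_dv (hx : x ∈ F) : B.IsDiv F (B.dv x) := by
  by_cases h0 : x = 0
  · simpa [h0] using IsDiv.zero
  obtain ⟨S, hS, h1⟩ := fin_poles (B := B) x
  obtain ⟨S', hS', h2⟩ := fin_poles (B := B) x⁻¹
  refine ⟨⟨S ∪ S', hS.union hS', fun v hv => ?_⟩, fun v w h => h x hx, fun v => ⟨x, hx, h0, rfl⟩⟩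
  by_contra hc
  simp only [Set.mem_union, not_or] at hc
  have h3 := (h1 v hc.1).le h0
  have h4 := (h2 v hc.2).le (inv_ne_zero h0)
  rw [QVal.ord_inv] at h4
  exact hv (le_antisymm (by simpa using h4) h3)

lemma Γ'_mono {U U' : Set B.P} (hF : F ≤ F') (hU : U' ⊆ U) (h : ∀ v ∈ U', D v ≤ D' v) :
    B.Γ' F U D ≤ B.Γ' F' U' D' := fun _ hx =>
  ⟨hF hx.1, fun v hv => (hx.2 v (hU hv)).mono (neg_le_neg (h v hv))⟩

lemma Γ_mono (h : D ≤ D') : B.Γ F D ≤ B.Γ F D' := Γ'_mono le_rfl le_rfl fun v _ => h v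

lemma Γ_mono_field (hF : F ≤ F') (h : D ≤ D') : B.Γ F D ≤ B.Γ F' D' :=
  Γ'_mono hF le_rfl fun v _ => h v

lemma Γ_inf (D D' : B.Dv) : B.Γ F (D ⊓ D') = B.Γ F D ⊓ B.Γ F D' := by
  refine le_antisymm (le_inf (Γ_mono inf_le_left) (Γ_mono inf_le_right)) fun x hx => ?_
  refine mem_Γ.mpr ⟨(mem_Γ.mp hx.1).1, fun v => ?_⟩
  rcases min_choice (D v) (D' v) with e | e <;> rw [Pi.inf_apply, e]
  exacts [(mem_Γ.mp hx.1).2 v, (mem_Γ.mp hx.2).2 v]

lemma mul_mem_Γ (hx : x ∈ B.Γ F D) (hy : y ∈ B.Γ F D') : x * y ∈ B.Γ F (D + D') :=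
  mem_Γ.mpr ⟨mul_mem hx.1 hy.1, fun v => by
    simpa [add_comm] using ((mem_Γ.mp hx).2 v).mul ((mem_Γ.mp hy).2 v)⟩

lemma pow_mem_Γ (hx : x ∈ B.Γ F D) (n : ℕ) : x ^ n ∈ B.Γ F (n • D) :=
  mem_Γ.mpr ⟨pow_mem hx.1 n, fun v => by simpa using ((mem_Γ.mp hx).2 v).pow n⟩

lemma mem_Γ_dv (hx : x ∈ F) : x ∈ B.Γ F (-B.dv x) :=
  mem_Γ.mpr ⟨hx, fun v => by simpa using v.1.ge_ord x⟩

lemma mem_Γ_iff_dv (hx : x ≠ 0) : x ∈ B.Γ F D ↔ x ∈ F ∧ 0 ≤ B.dv x + D := by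
  simp only [mem_Γ, QVal.ge_iff hx, Pi.le_def, Pi.zero_apply, Pi.add_apply, dv_apply,
    neg_le_iff_add_nonneg]

lemma mul_mem_Γ_iff (hy : y ∈ F) (h0 : y ≠ 0) : x * y ∈ B.Γ F D ↔ x ∈ B.Γ F (D + B.dv y) := by
  have : x * y ∈ F ↔ x ∈ F :=
    ⟨fun h => by simpa [h0] using mul_mem h (inv_mem hy), fun h => mul_mem h hy⟩
  simp only [mem_Γ, this, QVal.ge_mul_iff h0, Pi.add_apply, dv_apply, neg_add']

/-- action of the Galois group on the valuations -/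
def act (σ : Ω ≃ₐ[F₀] Ω) (v : B.P) : B.P :=
  ⟨v.1.comap (σ : Ω →+* Ω), by
    have : (v.1.comap (σ : Ω →+* Ω)).comap (algebraMap F₀ Ω) = v.1.comap (algebraMap F₀ Ω) :=
      QVal.ext (funext fun z => by simp)
    exact this ▸ v.2⟩

@[simp] lemma act_ord (σ : Ω ≃ₐ[F₀] Ω) (v : B.P) (x : Ω) : (act σ v).1.ord x = v.1.ord (σ x) := rfl

@[simp] lemma act_ge (σ : Ω ≃ₐ[F₀] Ω) (v : B.P) (x : Ω) (m : ℚ) :
    (act σ v).1.Ge x m ↔ v.1.Ge (σ x) m := by simp [QVal.Ge]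

@[simp] lemma act_gt (σ : Ω ≃ₐ[F₀] Ω) (v : B.P) (x : Ω) (m : ℚ) :
    (act σ v).1.Gt x m ↔ v.1.Gt (σ x) m := by simp [QVal.Gt]

lemma same_act {σ : Ω ≃ₐ[F₀] Ω} (h : ∀ x ∈ F, σ x = x) (v : B.P) : B.Same F (act σ v) v :=
  fun x hx => by simp [h x hx]

@[simp] lemma res_act (σ : Ω ≃ₐ[F₀] Ω) (v : B.P) : B.res (act σ v) = B.res v :=
  QVal.ext (funext fun z => by simp)

lemma IsDiv.comp_act_eq (hD : B.IsDiv F D) {σ : Ω ≃ₐ[F₀] Ω} (h : ∀ x ∈ F, σ x = x) :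
    D ∘ act σ = D := funext fun v => hD.same _ _ (same_act h v)

lemma dv_act (σ : Ω ≃ₐ[F₀] Ω) (x : Ω) : B.dv x ∘ act σ = B.dv (σ x) := rfl

lemma IsDiv.comp_act (hD : B.IsDiv F D) (σ : Ω ≃ₐ[F₀] Ω) :
    B.IsDiv (F.map (σ : Ω →ₐ[F₀] Ω)) (D ∘ act σ) := by
  obtain ⟨S, hS, h1⟩ := hD.fin
  refine ⟨⟨S, hS, fun v hv => by simpa using h1 _ hv⟩, fun v w h =>
    hD.same _ _ fun x hx => h _ ⟨x, hx, rfl⟩, fun v => ?_⟩
  obtain ⟨x, hx, h0, e⟩ := hD.val (act σ v)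
  exact ⟨σ x, ⟨x, hx, rfl⟩, by simpa using h0, e⟩

lemma map_mem_Γ (σ : Ω ≃ₐ[F₀] Ω) :
    σ x ∈ B.Γ (F.map (σ : Ω →ₐ[F₀] Ω)) (D ∘ act σ) ↔ x ∈ B.Γ F D := by
  have h1 : σ x ∈ F.map (σ : Ω →ₐ[F₀] Ω) ↔ x ∈ F :=
    ⟨fun ⟨y, hy, e⟩ => (σ.injective e : y = x) ▸ hy, fun h => ⟨x, h, rfl⟩⟩
  have h2 : ∀ v : B.P, act σ (act σ.symm v) = v := fun v =>
    Subtype.ext (QVal.ext (funext fun z => by simp))
  simp only [mem_Γ, h1, Function.comp_apply, ← act_ge]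
  exact and_congr_right fun _ => ⟨fun h v => h2 v ▸ h (act σ.symm v), fun h v => h _⟩

/-- valuations which agree on `F` are conjugate over `F` -/
lemma Same.exists_act (h : B.Same F v w) :
    ∃ σ : Ω ≃ₐ[F₀] Ω, (∀ x ∈ F, σ x = x) ∧ v = act σ w := by
  obtain ⟨σ, hσ⟩ := QVal.exists_conj (F := F) v.1 w.1 fun x => h x x.2
  exact ⟨σ.restrictScalars F₀, fun x hx => σ.commutes ⟨x, hx⟩,
    Subtype.ext (QVal.ext (funext fun z => (hσ z).symm))⟩

lemma same_bot (h : B.res v = B.res w) : B.Same ⊥ v w := fun x hx => by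
  obtain ⟨z, rfl⟩ := IntermediateField.mem_bot.mp hx
  rw [← res_ord, ← res_ord, h]

/-- finitely many elements lie in a finite extension -/
lemma exists_field (F : IntermediateField F₀ Ω) [FiniteDimensional F₀ F] {s : Set Ω}
    (hs : s.Finite) : ∃ F' : IntermediateField F₀ Ω,
      F ≤ F' ∧ FiniteDimensional F₀ F' ∧ ∀ x ∈ s, x ∈ F' := by
  have := IsAlgClosure.isAlgebraic (R := F₀) (K := Ω)
  have := hs.to_subtype
  have : FiniteDimensional F₀ (IntermediateField.adjoin F₀ s) :=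
    IntermediateField.finiteDimensional_adjoin fun x _ => Algebra.IsIntegral.isIntegral x
  exact ⟨F ⊔ IntermediateField.adjoin F₀ s, le_sup_left, inferInstance, fun x hx =>
    (le_sup_right : _ ≤ F ⊔ _) (IntermediateField.subset_adjoin F₀ s hx)⟩

end Base

end Pool.Agent.Lib.MP_bc213e_ag.KBV
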