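import Pool.Agent.Lib.MP_bc213e_ag.KBV.Div

/-!
Approximation.
-/

set_option linter.unusedSectionVars false

namespace Pool.Agent.Lib.MP_bc213e_ag.KBV
open Module Filter Topology

variable {k F₀ Ω : Type} [Field k] [Field F₀] [Field Ω] [Algebra k F₀] [Algebra F₀ Ω]
  [Algebra k Ω] [IsScalarTower k F₀ Ω] [IsAlgClosure F₀ Ω] [CharZero k] [CharZero F₀] [CharZero Ω]

namespace Base
variable {B : Base k F₀ Ω} {F : IntermediateField F₀ Ω} {D : B.Dv}

lemma Apx_fin (F : IntermediateField F₀ Ω) [FiniteDimensional F₀ F] (p : QVal F₀) :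
    ((fun (v : B.P) (x : F) => v.1.ord x) '' {v | B.res v = p}).Finite := by
  by_cases h : ∃ v₀, B.res v₀ = p
  · obtain ⟨v₀, h0⟩ := h
    refine (Set.finite_range fun (φ : F →ₐ[F₀] Ω) (x : F) => v₀.1.ord (φ x)).subset ?_
    rintro _ ⟨v, hv, rfl⟩
    obtain ⟨σ, -, rfl⟩ := (same_bot (v := v) (w := v₀) (hv.trans h0.symm)).exists_act
    exact ⟨(σ : Ω →ₐ[F₀] Ω).comp F.val, rfl⟩
  · refine Set.Finite.subset Set.finite_empty ?_
    rintro _ ⟨v, hv, rfl⟩
    exact h ⟨v, hv⟩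

lemma Apx_large {ι : Type*} (T : Finset ι) (a b : ι → ℚ) (h : ∀ i ∈ T, 0 < a i) :
    ∃ N : ℕ, N ≠ 0 ∧ ∀ i ∈ T, b i < N * a i := by
  have h1 : ∀ᶠ N : ℕ in atTop, ∀ i ∈ T, b i < N * a i := (eventually_all_finset T).2 fun i hi => by
    obtain ⟨n, hn⟩ := exists_nat_gt (b i / a i)
    refine (eventually_ge_atTop n).mono fun N hN => ?_
    rw [← div_lt_iff₀ (h i hi)]
    exact hn.trans_le (by exact_mod_cast hN)
  obtain ⟨N, h2, h3⟩ := ((eventually_ge_atTop 1).and h1).exists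
  exact ⟨N, by omega, h3⟩

lemma Apx_neg {V : QVal Ω} {y : Ω} (h : V.ord y < 0) {N : ℕ} (hN : N ≠ 0) :
    1 + y ^ N ≠ 0 ∧ V.ord (1 + y ^ N) = N * V.ord y := by
  have h0 : y ≠ 0 := fun e => by simp [e] at h
  have h1 : (0 : ℚ) < N := by exact_mod_cast Nat.pos_of_ne_zero hN
  have := QVal.ord_add_of_gt (V := V) (pow_ne_zero N h0) (g := 1)
    (.of_lt (by rw [QVal.ord_pow, QVal.ord_one]; nlinarith))
  rwa [add_comm, QVal.ord_pow] at this

lemma Apx_pos {V : QVal Ω} {y : Ω} (h : 0 < V.ord y) {N : ℕ} (hN : N ≠ 0) :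
    1 + y ^ N ≠ 0 ∧ V.ord (1 + y ^ N) = 0 := by
  have h1 : (0 : ℚ) < N := by exact_mod_cast Nat.pos_of_ne_zero hN
  have := QVal.ord_add_of_gt (V := V) one_ne_zero (g := y ^ N)
    (.of_lt (by rw [QVal.ord_pow, QVal.ord_one]; positivity))
  rwa [QVal.ord_one] at this

/-- Finitely many valuations of `F` above finitely many places.
Sketch: above `p` fix `v₀`; every `v` is `act σ v₀` (`same_bot`, `Same.exists_act`), and `v` on `F`
only depends on the restriction `F →ₐ[F₀] Ω` of `σ`, a finite type. -/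
theorem exists_reps (F : IntermediateField F₀ Ω) [FiniteDimensional F₀ F] {S : Set (QVal F₀)}
    (hS : S.Finite) : ∃ T : Finset B.P, (∀ w ∈ T, B.res w ∈ S) ∧
      (∀ v, B.res v ∈ S → ∃ w ∈ T, B.Same F v w) ∧
      ∀ w ∈ T, ∀ w' ∈ T, B.Same F w w' → w = w' := by
  let r : B.P → F → ℚ := fun v x => v.1.ord x
  have h1 : (r '' {v | B.res v ∈ S}).Finite := by
    refine (hS.biUnion fun p _ => Apx_fin (B := B) F p).subset ?_
    rintro _ ⟨v, hv, rfl⟩
    exact Set.mem_biUnion hv ⟨v, rfl, rfl⟩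
  have := h1.to_subtype
  choose g h2 h3 using fun f : r '' {v | B.res v ∈ S} => f.2
  refine ⟨(Set.finite_range g).toFinset, fun w hw => ?_, fun v hv => ?_, fun w hw w' hw' h => ?_⟩
  · obtain ⟨f, rfl⟩ := (Set.Finite.mem_toFinset _).1 hw
    exact h2 f
  · exact ⟨g ⟨r v, v, hv, rfl⟩, (Set.Finite.mem_toFinset _).2 ⟨_, rfl⟩,
      fun x hx => (congrFun (h3 ⟨r v, v, hv, rfl⟩) ⟨x, hx⟩).symm⟩
  · obtain ⟨f, rfl⟩ := (Set.Finite.mem_toFinset _).1 hw
    obtain ⟨f', rfl⟩ := (Set.Finite.mem_toFinset _).1 hw'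
    congr 1
    exact Subtype.ext ((h3 f).symm.trans ((funext fun x : F => h x x.2).trans (h3 f')))

/-- Sketch: if `res v = res w` use `QVal.ext_of_ge` for the pull-backs to `F` (`comap`), otherwise
`B.pic`, `B.hyp` give `x` in `F₀`. -/
theorem exists_sep {v w : B.P} (h : ¬ B.Same F v w) :
    ∃ x ∈ F, x ≠ 0 ∧ 0 ≤ v.1.ord x ∧ w.1.ord x < 0 := by
  by_cases h1 : B.res v = B.res w
  · by_contra hc
    push Not at hc
    have := IsAlgClosure.isAlgebraic (R := F₀) (K := Ω)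
    have h2 : v.1.comap (algebraMap F Ω) = w.1.comap (algebraMap F Ω) := by
      refine QVal.ext_of_ge (F := F₀) (fun c => congrArg (fun p : QVal F₀ => p.ord c) h1)
        fun x hx => ?_
      by_cases h0 : x = 0
      · exact Or.inl h0
      · exact Or.inr (hc x x.2 (fun e => h0 (Subtype.ext e)) (hx.le h0))
    exact h fun x hx => congrArg (fun p : QVal F => p.ord ⟨x, hx⟩) h2
  by_cases h2 : B.res w = B.inf
  · obtain ⟨p, -, hp, z, hz, e⟩ := hyp' (B := B) (Set.finite_singleton B.inf)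
    have e1 := congrFun e v
    have e2 := congrFun e w
    have e3 : 0 ≤ B.ov p v := ov_nonneg p v
    rw [Pi.add_apply, H, ov_of_ne (h2 ▸ h1), dv_apply] at e1
    rw [Pi.add_apply, H, ov_of_eq h2, ov_of_ne (fun e => hp (e.symm.trans h2)), dv_apply] at e2
    exact ⟨_, F.algebraMap_mem z, by simpa using hz, by linarith, by linarith⟩
  · obtain ⟨m, z, hz, e⟩ := pic' (res_mem w)
    have e1 := congrFun e v
    have e2 := congrFun e w
    have e3 : 0 ≤ (m • B.H) v := nsmul_nonneg H_nonneg m v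
    rw [Pi.add_apply, ov_of_ne h1, dv_apply] at e1
    rw [Pi.add_apply, Pi.smul_apply, H, ov_of_ne h2, ov_of_eq rfl, dv_apply, smul_zero] at e2
    exact ⟨_, inv_mem (F.algebraMap_mem z), by simpa using hz, by rw [QVal.ord_inv]; linarith,
      by rw [QVal.ord_inv]; linarith⟩

/-- Sketch: for one `w` take a quotient of two elements from `exists_sep`; induction on `T` with
`y ^ N * t` or `y ^ N / (1 + y ^ N) * t`. -/
theorem exists_sep_all (v : B.P) (T : Finset B.P) (h : ∀ w ∈ T, ¬ B.Same F v w) :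
    ∃ x ∈ F, x ≠ 0 ∧ v.1.ord x < 0 ∧ ∀ w ∈ T, 0 < w.1.ord x := by
  classical
  induction T using Finset.induction_on with
  | empty =>
    obtain ⟨z, hz, e⟩ := exists_unif (res_mem v)
    rw [res_ord] at e
    exact ⟨_, inv_mem (F.algebraMap_mem z), by simpa using hz, by rw [QVal.ord_inv]; linarith,
      by simp⟩
  | insert w T _ ih =>
    obtain ⟨y, y1, y2, y3, y4⟩ := ih fun u hu => h u (Finset.mem_insert_of_mem hu)
    obtain ⟨a, a1, a2, a3, a4⟩ := exists_sep (h w (Finset.mem_insert_self w T))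
    obtain ⟨b, b1, b2, b3, b4⟩ := exists_sep fun e => h w (Finset.mem_insert_self w T) e.symm
    obtain ⟨t, t1, t2, t3, t4⟩ : ∃ t ∈ F, t ≠ 0 ∧ v.1.ord t < 0 ∧ 0 < w.1.ord t :=
      ⟨b / a, div_mem b1 a1, div_ne_zero b2 a2, by rw [QVal.ord_div _ b2 a2]; linarith,
        by rw [QVal.ord_div _ b2 a2]; linarith⟩
    obtain ⟨N, n1, n2⟩ := Apx_large T (fun u => u.1.ord y) (fun u => -u.1.ord t) y4
    have n3 : (0 : ℚ) < N := by exact_mod_cast Nat.pos_of_ne_zero n1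
    have p1 := pow_ne_zero N y2
    by_cases hw : 0 ≤ w.1.ord y
    · refine ⟨y ^ N * t, mul_mem (pow_mem y1 N) t1, mul_ne_zero p1 t2, ?_, fun u hu => ?_⟩
      · rw [v.1.ord_mul p1 t2, QVal.ord_pow]
        nlinarith
      · rw [u.1.ord_mul p1 t2, QVal.ord_pow]
        rcases Finset.mem_insert.1 hu with rfl | hu
        · positivity
        · linarith [n2 u hu]
    · obtain ⟨q1, q2⟩ := Apx_neg y3 n1
      have p2 := div_ne_zero p1 q1
      refine ⟨y ^ N / (1 + y ^ N) * t, mul_mem (div_mem (pow_mem y1 N)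
        (add_mem (one_mem _) (pow_mem y1 N))) t1, mul_ne_zero p2 t2, ?_, fun u hu => ?_⟩
      · rw [v.1.ord_mul p2 t2, QVal.ord_div _ p1 q1, QVal.ord_pow, q2]
        linarith
      · rw [u.1.ord_mul p2 t2, QVal.ord_div _ p1 q1, QVal.ord_pow]
        rcases Finset.mem_insert.1 hu with rfl | hu
        · rw [(Apx_neg (not_le.1 hw) n1).2]
          linarith
        · rw [(Apx_pos (y4 u hu) n1).2]
          linarith [n2 u hu]

/-- Weak approximation. Sketch: `x = ∑ w ∈ T, a w * (y w ^ N / (1 + y w ^ N))`. -/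
theorem approx (F : IntermediateField F₀ Ω) [FiniteDimensional F₀ F] {S : Set (QVal F₀)}
    (hS : S.Finite) (a : B.P → Ω) (ha : ∀ v, a v ∈ F) (hs : ∀ v w, B.Same F v w → a v = a w)
    (m : ℚ) : ∃ x ∈ F, ∀ v, B.res v ∈ S → v.1.Ge (x - a v) m := by
  classical
  obtain ⟨T, -, h2, h3⟩ := exists_reps (B := B) F hS
  have h4 : ∀ w : B.P, ∃ y ∈ F, y ≠ 0 ∧ w.1.ord y < 0 ∧
      (w ∈ T → ∀ u ∈ T, u ≠ w → 0 < u.1.ord y) := by
    intro w
    by_cases hw : w ∈ T
    · obtain ⟨y, y1, y2, y3, y4⟩ := exists_sep_all (F := F) w (T.erase w) fun u hu e =>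
        Finset.ne_of_mem_erase hu (h3 w hw u (Finset.mem_of_mem_erase hu) e).symm
      exact ⟨y, y1, y2, y3, fun _ u hu e => y4 u (Finset.mem_erase.2 ⟨e, hu⟩)⟩
    · obtain ⟨y, y1, y2, y3, -⟩ := exists_sep_all (F := F) w ∅ (by simp)
      exact ⟨y, y1, y2, y3, fun e => absurd e hw⟩
  choose y y1 y2 y3 y4 using h4
  obtain ⟨N, n1, n2⟩ := Apx_large (T ×ˢ T) (fun q => |q.2.1.ord (y q.1)|)
    (fun q => m - q.2.1.ord (a q.1)) fun q hq => by
      obtain ⟨q1, q2⟩ := Finset.mem_product.1 hq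
      by_cases e : q.2 = q.1
      · rw [e]; exact abs_pos.2 (y3 _).ne
      · exact abs_pos.2 (y4 _ q1 _ q2 e).ne'
  have hx : ∑ w ∈ T, a w * (y w ^ N / (1 + y w ^ N)) ∈ F := sum_mem fun w _ =>
    mul_mem (ha w) (div_mem (pow_mem (y1 w) N) (add_mem (one_mem _) (pow_mem (y1 w) N)))
  refine ⟨_, hx, fun v hv => ?_⟩
  obtain ⟨u, hu, e⟩ := h2 v hv
  rw [e.ge (sub_mem hx (ha v)), hs v u e, ← Finset.add_sum_erase T _ hu, add_sub_right_comm]
  refine QVal.Ge.add ?_ (QVal.Ge.sum fun w hw => ?_)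
  · obtain ⟨q1, q2⟩ := Apx_neg (y3 u) n1
    have e1 : a u * (y u ^ N / (1 + y u ^ N)) - a u = -(a u / (1 + y u ^ N)) := by
      field_simp
      ring
    have e2 := n2 (u, u) (Finset.mem_product.2 ⟨hu, hu⟩)
    rw [abs_of_neg (y3 u)] at e2
    rw [e1]
    refine QVal.Ge.neg ((QVal.ge_div_iff q1).2 (.of_le ?_))
    rw [q2]
    linarith
  · have w1 := Finset.mem_of_mem_erase hw
    have w2 := y4 w w1 u hu (Finset.ne_of_mem_erase hw).symm
    obtain ⟨q1, q2⟩ := Apx_pos w2 n1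
    have p1 := pow_ne_zero N (y2 w)
    have e2 := n2 (w, u) (Finset.mem_product.2 ⟨w1, hu⟩)
    rw [abs_of_pos w2] at e2
    refine (QVal.ge_mul_iff (div_ne_zero p1 q1)).2 (.of_le ?_)
    rw [QVal.ord_div _ p1 q1, QVal.ord_pow, q2]
    linarith

lemma Apx_bdd [FiniteDimensional F₀ F] (hD : B.IsDiv F D) {S : Set (QVal F₀)} (hS : S.Finite) :
    ∃ n : ℕ, ∀ v, B.res v ∈ S → D v < n := by
  obtain ⟨T, -, h2, -⟩ := exists_reps (B := B) F hS
  obtain ⟨N, -, h⟩ := Apx_large T (fun _ => 1) D fun _ _ => one_pos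
  refine ⟨N, fun v hv => ?_⟩
  obtain ⟨u, hu, e⟩ := h2 v hv
  simpa [hD.same v u e] using h u hu

lemma Apx_sum (s : Finset (QVal F₀)) (hs : ∀ p ∈ s, p ∈ B.Pl) : ∃ (c : ℕ) (z : F₀), z ≠ 0 ∧
    c • B.H + B.dv (algebraMap F₀ Ω z) = ∑ p ∈ s, B.ov p := by
  classical
  induction s using Finset.induction_on with
  | empty => exact ⟨0, 1, one_ne_zero, by simp⟩
  | insert p s hp ih =>
    obtain ⟨c, z, hz, e⟩ := ih fun q hq => hs q (Finset.mem_insert_of_mem hq)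
    obtain ⟨m, y, hy, e'⟩ := pic' (B := B) (hs p (Finset.mem_insert_self p s))
    refine ⟨m + c, y * z, mul_ne_zero hy hz, ?_⟩
    rw [Finset.sum_insert hp, ← e, ← e', map_mul, dv_mul (by simpa using hy) (by simpa using hz),
      add_nsmul]
    abel

/-- an element with prescribed orders above finitely many places -/
theorem IsDiv.exists_ord [FiniteDimensional F₀ F] (hD : B.IsDiv F D) {S : Set (QVal F₀)}
    (hS : S.Finite) : ∃ x ∈ F, x ≠ 0 ∧ ∀ v, B.res v ∈ S → v.1.ord x = D v := by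
  let P : B.P → Ω → Prop := fun v x => x ∈ F ∧ x ≠ 0 ∧ D v = v.1.ord x
  have h1 : ∀ v, P v (Classical.epsilon (P v)) := fun v => Classical.epsilon_spec (hD.val v)
  obtain ⟨n, hn⟩ := Apx_bdd hD hS
  obtain ⟨x, hx, h2⟩ := approx F hS (fun v => Classical.epsilon (P v)) (fun v => (h1 v).1)
    (fun v w e => by
      have : P v = P w := funext fun x => propext (and_congr_right fun hx => by
        rw [hD.same v w e, e x hx])
      simp only [this]) n
  have h3 : ∀ v, B.res v ∈ S → x ≠ 0 ∧ v.1.ord x = D v := fun v hv => by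
    rw [(h1 v).2.2]
    exact QVal.ord_eq_of_sub (h1 v).2.1 ((h2 v hv).gt ((h1 v).2.2 ▸ hn v hv))
  by_cases h0 : x = 0
  · exact ⟨1, one_mem _, one_ne_zero, fun v hv => absurd h0 (h3 v hv).1⟩
  · exact ⟨x, hx, h0, fun v hv => (h3 v hv).2⟩

/-- Every divisor is bounded by a hypersurface section which avoids the places in `S` where the
divisor is not positive. Sketch: `D ≤ ∑ n p • ov p` over the places `p` of the support with a
positive value (finitely many values by `exists_reps`), and `pic'`. -/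
theorem IsDiv.exists_bound' [FiniteDimensional F₀ F] (hD : B.IsDiv F D) {S : Set (QVal F₀)}
    (h0 : ∀ v, B.res v ∈ S → D v = 0) : ∃ (c : ℕ) (z : F₀), z ≠ 0 ∧
      D ≤ c • B.H + B.dv (algebraMap F₀ Ω z) ∧ 0 ≤ c • B.H + B.dv (algebraMap F₀ Ω z) ∧
      ∀ v, B.res v ∈ S → (c • B.H + B.dv (algebraMap F₀ Ω z)) v = 0 := by
  obtain ⟨S₀, h1, h2⟩ := hD.fin
  obtain ⟨n, hn⟩ := Apx_bdd hD h1
  have h3 : {p | p ∈ S₀ ∧ p ∈ B.Pl ∧ p ∉ S}.Finite := h1.subset fun _ h => h.1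
  obtain ⟨c, z, hz, e⟩ := Apx_sum (B := B) h3.toFinset fun p hp => (h3.mem_toFinset.1 hp).2.1
  have e1 : (n * c) • B.H + B.dv (algebraMap F₀ Ω (z ^ n)) = n • ∑ p ∈ h3.toFinset, B.ov p := by
    rw [← e, map_pow, dv_pow, nsmul_add, mul_nsmul']
  have h4 : 0 ≤ n • ∑ p ∈ h3.toFinset, B.ov p :=
    nsmul_nonneg (Finset.sum_nonneg fun p _ => ov_nonneg p) n
  refine ⟨n * c, z ^ n, pow_ne_zero n hz, ?_, e1 ▸ h4, fun v hv => ?_⟩
  · rw [e1]
    intro v
    by_cases h5 : D v = 0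
    · exact h5.le.trans (h4 v)
    · have h6 : B.ov (B.res v) v ≤ ∑ p ∈ h3.toFinset, B.ov p v :=
        Finset.single_le_sum (f := fun p => B.ov p v) (fun p _ => ov_nonneg p v)
          (h3.mem_toFinset.2 ⟨h2 v h5, res_mem v, fun h => h5 (h0 v h)⟩)
      rw [ov_of_eq rfl] at h6
      rw [Pi.smul_apply, Finset.sum_apply, nsmul_eq_mul]
      have h7 : (0 : ℚ) ≤ n := by positivity
      nlinarith [hn v (h2 v h5)]
  · rw [e1, Pi.smul_apply, Finset.sum_apply, Finset.sum_eq_zero, smul_zero]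
    exact fun p hp => ov_of_ne fun e => (h3.mem_toFinset.1 hp).2.2 (e ▸ hv)

theorem IsDiv.exists_bound [FiniteDimensional F₀ F] (hD : B.IsDiv F D) : ∃ (c : ℕ) (z : F₀),
    z ≠ 0 ∧ D ≤ c • B.H + B.dv (algebraMap F₀ Ω z) ∧ 0 ≤ c • B.H + B.dv (algebraMap F₀ Ω z) := by
  obtain ⟨c, z, h1, h2, h3, -⟩ := hD.exists_bound' (S := ∅) fun _ h => h.elim
  exact ⟨c, z, h1, h2, h3⟩

/-- Cofinality of the multiples of `H`. Sketch: `exists_ord`, then `exists_bound'` for `D - dv x`,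
then add a multiple of a hyperplane outside `S` (`hyp'`). -/
theorem IsDiv.cof [FiniteDimensional F₀ F] (hD : B.IsDiv F D) {S : Set (QVal F₀)}
    (hS : S.Finite) : ∃ m₀ : ℕ, ∀ m, m₀ ≤ m → ∃ x ∈ F, x ≠ 0 ∧ D ≤ m • B.H + B.dv x ∧
      ∀ v, B.res v ∈ S → D v = (m • B.H + B.dv x) v := by
  obtain ⟨x, x1, x2, x3⟩ := hD.exists_ord hS
  obtain ⟨c, z, z1, z2, -, z3⟩ := (hD.sub (isDiv_dv x1)).exists_bound' (S := S) fun v hv => by
    simp [x3 v hv]
  obtain ⟨p, -, hp, y, y1, y2⟩ := hyp' (B := B) hS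
  refine ⟨c, fun m hm => ?_⟩
  obtain ⟨j, rfl⟩ := Nat.exists_eq_add_of_le hm
  have z0 : algebraMap F₀ Ω z ≠ 0 := by simpa using z1
  have y0 : algebraMap F₀ Ω y ^ j ≠ 0 := pow_ne_zero j (by simpa using y1)
  have e : (c + j) • B.H + B.dv (x * algebraMap F₀ Ω z * algebraMap F₀ Ω y ^ j) =
      B.dv x + (c • B.H + B.dv (algebraMap F₀ Ω z)) + j • B.ov p := by
    rw [dv_mul (mul_ne_zero x2 z0) y0, dv_mul x2 z0, dv_pow, ← y2, add_nsmul, nsmul_add]
    abel
  refine ⟨_, mul_mem (mul_mem x1 (F.algebraMap_mem z)) (pow_mem (F.algebraMap_mem y) j),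
    mul_ne_zero (mul_ne_zero x2 z0) y0, ?_, fun v hv => ?_⟩
  · rw [e]
    exact (sub_le_iff_le_add'.1 z2).trans (le_add_of_nonneg_right (nsmul_nonneg (ov_nonneg p) j))
  · have hne : B.res v ≠ p := fun e => hp (e ▸ hv)
    rw [e, Pi.add_apply, Pi.add_apply, z3 v hv, Pi.smul_apply, ov_of_ne hne, dv_apply, x3 v hv]
    simp

end Base

end Pool.Agent.Lib.MP_bc213e_ag.KBV
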