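import Pool.Agent.Lib.MP_bc213e_ag.KBV.Defs

/-!
Banach limits.
-/

namespace Pool.Agent.Lib.MP_bc213e_ag.KBV
open Module Filter Topology

variable {a b : ℕ → ℝ}

theorem Bdd.add (ha : Bdd a) (hb : Bdd b) : Bdd fun n => a n + b n := by
  obtain ⟨C, hC⟩ := ha
  obtain ⟨C', hC'⟩ := hb
  exact ⟨C + C', fun n => (abs_add_le _ _).trans (add_le_add (hC n) (hC' n))⟩

theorem Bdd.mul (ha : Bdd a) (hb : Bdd b) : Bdd fun n => a n * b n := by
  obtain ⟨C, hC⟩ := ha
  obtain ⟨C', hC'⟩ := hb
  exact ⟨C * C', fun n => by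
    rw [abs_mul]
    exact mul_le_mul (hC n) (hC' n) (abs_nonneg _) ((abs_nonneg _).trans (hC n))⟩

theorem bdd_const (c : ℝ) : Bdd fun _ => c := ⟨|c|, fun _ => le_rfl⟩

theorem Bdd.sub (ha : Bdd a) (hb : Bdd b) : Bdd fun n => a n - b n := by
  simpa [sub_eq_add_neg] using ha.add ((bdd_const (-1)).mul hb)

theorem Bdd.sum {ι : Type*} {s : Finset ι} {a : ι → ℕ → ℝ} (h : ∀ i ∈ s, Bdd (a i)) :
    Bdd fun n => ∑ i ∈ s, a i n := by
  classical
  induction s using Finset.induction_on with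
  | empty => simpa using bdd_const 0
  | insert i s hi ih =>
    simp only [Finset.sum_insert hi]
    exact (h i (by simp)).add (ih fun j hj => h j (by simp [hj]))

theorem Bdd.of_tendsto {x : ℝ} (h : Tendsto a atTop (𝓝 x)) : Bdd a := by
  obtain ⟨C, hC⟩ := h.abs.bddAbove_range
  exact ⟨C, fun n => hC ⟨n, rfl⟩⟩

theorem Bdd.shift (ha : Bdd a) (r : ℕ) : Bdd fun n => a (n + r) :=
  ha.imp fun _ h n => h (n + r)

theorem hyper_le : (hyperfilter ℕ : Filter ℕ) ≤ atTop := by
  rw [← Nat.cofinite_eq_atTop]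
  exact hyperfilter_le_cofinite

theorem Bdd.tendsto_BL (ha : Bdd a) :
    Tendsto (fun n => (∑ i ∈ Finset.range n, a i) / n) (hyperfilter ℕ : Filter ℕ) (𝓝 (BL a)) := by
  obtain ⟨C, hC⟩ := ha
  have hC0 : 0 ≤ C := (abs_nonneg _).trans (hC 0)
  refine tendsto_nhds_limUnder ?_
  obtain ⟨x, -, hx⟩ := (isCompact_Icc (a := -C) (b := C)).ultrafilter_le_nhds
    ((hyperfilter ℕ).map fun n : ℕ => (∑ i ∈ Finset.range n, a i) / n) (by
      rw [Ultrafilter.coe_map, le_principal_iff, mem_map]
      refine Eventually.of_forall fun n => abs_le.mp ?_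
      rw [abs_div, Nat.abs_cast]
      refine div_le_of_le_mul₀ (by positivity) hC0 ((Finset.abs_sum_le_sum_abs _ _).trans ?_)
      simpa [mul_comm] using Finset.sum_le_card_nsmul (Finset.range n) _ C fun i _ => hC i)
  exact ⟨x, hx⟩

theorem BL_of_tendsto {x : ℝ} (h : Tendsto a atTop (𝓝 x)) : BL a = x := by
  refine Tendsto.limUnder_eq (Tendsto.mono_left ?_ hyper_le)
  simpa [div_eq_inv_mul] using h.cesaro

theorem BL_const (c : ℝ) : (BL fun _ => c) = c := BL_of_tendsto tendsto_const_nhds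

theorem BL_add (ha : Bdd a) (hb : Bdd b) : (BL fun n => a n + b n) = BL a + BL b := by
  refine Tendsto.limUnder_eq ?_
  simpa only [Finset.sum_add_distrib, add_div] using ha.tendsto_BL.add hb.tendsto_BL

theorem BL_mul (c : ℝ) (ha : Bdd a) : (BL fun n => c * a n) = c * BL a := by
  refine Tendsto.limUnder_eq ?_
  simpa only [← Finset.mul_sum, mul_div_assoc] using ha.tendsto_BL.const_mul c

theorem BL_sub (ha : Bdd a) (hb : Bdd b) : (BL fun n => a n - b n) = BL a - BL b := by
  refine Tendsto.limUnder_eq ?_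
  simpa only [Finset.sum_sub_distrib, sub_div] using ha.tendsto_BL.sub hb.tendsto_BL

theorem BL_sum {ι : Type*} {s : Finset ι} {a : ι → ℕ → ℝ} (h : ∀ i ∈ s, Bdd (a i)) :
    (BL fun n => ∑ i ∈ s, a i n) = ∑ i ∈ s, BL (a i) := by
  classical
  induction s using Finset.induction_on with
  | empty => simpa using BL_const 0
  | insert i s hi ih =>
    simp only [Finset.sum_insert hi]
    rw [BL_add (h i (by simp)) (Bdd.sum fun j hj => h j (by simp [hj])),
      ih fun j hj => h j (by simp [hj])]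

theorem BL_mono' (ha : Bdd a) (hb : Bdd b) (h : ∀ n, a n ≤ b n) : BL a ≤ BL b :=
  le_of_tendsto_of_tendsto' ha.tendsto_BL hb.tendsto_BL fun n =>
    div_le_div_of_nonneg_right (Finset.sum_le_sum fun i _ => h i) (by positivity)

/-- sequences whose difference tends to zero have the same Banach limit -/
theorem BL_congr (ha : Bdd a) (h : Tendsto (fun n => b n - a n) atTop (𝓝 0)) : BL b = BL a := by
  have := BL_add ha (Bdd.of_tendsto h)
  rw [BL_of_tendsto h, add_zero] at this
  simpa using this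

theorem BL_mono (ha : Bdd a) (hb : Bdd b) (h : ∀ᶠ n in atTop, a n ≤ b n) : BL a ≤ BL b := by
  have h1 : Tendsto (fun n => max (a n) (b n) - b n) atTop (𝓝 0) :=
    tendsto_const_nhds.congr' (h.mono fun n hn => by simp [hn])
  rw [← BL_congr hb h1]
  refine BL_mono' ha ?_ fun n => le_max_left _ _
  simpa using hb.add (Bdd.of_tendsto h1)

theorem BL_nonneg (ha : Bdd a) (h : ∀ᶠ n in atTop, 0 ≤ a n) : 0 ≤ BL a := by
  simpa [BL_const] using BL_mono (bdd_const 0) ha h

theorem BL_succ (ha : Bdd a) : (BL fun n => a (n + 1)) = BL a := by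
  refine Tendsto.limUnder_eq ?_
  obtain ⟨C, hC⟩ := ha.shift 0 |>.sub (bdd_const (a 0))
  have h1 : Tendsto (fun n : ℕ => (a n - a 0) / n) atTop (𝓝 0) := by
    refine squeeze_zero_norm (fun n => ?_) (tendsto_const_div_atTop_nhds_zero_nat C)
    rw [Real.norm_eq_abs, abs_div, Nat.abs_cast]
    exact div_le_div_of_nonneg_right (hC n) (by positivity)
  have h2 := ha.tendsto_BL.add (h1.mono_left hyper_le)
  rw [add_zero] at h2
  refine h2.congr fun n => ?_
  rw [← add_div]
  congr 1
  have := Finset.sum_range_succ' a n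
  rw [Finset.sum_range_succ] at this
  linarith

theorem BL_shift (ha : Bdd a) (r : ℕ) : (BL fun n => a (n + r)) = BL a := by
  induction r with
  | zero => rfl
  | succ r ih =>
    rw [← ih, ← BL_succ (ha.shift r)]
    simp only [add_assoc, add_comm 1 r]

/-- a bounded sequence times a convergent sequence -/
theorem BL_mul_tendsto {x : ℝ} (ha : Bdd a) (h : Tendsto b atTop (𝓝 x)) :
    (BL fun n => b n * a n) = x * BL a := by
  rw [← BL_mul x ha]
  refine BL_congr ((bdd_const x).mul ha) ?_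
  obtain ⟨C, hC⟩ := ha
  have h1 : Tendsto (fun n => |b n - x| * C) atTop (𝓝 0) := by
    simpa using (tendsto_sub_nhds_zero_iff.mpr h).abs.mul_const C
  refine squeeze_zero_norm (fun n => ?_) h1
  rw [← sub_mul, Real.norm_eq_abs, abs_mul]
  exact mul_le_mul_of_nonneg_left (hC n) (abs_nonneg _)

theorem frequently_of_lt_BL {x : ℝ} (ha : Bdd a) (h : x < BL a) : ∃ᶠ n in atTop, x < a n := by
  by_contra hc
  simp only [not_frequently, not_lt] at hc
  have := BL_mono ha (bdd_const x) hc
  rw [BL_const] at this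
  exact absurd h (not_lt.mpr this)

end Pool.Agent.Lib.MP_bc213e_ag.KBV
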