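import Pool.Agent.Lib.MP_bc213e_ag.KBV.Fd

/-!
Euler characteristic.
-/

set_option linter.unusedSectionVars false

namespace Pool.Agent.Lib.MP_bc213e_ag.KBV
open Module Filter Topology

variable {k F₀ Ω : Type} [Field k] [Field F₀] [Field Ω] [Algebra k F₀] [Algebra F₀ Ω]
  [Algebra k Ω] [IsScalarTower k F₀ Ω] [IsAlgClosure F₀ Ω] [CharZero k] [CharZero F₀] [CharZero Ω]

namespace VC
variable {V : VC k F₀ Ω} {F F' : IntermediateField F₀ Ω} {D D' E : V.Dv} {x : Ω}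

theorem Chi_nonpos {a C : ℝ} (h : ∀ n : ℕ, n * a ≤ C) : a ≤ 0 := by
  by_contra! h0
  obtain ⟨n, hn⟩ := exists_nat_gt (C / a)
  exact absurd (h n) (not_le.mpr ((div_lt_iff₀ h0).mp hn))

theorem Chi_H (hD : V.IsDiv F D) (m : ℕ) : V.IsDiv F (D + m • V.H) :=
  hD.add ((Base.isDiv_H F).nsmul m)

theorem Ok.Chi_incr (hF : V.Ok F) (hD : V.IsDiv F D) (hD' : V.IsDiv F D') (hE : V.IsDiv F E)
    (h0 : 0 ≤ E) : ∀ᶠ m : ℕ in atTop,
      V.f F (D + E) - V.f F D ≤ V.f F (D' + m • V.H + E) - V.f F (D' + m • V.H) := by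
  have := hF.fin
  obtain ⟨S, hS, h1⟩ := hE.fin
  obtain ⟨m₀, h2⟩ := (hD.sub hD').cof hS
  filter_upwards [eventually_ge_atTop m₀] with m hm
  obtain ⟨x, hx, hx0, h3, h4⟩ := h2 m hm
  have h5 := hF.f_incr hD ((Chi_H hD' m).add (Base.isDiv_dv hx)) hE h0
    (by rw [add_assoc]; exact sub_le_iff_le_add'.mp h3) fun v hv => by
      have := h4 v (h1 v hv)
      simp only [Pi.add_apply, Pi.sub_apply] at this ⊢
      linarith
  rwa [add_right_comm _ (V.dv x), hF.f_dv ((Chi_H hD' m).add hE) hx hx0,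
    hF.f_dv (Chi_H hD' m) hx hx0] at h5

/-- `IsDiv.cof` with `S` the support of `E`, `f_incr`, `f_dv` -/
theorem Ok.f_incr_le (hF : V.Ok F) (hD : V.IsDiv F D) (hE : V.IsDiv F E) (h0 : 0 ≤ E) :
    ∀ᶠ m : ℕ in atTop, V.f F (D + E) - V.f F D ≤ V.f F (m • V.H + E) - V.f F (m • V.H) := by
  simpa only [zero_add] using hF.Chi_incr hD .zero hE h0

/-- `f_incr_le` for `E = H` and `Ok.lin`: increments bigger than `δ` would violate the bound -/
theorem Ok.f_step (hF : V.Ok F) (hD : V.IsDiv F D) : V.f F (D + V.H) ≤ V.f F D + V.δ := by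
  obtain ⟨m₀, h⟩ := eventually_atTop.mp (hF.f_incr_le hD (Base.isDiv_H F) Base.H_nonneg)
  obtain ⟨C, hC⟩ := hF.lin
  have h1 : ∀ n : ℕ, n * (V.f F (D + V.H) - V.f F D) ≤
      V.f F ((m₀ + n) • V.H) - V.f F (m₀ • V.H) := fun n => by
    induction n with
    | zero => simp
    | succ n ih =>
      have := h (m₀ + n) (Nat.le_add_right _ _)
      rw [← add_assoc, succ_nsmul]
      push_cast
      linarith
  have h2 := Chi_nonpos (a := V.f F (D + V.H) - V.f F D - V.δ) (C := 2 * C) fun n => by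
    have h3 := (abs_le.mp (hC (m₀ + n))).2
    have h4 := (abs_le.mp (hC m₀)).1
    have h5 := h1 n
    push_cast at h3
    linarith
  linarith

theorem δ_nonneg (V : VC k F₀ Ω) : 0 ≤ V.δ := by
  have h1 := V.ok_K.f_step (D := 0) .zero
  have h2 := V.ok_K.f_mono (D := 0) (Base.IsDiv.zero.add (Base.isDiv_H V.K))
    (by simpa using Base.H_nonneg)
  linarith

theorem Ok.Chi_anti (hF : V.Ok F) (hD : V.IsDiv F D) :
    Antitone fun m : ℕ => V.f F (D + m • V.H) - m * V.δ :=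
  antitone_nat_of_succ_le fun m => by
    have := hF.f_step (Chi_H hD m)
    rw [succ_nsmul, ← add_assoc]
    push_cast
    linarith

theorem Ok.Chi_bdd (hF : V.Ok F) (hD : V.IsDiv F D) :
    BddBelow (Set.range fun m : ℕ => V.f F (D + m • V.H) - m * V.δ) := by
  have := hF.fin
  obtain ⟨c, z, hz, h1, -⟩ := hD.neg.exists_bound
  obtain ⟨C, hC⟩ := hF.lin
  refine ⟨-C - c * V.δ, Set.forall_mem_range.mpr fun m => ?_⟩
  refine le_trans ?_ (hF.Chi_anti hD (Nat.le_add_right m c))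
  have h2 := hF.f_mono (D := m • V.H) ((Chi_H hD (m + c)).add (Base.isDiv_dv (F.algebraMap_mem z)))
    fun v => by
      have := h1 v
      simp only [add_nsmul, Pi.add_apply, Pi.neg_apply] at this ⊢
      linarith
  rw [hF.f_dv (Chi_H hD _) (F.algebraMap_mem z) (by simpa using hz)] at h2
  have h3 := (abs_le.mp (hC m)).1
  push_cast
  linarith

/-- antitone by `f_step`, bounded below by `exists_bound` for `-D` and `Ok.lin` -/
theorem Ok.tendsto_chi (hF : V.Ok F) (hD : V.IsDiv F D) :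
    Tendsto (fun m : ℕ => V.f F (D + m • V.H) - m * V.δ) atTop (𝓝 (V.chi F D)) :=
  tendsto_atTop_ciInf (hF.Chi_anti hD) (hF.Chi_bdd hD)

/-- Riemann's inequality -/
theorem Ok.chi_le (hF : V.Ok F) (hD : V.IsDiv F D) : V.chi F D ≤ V.f F D :=
  (ciInf_le (hF.Chi_bdd hD) 0).trans_eq (by simp)

theorem Ok.chi_mono (hF : V.Ok F) (hD : V.IsDiv F D) (hD' : V.IsDiv F D') (h : D ≤ D') :
    V.chi F D ≤ V.chi F D' :=
  le_of_tendsto_of_tendsto' (hF.tendsto_chi hD) (hF.tendsto_chi hD') fun m =>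
    sub_le_sub_right (hF.f_mono (Chi_H hD' m) (add_le_add_left h _)) _

theorem Ok.chi_dv (hF : V.Ok F) (hD : V.IsDiv F D) (hx : x ∈ F) (h0 : x ≠ 0) :
    V.chi F (D + V.dv x) = V.chi F D :=
  iInf_congr fun m => by rw [add_right_comm, hF.f_dv (Chi_H hD m) hx h0]

theorem Ok.chi_L (hF : V.Ok F) (hD : V.IsDiv F D) (a : ℤ) :
    V.chi F (D + a • V.L) = V.chi F D :=
  iInf_congr fun m => by rw [add_right_comm, hF.f_L (Chi_H hD m)]

theorem Ok.chi_H (hF : V.Ok F) (hD : V.IsDiv F D) (m : ℕ) :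
    V.chi F (D + m • V.H) = V.chi F D + m * V.δ := by
  refine tendsto_nhds_unique (hF.tendsto_chi (Chi_H hD m))
    ((((hF.tendsto_chi hD).comp (tendsto_add_atTop_nat m)).add_const _).congr fun n => ?_)
  rw [Function.comp_apply, add_comm n m, add_nsmul, ← add_assoc]
  push_cast
  ring

theorem Ok.Chi_lim (hF : V.Ok F) (hD : V.IsDiv F D) (hE : V.IsDiv F E) :
    Tendsto (fun m : ℕ => V.f F (D + m • V.H + E) - V.f F (D + m • V.H)) atTop
      (𝓝 (V.chi F (D + E) - V.chi F D)) :=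
  ((hF.tendsto_chi (hD.add hE)).sub (hF.tendsto_chi hD)).congr fun m => by
    rw [add_right_comm, sub_sub_sub_cancel_right]

theorem Ok.Chi_add_le (hF : V.Ok F) (hD : V.IsDiv F D) (hD' : V.IsDiv F D') (hE : V.IsDiv F E)
    (h0 : 0 ≤ E) : V.f F (D + E) - V.f F D ≤ V.chi F (D' + E) - V.chi F D' :=
  ge_of_tendsto (hF.Chi_lim hD' hE) (hF.Chi_incr hD hD' hE h0)

theorem Ok.Chi_add_eq (hF : V.Ok F) (hD : V.IsDiv F D) (hD' : V.IsDiv F D') (hE : V.IsDiv F E)
    (h0 : 0 ≤ E) : V.chi F (D + E) - V.chi F D = V.chi F (D' + E) - V.chi F D' :=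
  le_antisymm
    (le_of_tendsto' (hF.Chi_lim hD hE) fun m => hF.Chi_add_le (Chi_H hD m) hD' hE h0)
    (le_of_tendsto' (hF.Chi_lim hD' hE) fun m => hF.Chi_add_le (Chi_H hD' m) hD hE h0)

theorem Ok.f_add_le' (hF : V.Ok F) (hD : V.IsDiv F D) (hE : V.IsDiv F E) (h0 : 0 ≤ E) :
    V.f F (D + E) - V.f F D ≤ V.chi F E - V.chi F 0 := by
  simpa only [zero_add] using hF.Chi_add_le hD .zero hE h0

/-- Additivity. Sketch: first `0 ≤ E`. `≤` from `f_add_le'` for `D + m H`. For `≥` apply `cof` to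
`m' H - D` and `f_incr`: `f (m' H + E) - f (m' H) ≤ f (D + m H + E) - f (D + m H)` for large `m`.
In general write `E = E⁺ - E⁻`. -/
theorem Ok.chi_add' (hF : V.Ok F) (hD : V.IsDiv F D) (hE : V.IsDiv F E) :
    V.chi F (D + E) = V.chi F D + (V.chi F E - V.chi F 0) := by
  have h1 := hF.Chi_add_eq hD .zero hE.posPart (posPart_nonneg E)
  have h2 := hF.Chi_add_eq (hD.add hE) hE hE.negPart (negPart_nonneg E)
  have h3 : E + E⁻ = E⁺ := (sub_eq_iff_eq_add.mp (posPart_sub_negPart E)).symm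
  rw [add_assoc, h3] at h2
  rw [zero_add] at h1
  linarith

theorem Ok.Chi_nsmul (hF : V.Ok F) (hD : V.IsDiv F D) (n : ℕ) :
    V.chi F (n • D) = V.chi F 0 + n * (V.chi F D - V.chi F 0) := by
  induction n with
  | zero => simp
  | succ n ih =>
    rw [succ_nsmul, hF.chi_add' (hD.nsmul n) hD, ih]
    push_cast
    ring

/-- Sketch: by `sandwich` the two additive functions differ by at most `2 c δ`; apply to `n • D`. -/
theorem Ok.chi_field (hF : V.Ok F) (hF' : V.Ok F') (h : F ≤ F') (hD : V.IsDiv F D) :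
    V.chi F' D - V.chi F' 0 = V.chi F D - V.chi F 0 := by
  obtain ⟨c, hc⟩ := hF.sandwich hF' h
  have h1 : ∀ D, V.IsDiv F D → |V.chi F' D - V.chi F D| ≤ c * V.δ := fun D hD => by
    have hD' := hD.sub ((Base.isDiv_H F).nsmul c)
    have h2 := le_of_tendsto_of_tendsto' (hF.tendsto_chi hD') (hF'.tendsto_chi (hD.mono h))
      fun m => sub_le_sub_right (by
        rw [sub_add_eq_add_sub]
        exact (hc _ (Chi_H hD m)).1) _
    have h3 := le_of_tendsto_of_tendsto' (hF'.tendsto_chi (hD.mono h))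
      (hF.tendsto_chi (Chi_H hD c)) fun m => sub_le_sub_right (by
        rw [add_right_comm]
        exact (hc _ (Chi_H hD m)).2) _
    have h4 := hF.chi_H hD' c
    rw [sub_add_cancel] at h4
    rw [hF.chi_H hD] at h3
    exact abs_le.mpr ⟨by linarith, by linarith⟩
  have h2 := fun n : ℕ => abs_le.mp (h1 _ (hD.nsmul n))
  have h3 := abs_le.mp (h1 _ .zero)
  simp only [hF.Chi_nsmul hD, hF'.Chi_nsmul (hD.mono h)] at h2
  have h4 := Chi_nonpos (a := V.chi F' D - V.chi F' 0 - (V.chi F D - V.chi F 0))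
    (C := 2 * (c * V.δ)) fun n => by linarith [(h2 n).2]
  have h5 := Chi_nonpos (a := V.chi F D - V.chi F 0 - (V.chi F' D - V.chi F' 0))
    (C := 2 * (c * V.δ)) fun n => by linarith [(h2 n).1]
  linarith

theorem Ok.chi_act (hF : V.Ok F) {σ : Ω ≃ₐ[F₀] Ω} (hσ : ∀ x ∈ V.K, σ x = x) (D : V.Dv) :
    V.chi (F.map (σ : Ω →ₐ[F₀] Ω)) (D ∘ Base.act σ) = V.chi F D :=
  iInf_congr fun m => by
    have h : (D + m • V.H) ∘ Base.act σ = D ∘ Base.act σ + (m • V.H) ∘ Base.act σ := rfl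
    rw [← hF.f_act hσ (D + m • V.H), h, ((Base.isDiv_H V.K).nsmul m).comp_act_eq hσ]

end VC

end Pool.Agent.Lib.MP_bc213e_ag.KBV
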