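import Pool.Agent.Lib.MP_bc213e_ag.KBV.FB

/-!
Euler characteristic and degree of bundles.
-/

set_option linter.unusedSectionVars false

namespace Pool.Agent.Lib.MP_bc213e_ag.KBV
open Module Filter Topology

variable {k F₀ Ω : Type} [Field k] [Field F₀] [Field Ω] [Algebra k F₀] [Algebra F₀ Ω]
  [Algebra k Ω] [IsScalarTower k F₀ Ω] [IsAlgClosure F₀ Ω] [CharZero k] [CharZero F₀] [CharZero Ω]

namespace VC
variable {V : VC k F₀ Ω} {F F' : IntermediateField F₀ Ω} {I : Type} [Fintype I]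
  {D D' : I → V.Dv} {W : Submodule Ω (I → Ω)} {s : I → Ω} {x : Ω} {G : V.Dv}

/-- induction along a flag of rational vectors (`Rat.exists`, `finrank_kos`, `Bun.quot`) -/
theorem Bun.induction {p : ∀ (I : Type) [Fintype I], (I → V.Dv) → Submodule Ω (I → Ω) → Prop}
    (h0 : ∀ (I : Type) [Fintype I] (D : I → V.Dv), p I D ⊥)
    (h1 : ∀ (I : Type) [Fintype I] (D : I → V.Dv) (W : Submodule Ω (I → Ω)) (s : I → Ω),
      V.Bun F D W → s ∈ W → s ≠ 0 → (∀ i, s i ∈ F) → p (I × I) (V.qD D s) (W.map (kos s)) → p I D W)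
    (h : V.Bun F D W) : p I D W := by
  generalize hr : finrank Ω W = r
  induction r generalizing I with
  | zero => exact Submodule.finrank_eq_zero.mp hr ▸ h0 I D
  | succ r ih =>
    obtain ⟨s, hs, hs0, hF⟩ := h.rat.exists (by rintro rfl; simp at hr)
    exact h1 I D W s h hs hs0 hF (ih (h.quot hF) (by have := finrank_kos hs hs0; omega))

theorem chiB_bot (F : IntermediateField F₀ Ω) (D : I → V.Dv) : V.chiB F D ⊥ = 0 := by
  simp only [chiB, fB_bot, finrank_bot, Nat.cast_zero, zero_mul, sub_zero]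
  exact tendsto_const_nhds.limUnder_eq

theorem sigB_bot (F : IntermediateField F₀ Ω) (D : I → V.Dv) : V.sigB F D ⊥ = 0 := by
  simp [sigB, fB_bot, chiB_bot]

theorem degB_bot (F : IntermediateField F₀ Ω) (D : I → V.Dv) : V.degB F D ⊥ = 0 := by
  simp [degB, chiB_bot]

/-- squeeze between `fB_ge` and `fB_le` for `D + m H` (`nrm_add`, `qD_add`, `chi_H`, `tendsto_chi`) -/
theorem Bun.tendsto_step (h : V.Bun F D W) (hs : s ∈ W) (h0 : s ≠ 0) (hF : ∀ i, s i ∈ F) {c : ℝ}
    (hc : Tendsto (fun m : ℕ => V.fB F (fun p => V.qD D s p + m • V.H) (W.map (kos s)) -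
      finrank Ω (W.map (kos s)) * (m * V.δ)) atTop (𝓝 c)) :
    Tendsto (fun m : ℕ => V.fB F (fun i => D i + m • V.H) W - finrank Ω W * (m * V.δ)) atTop
      (𝓝 (V.chi F (V.nrm D s) + c)) := by
  have hn := Base.isDiv_nrm h.div hF
  have hr : (finrank Ω W : ℝ) = finrank Ω (W.map (kos s)) + 1 := by
    exact_mod_cast (finrank_kos hs h0).symm
  refine tendsto_of_tendsto_of_tendsto_of_le_of_le (hc.const_add _)
    ((h.ok.tendsto_chi hn).add hc) (fun m => ?_) fun m => ?_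
  · have h1 := (h.tw ((Base.isDiv_H F).nsmul m)).fB_ge hs h0 hF
    rw [Base.nrm_add h0, Base.qD_add h0, h.ok.chi_H hn] at h1
    simp only [hr]
    linarith
  · have h1 := (h.tw ((Base.isDiv_H F).nsmul m)).fB_le hs h0 hF
    rw [Base.nrm_add h0, Base.qD_add h0] at h1
    simp only [hr]
    linarith

theorem Bun.tendsto_chiB (h : V.Bun F D W) :
    Tendsto (fun m : ℕ => V.fB F (fun i => D i + m • V.H) W - finrank Ω W * (m * V.δ)) atTop
      (𝓝 (V.chiB F D W)) := by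
  refine tendsto_nhds_limUnder (h.induction (p := fun I _ D W => ∃ c : ℝ,
    Tendsto (fun m : ℕ => V.fB F (fun i => D i + m • V.H) W - finrank Ω W * (m * V.δ)) atTop (𝓝 c))
    (fun I _ D => ⟨0, ?_⟩) fun I _ D W s h hs h0 hF ⟨c, hc⟩ => ⟨_, h.tendsto_step hs h0 hF hc⟩)
  simp only [fB_bot, finrank_bot, Nat.cast_zero, zero_mul, sub_zero]
  exact tendsto_const_nhds

theorem Bun.chiB_add (h : V.Bun F D W) (hs : s ∈ W) (h0 : s ≠ 0) (hF : ∀ i, s i ∈ F) :
    V.chiB F D W = V.chi F (V.nrm D s) + V.chiB F (V.qD D s) (W.map (kos s)) :=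
  tendsto_nhds_unique h.tendsto_chiB (h.tendsto_step hs h0 hF (h.quot hF).tendsto_chiB)

/-- Riemann's inequality -/
theorem Bun.chiB_le (h : V.Bun F D W) : V.chiB F D W ≤ V.fB F D W := by
  refine h.induction (p := fun I _ D W => V.chiB F D W ≤ V.fB F D W)
    (fun I _ D => by rw [chiB_bot, fB_bot]) fun I _ D W s h hs h0 hF ih => ?_
  have := h.fB_ge hs h0 hF
  rw [h.chiB_add hs h0 hF]
  linarith

theorem Bun.chiB_tw (h : V.Bun F D W) (hG : V.IsDiv F G) :
    V.chiB F (fun i => D i + G) W = V.chiB F D W + finrank Ω W * V.deg G := by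
  refine h.induction (p := fun I _ D W =>
    V.chiB F (fun i => D i + G) W = V.chiB F D W + finrank Ω W * V.deg G)
    (fun I _ D => by simp [chiB_bot]) fun I _ D W s h hs h0 hF ih => ?_
  have hr : (finrank Ω W : ℝ) = finrank Ω (W.map (kos s)) + 1 := by
    exact_mod_cast (finrank_kos hs h0).symm
  rw [(h.tw hG).chiB_add hs h0 hF, h.chiB_add hs h0 hF, Base.nrm_add h0, Base.qD_add h0, ih,
    h.ok.chi_add (Base.isDiv_nrm h.div hF) hG, hr]
  ring

theorem Bun.chiB_top (h : V.Bun F D ⊤) : V.chiB F D ⊤ = ∑ i, V.chi F (D i) := by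
  refine tendsto_nhds_unique h.tendsto_chiB
    ((tendsto_finsetSum _ fun i _ => h.ok.tendsto_chi (h.div i)).congr fun m => ?_)
  rw [(h.tw ((Base.isDiv_H F).nsmul m)).fB_top, Finset.sum_sub_distrib]
  simp

theorem Bun.degB_add (h : V.Bun F D W) (hs : s ∈ W) (h0 : s ≠ 0) (hF : ∀ i, s i ∈ F) :
    V.degB F D W = V.deg (V.nrm D s) + V.degB F (V.qD D s) (W.map (kos s)) := by
  have hr : (finrank Ω W : ℝ) = finrank Ω (W.map (kos s)) + 1 := by
    exact_mod_cast (finrank_kos hs h0).symm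
  rw [degB, degB, h.chiB_add hs h0 hF, h.ok.deg_eq (Base.isDiv_nrm h.div hF), hr]
  ring

theorem Bun.degB_field (h : V.Bun F D W) (hle : F ≤ F') (hF' : V.Ok F') :
    V.degB F' D W = V.degB F D W := by
  refine h.induction (p := fun I _ D W => V.degB F' D W = V.degB F D W)
    (fun I _ D => by rw [degB_bot, degB_bot]) fun I _ D W s h hs h0 hF ih => ?_
  rw [h.degB_add hs h0 hF, (h.mono hle hF').degB_add hs h0 fun i => hle (hF i), ih]

theorem Bun.sigB_nonneg (h : V.Bun F D W) : 0 ≤ V.sigB F D W := sub_nonneg.mpr h.chiB_le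

theorem Bun.sigB_le (h : V.Bun F D W) (hs : s ∈ W) (h0 : s ≠ 0) (hF : ∀ i, s i ∈ F) :
    V.sigB F D W ≤ V.sig F (V.nrm D s) + V.sigB F (V.qD D s) (W.map (kos s)) := by
  have := h.fB_le hs h0 hF
  rw [sigB, sigB, sig, h.chiB_add hs h0 hF]
  linarith

theorem Bun.sigB_top (h : V.Bun F D ⊤) : V.sigB F D ⊤ = ∑ i, V.sig F (D i) := by
  simp only [sigB, sig, h.fB_top, h.chiB_top, Finset.sum_sub_distrib]

theorem Bun.sigB_dv (h : V.Bun F D W) (hx : x ∈ F) (h0 : x ≠ 0) :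
    V.sigB F (fun i => D i + V.dv x) W = V.sigB F D W := by
  simp [sigB, h.fB_dv hx h0, h.chiB_tw (Base.isDiv_dv hx)]

theorem Bun.sigB_tendsto (h : V.Bun F D W) :
    Tendsto (fun m : ℕ => V.sigB F (fun i => D i + m • V.H) W) atTop (𝓝 0) := by
  have := h.tendsto_chiB.sub_const (V.chiB F D W)
  rw [sub_self] at this
  refine this.congr fun m => ?_
  rw [sigB, h.chiB_tw ((Base.isDiv_H F).nsmul m), h.ok.deg_nsmul (Base.isDiv_H F), deg_H]
  ring

end VC

end Pool.Agent.Lib.MP_bc213e_ag.KBV
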