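import Pool.Agent.Lib.MP_bc213e_ag.KBV.Chi

/-!
Degree and first cohomology.
-/

set_option linter.unusedSectionVars false

namespace Pool.Agent.Lib.MP_bc213e_ag.KBV
open Module Filter Topology

variable {k F₀ Ω : Type} [Field k] [Field F₀] [Field Ω] [Algebra k F₀] [Algebra F₀ Ω]
  [Algebra k Ω] [IsScalarTower k F₀ Ω] [IsAlgClosure F₀ Ω] [CharZero k] [CharZero F₀] [CharZero Ω]

namespace VC
variable {V : VC k F₀ Ω} {F F' : IntermediateField F₀ Ω} {D D' E A A' : V.Dv} {x : Ω}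

theorem Ok.deg_eq (hF : V.Ok F) (hD : V.IsDiv F D) : V.deg D = V.chi F D - V.chi F 0 := by
  have h : ∃ F, V.Ok F ∧ V.IsDiv F D := ⟨F, hF, hD⟩
  rw [deg, dif_pos h, ← h.choose_spec.1.chi_field (h.choose_spec.1.sup hF) le_sup_left
    h.choose_spec.2, hF.chi_field (h.choose_spec.1.sup hF) le_sup_right hD]

theorem Ok.chi_add (hF : V.Ok F) (hD : V.IsDiv F D) (hE : V.IsDiv F E) :
    V.chi F (D + E) = V.chi F D + V.deg E := by rw [hF.chi_add' hD hE, hF.deg_eq hE]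

theorem Ok.chi_eq (hF : V.Ok F) (hD : V.IsDiv F D) : V.chi F D = V.chi F 0 + V.deg D := by
  rw [hF.deg_eq hD]
  ring

theorem Ok.f_add_le (hF : V.Ok F) (hD : V.IsDiv F D) (hE : V.IsDiv F E) (h0 : 0 ≤ E) :
    V.f F (D + E) - V.f F D ≤ V.deg E := by
  rw [hF.deg_eq hE]
  exact hF.f_add_le' hD hE h0

theorem Ok.deg_add (hF : V.Ok F) (hD : V.IsDiv F D) (hE : V.IsDiv F E) :
    V.deg (D + E) = V.deg D + V.deg E := by
  rw [hF.deg_eq (hD.add hE), hF.chi_add hD hE, hF.deg_eq hD]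
  ring

@[simp] theorem deg_zero : V.deg 0 = 0 := by rw [V.ok_K.deg_eq .zero, sub_self]

theorem Ok.deg_neg (hF : V.Ok F) (hD : V.IsDiv F D) : V.deg (-D) = -V.deg D := by
  have := hF.deg_add hD hD.neg
  rw [add_neg_cancel, deg_zero] at this
  linarith

theorem Ok.deg_sub (hF : V.Ok F) (hD : V.IsDiv F D) (hE : V.IsDiv F E) :
    V.deg (D - E) = V.deg D - V.deg E := by
  rw [sub_eq_add_neg, hF.deg_add hD hE.neg, hF.deg_neg hE, sub_eq_add_neg]

theorem Ok.deg_sum (hF : V.Ok F) {ι : Type*} {s : Finset ι} {D : ι → V.Dv}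
    (h : ∀ i ∈ s, V.IsDiv F (D i)) : V.deg (∑ i ∈ s, D i) = ∑ i ∈ s, V.deg (D i) := by
  classical
  induction s using Finset.induction_on with
  | empty => simp
  | insert i s hi ih =>
    rw [Finset.sum_insert hi, Finset.sum_insert hi, hF.deg_add (h i (by simp))
      (.sum fun j hj => h j (by simp [hj])), ih fun j hj => h j (by simp [hj])]

theorem Ok.deg_nsmul (hF : V.Ok F) (hD : V.IsDiv F D) (n : ℕ) : V.deg (n • D) = n * V.deg D := by
  simpa using hF.deg_sum (s := Finset.range n) fun _ _ => hD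

theorem Ok.deg_zsmul (hF : V.Ok F) (hD : V.IsDiv F D) (n : ℤ) : V.deg (n • D) = n * V.deg D := by
  obtain ⟨n, rfl | rfl⟩ := n.eq_nat_or_neg
  · rw [natCast_zsmul, hF.deg_nsmul hD n, Int.cast_natCast]
  · rw [neg_zsmul, natCast_zsmul, hF.deg_neg (hD.nsmul n), hF.deg_nsmul hD n]
    simp

theorem Ok.deg_mono (hF : V.Ok F) (hD : V.IsDiv F D) (hD' : V.IsDiv F D') (h : D ≤ D') :
    V.deg D ≤ V.deg D' := by
  rw [hF.deg_eq hD, hF.deg_eq hD']
  exact sub_le_sub_right (hF.chi_mono hD hD' h) _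

theorem Ok.deg_nonneg (hF : V.Ok F) (hD : V.IsDiv F D) (h : 0 ≤ D) : 0 ≤ V.deg D := by
  simpa using hF.deg_mono .zero hD h

@[simp] theorem deg_dv (x : Ω) : V.deg (V.dv x) = 0 := by
  by_cases h0 : x = 0
  · simp [h0]
  obtain ⟨F, -, hF, hx⟩ := V.ok_K.exists_field (Set.finite_singleton x)
  rw [hF.deg_eq (Base.isDiv_dv (hx x rfl)), ← hF.chi_dv .zero (hx x rfl) h0, zero_add, sub_self]

@[simp] theorem deg_L : V.deg V.L = 0 := by
  rw [V.ok_K.deg_eq V.hL, ← V.ok_K.chi_L .zero 1, zero_add, one_smul, sub_self]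

@[simp] theorem deg_H : V.deg V.H = V.δ := by
  have := V.ok_K.chi_H .zero 1
  rw [zero_add, one_smul] at this
  rw [V.ok_K.deg_eq (Base.isDiv_H _), this]
  simp

theorem Ok.deg_act (hF : V.Ok F) (hD : V.IsDiv F D) {σ : Ω ≃ₐ[F₀] Ω} (hσ : ∀ x ∈ V.K, σ x = x) :
    V.deg (D ∘ Base.act σ) = V.deg D := by
  rw [(hF.map hσ).deg_eq (hD.comp_act σ), hF.deg_eq hD, hF.chi_act hσ, ← hF.chi_act hσ 0]
  rfl

theorem Ok.sig_nonneg (hF : V.Ok F) (hD : V.IsDiv F D) : 0 ≤ V.sig F D :=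
  sub_nonneg.mpr (hF.chi_le hD)

theorem Ok.sig_anti (hF : V.Ok F) (hD : V.IsDiv F D) (hD' : V.IsDiv F D') (h : D ≤ D') :
    V.sig F D' ≤ V.sig F D := by
  have h1 := hF.f_add_le hD (hD'.sub hD) (sub_nonneg.mpr h)
  have h2 := hF.chi_add hD (hD'.sub hD)
  rw [add_sub_cancel] at h1 h2
  unfold sig
  linarith

theorem Ok.sig_dv (hF : V.Ok F) (hD : V.IsDiv F D) (hx : x ∈ F) (h0 : x ≠ 0) :
    V.sig F (D + V.dv x) = V.sig F D := by rw [sig, hF.f_dv hD hx h0, hF.chi_dv hD hx h0, sig]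

theorem Ok.sig_L (hF : V.Ok F) (hD : V.IsDiv F D) (a : ℤ) :
    V.sig F (D + a • V.L) = V.sig F D := by rw [sig, hF.f_L hD, hF.chi_L hD, sig]

theorem Ok.sig_tendsto (hF : V.Ok F) (hD : V.IsDiv F D) :
    Tendsto (fun m : ℕ => V.sig F (D + m • V.H)) atTop (𝓝 0) := by
  have := (hF.tendsto_chi hD).sub_const (V.chi F D)
  rw [sub_self] at this
  refine this.congr fun m => ?_
  rw [sig, hF.chi_H hD]
  ring

/-- the defect of the Cousin complex for two disjoint divisors -/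
theorem Ok.defect (hF : V.Ok F) (hD : V.IsDiv F D) (hA : V.IsDiv F A) (hA' : V.IsDiv F A')
    (h : A ⊓ A' = 0) :
    (vd V.ν (fun b => V.Γ F (D + A + A' + b • V.L)) -
      vd V.ν fun b => V.Γ F (D + A + b • V.L) ⊔ V.Γ F (D + A' + b • V.L)) / finrank F₀ F =
    V.sig F (D + A + A') - V.sig F (D + A) - V.sig F (D + A') + V.sig F D := by
  have h1 := vd_sup_add_inf (hF.tame (hD.add hA)) (hF.tame (hD.add hA'))
  have h2 : ∀ b : ℕ, V.Γ F (D + A + b • V.L) ⊓ V.Γ F (D + A' + b • V.L) = V.Γ F (D + b • V.L) :=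
    fun b => by rw [← Base.Γ_inf, ← inf_add, ← add_inf, h, add_zero]
  simp only [h2] at h1
  simp only [sig, f, hF.chi_add (hD.add hA) hA', hF.chi_add hD hA, hF.chi_add hD hA']
  rw [← eq_sub_iff_add_eq] at h1
  rw [h1]
  ring

end VC

end Pool.Agent.Lib.MP_bc213e_ag.KBV
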