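import Pool.Agent.Lib.MP_bc213e_ag.KBV.ChiB

/-!
A lower bound for the degree of a generated bundle.
-/

set_option linter.unusedSectionVars false

namespace Pool.Agent.Lib.MP_bc213e_ag.KBV
open Module Filter Topology

variable {k F₀ Ω : Type} [Field k] [Field F₀] [Field Ω] [Algebra k F₀] [Algebra F₀ Ω]
  [Algebra k Ω] [IsScalarTower k F₀ Ω] [IsAlgClosure F₀ Ω] [CharZero k] [CharZero F₀] [CharZero Ω]

namespace VC
variable {V : VC k F₀ Ω} {F : IntermediateField F₀ Ω} {I : Type} [Fintype I]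
  {D : I → V.Dv} {W : Submodule Ω (I → Ω)}

/-- the map `(x, y) ↦ ∑ x j • w j + y • u` -/
def Dich_map (k : Type) [Field k] [Algebra k Ω] {J : Type} [Fintype J] (w : J → I → Ω)
    (u : I → Ω) : ((J → Ω) × Ω) →ₗ[k] (I → Ω) where
  toFun z := ∑ j, z.1 j • w j + z.2 • u
  map_add' z z' := by
    simp only [Prod.fst_add, Prod.snd_add, Pi.add_apply, add_smul, Finset.sum_add_distrib]
    abel
  map_smul' a z := by
    simp only [Prod.smul_fst, Prod.smul_snd, Pi.smul_apply, smul_assoc, RingHom.id_apply,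
      smul_add, Finset.smul_sum]

theorem Dich_f (h : V.Bun F D W) {J : Type} [Fintype J] {w : J → I → Ω}
    (hw : LinearIndependent Ω w) (hW : ∀ j, w j ∈ W)
    (wF : ∀ j i, w j i ∈ F) {D₀ : J → V.Dv} (hD₀ : ∀ j, V.IsDiv F (D₀ j))
    (hge : ∀ j i (v : V.P), v.1.Ge (w j i) (D₀ j v - D i v)) {c : J → Ω} (cF : ∀ j, c j ∈ F)
    {D' : V.Dv} (hD' : V.IsDiv F D')
    (hu : ∀ i (v : V.P), v.1.Ge ((∑ j, c j • w j) i) (D' v - D i v)) {j₀ : J} (h0 : c j₀ ≠ 0)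
    {G : V.Dv} (hG : V.IsDiv F G) :
    ∑ j, V.f F (D₀ j + G) + V.f F (D' + G) ≤
      V.fB F (fun i => D i + G) W + V.f F (D' ⊓ (D₀ j₀ + V.dv (c j₀)) + G) := by
  have hF := h.ok
  obtain ⟨t1, e1⟩ := vd_pi fun j => hF.tame ((hD₀ j).add hG)
  obtain ⟨t2, e2⟩ := vd_prod t1 (hF.tame (hD'.add hG))
  have e3 := vd_map_add t2 fun _ => Dich_map k w (∑ j, c j • w j)
  have uF : ∀ i, (∑ j, c j • w j) i ∈ F := fun i => by
    rw [Finset.sum_apply]
    exact sum_mem fun j _ => mul_mem (cF j) (wF j i)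
  have sec : ∀ {x y : Ω} {A E C : V.Dv}, x ∈ V.Γ F (A + C) → y ∈ F →
      (∀ v : V.P, v.1.Ge y (A v - E v)) → x * y ∈ V.Γ F (E + C) := fun {x y A E C} hx hy hv => by
    have := Base.mul_mem_Γ hx (Base.mem_Γ.mpr ⟨hy, fun v => by simpa using hv v⟩ :
      y ∈ V.Γ F (E - A))
    rwa [show A + C + (E - A) = E + C by abel] at this
  have e4 : (vd V.ν fun b => ((Submodule.pi Set.univ fun j => V.Γ F (D₀ j + G + b • V.L)).prod
      (V.Γ F (D' + G + b • V.L))).map (Dich_map k w (∑ j, c j • w j))) ≤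
      vd V.ν fun b => V.ΓB F (fun i => D i + G + b • V.L) W := by
    refine vd_mono (h.tw hG).tame fun b => ?_
    rintro _ ⟨z, ⟨hz1, hz2⟩, rfl⟩
    refine Base.mem_ΓB.mpr ⟨add_mem (sum_mem fun j _ => W.smul_mem _ (hW j))
      (W.smul_mem _ (sum_mem fun j _ => W.smul_mem _ (hW j))), fun i => ?_⟩
    change (∑ j, z.1 j • w j + z.2 • ∑ j, c j • w j) i ∈ _
    rw [Pi.add_apply, Finset.sum_apply, add_assoc (D i)]
    refine add_mem (sum_mem fun j _ => sec (A := D₀ j) ?_ (wF j i) (hge j i))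
      (sec (A := D') ?_ (uF i) (hu i))
    · rw [← add_assoc]
      exact hz1 j trivial
    · rw [← add_assoc]
      exact hz2
  have ker : ∀ z : (J → Ω) × Ω, z ∈ LinearMap.ker (Dich_map k w (∑ j, c j • w j)) →
      ∀ j, z.1 j = -(z.2 * c j) := fun z hz j => by
    have h1 : ∑ j, z.1 j • w j + z.2 • ∑ j, c j • w j = 0 := hz
    rw [Finset.smul_sum, ← Finset.sum_add_distrib] at h1
    simp only [smul_smul, ← add_smul] at h1
    exact eq_neg_of_add_eq_zero_left (Fintype.linearIndependent_iff.mp hw _ h1 j)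
  have e5 := (Tame.of_inj (U := fun b => ((Submodule.pi Set.univ fun j =>
      V.Γ F (D₀ j + G + b • V.L)).prod (V.Γ F (D' + G + b • V.L))) ⊓
        LinearMap.ker (Dich_map k w (∑ j, c j • w j)))
    (hF.tame ((hD'.inf ((hD₀ j₀).add (Base.isDiv_dv (cF j₀)))).add hG))
    (fun _ => LinearMap.snd k (J → Ω) Ω) (fun b z hz => by
      rw [inf_add, inf_add, Base.Γ_inf]
      refine ⟨hz.1.2, ?_⟩
      have h1 : z.1 j₀ ∈ V.Γ F (D₀ j₀ + G + b • V.L) := hz.1.1 j₀ trivial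
      rw [ker z hz.2, neg_mem_iff, Base.mul_mem_Γ_iff (cF j₀) h0] at h1
      rwa [show D₀ j₀ + V.dv (c j₀) + G + b • V.L = D₀ j₀ + G + b • V.L + V.dv (c j₀) by abel])
    fun b z hz h1 => Prod.ext (funext fun j => by
      rw [ker z hz.2, show z.2 = 0 from h1]
      simp) h1).2
  simp only [f, fB, ← Finset.sum_div, ← add_div]
  exact div_le_div_of_nonneg_right (by linarith) hF.pos.le

/-- Sketch: for every `m` the `k`-linear map `(x, y) ↦ ∑ x j • w j + y • u`, `u = ∑ c j • w j`, sends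
`(pi fun j => Γ F (D₀ j + m H + b L)).prod (Γ F (D' + m H + b L))` into `ΓB F (D + m H + b L) W`; on
its kernel `x j = - y * c j`, so `(x, y) ↦ y` injects the kernel into `Γ F (D'' + m H + b L)`,
`D'' = D' ⊓ (D₀ j₀ + dv (c j₀))`. `vd_map_add`, `vd_prod`, `vd_pi`; let `m → ∞` (`tendsto_chi`,
`tendsto_chiB`); `D' - D'' = (dv (c j₀) + D₀ j₀ - D')⁻`. -/
theorem Bun.dich (h : V.Bun F D W) {J : Type} [Fintype J] {w : J → I → Ω}
    (hw : LinearIndependent Ω w) (hW : ∀ j, w j ∈ W) (hc : Fintype.card J = finrank Ω W)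
    (wF : ∀ j i, w j i ∈ F) {D₀ : J → V.Dv} (hD₀ : ∀ j, V.IsDiv F (D₀ j))
    (hge : ∀ j i (v : V.P), v.1.Ge (w j i) (D₀ j v - D i v)) {c : J → Ω} (cF : ∀ j, c j ∈ F)
    {D' : V.Dv} (hD' : V.IsDiv F D')
    (hu : ∀ i (v : V.P), v.1.Ge ((∑ j, c j • w j) i) (D' v - D i v)) {j₀ : J} (h0 : c j₀ ≠ 0) :
    ∑ j, V.deg (D₀ j) + V.deg (V.dv (c j₀) + D₀ j₀ - D')⁻ ≤ V.degB F D W := by
  have hF := h.ok
  have hA := (hD₀ j₀).add (Base.isDiv_dv (B := V.toBase) (cF j₀))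
  have hD'' := hD'.inf hA
  have l1 := (tendsto_finsetSum Finset.univ fun j _ => hF.tendsto_chi (hD₀ j)).add
    (hF.tendsto_chi hD')
  have l2 := h.tendsto_chiB.add (hF.tendsto_chi hD'')
  have key := le_of_tendsto_of_tendsto' l1 l2 fun m => by
    have := Dich_f h hw hW wF hD₀ hge cF hD' hu h0 ((Base.isDiv_H F).nsmul m)
    rw [Finset.sum_sub_distrib, Finset.sum_const, Finset.card_univ, hc,
      nsmul_eq_mul (finrank Ω W)]
    linarith
  have e : (V.dv (c j₀) + D₀ j₀ - D')⁻ = D' - D' ⊓ (D₀ j₀ + V.dv (c j₀)) := by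
    rw [negPart_def, sub_inf, sub_self, neg_sub, add_comm, sup_comm]
  have e' : ∑ j, V.chi F (D₀ j) = finrank Ω W * V.chi F 0 + ∑ j, V.deg (D₀ j) := by
    rw [Finset.sum_congr rfl fun j _ => hF.chi_eq (hD₀ j), Finset.sum_add_distrib,
      Finset.sum_const, Finset.card_univ, hc, nsmul_eq_mul]
  rw [e, hF.deg_sub hD' hD'', degB, hF.deg_eq hD', hF.deg_eq hD'']
  linarith

end VC

end Pool.Agent.Lib.MP_bc213e_ag.KBV
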