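import Pool.Agent.Lib.MP_bc213e_ag.KBV.Div

/-!
Traces.
-/

set_option linter.unusedSectionVars false

namespace Pool.Agent.Lib.MP_bc213e_ag.KBV
open Module Filter Topology

variable {k F₀ Ω : Type} [Field k] [Field F₀] [Field Ω] [Algebra k F₀] [Algebra F₀ Ω]
  [Algebra k Ω] [IsScalarTower k F₀ Ω] [IsAlgClosure F₀ Ω] [CharZero k] [CharZero F₀] [CharZero Ω]

/-- the trace of `F' / F` as a sum of automorphisms, with a basis and its dual basis -/
structure TrData (F F' : IntermediateField F₀ Ω) where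
  d : ℕ
  pos : 0 < d
  σ : Fin d → Ω ≃ₐ[F₀] Ω
  fix : ∀ i, ∀ x ∈ F, σ i x = x
  mem : ∀ x ∈ F', ∑ i, σ i x ∈ F
  rank : finrank F₀ F' = d * finrank F₀ F
  θ : Fin d → Ω
  θ' : Fin d → Ω
  θ_mem : ∀ i, θ i ∈ F'
  θ'_mem : ∀ i, θ' i ∈ F'
  indep : ∀ c : Fin d → Ω, (∀ i, c i ∈ F) → ∑ i, c i * θ i = 0 → ∀ i, c i = 0
  dual : ∀ x ∈ F', x = ∑ i, (∑ l, σ l (x * θ i)) * θ' i

theorem Trc_sum {F Ω : Type} [Field F] [Field Ω] [Algebra F Ω] [IsAlgClosure F Ω] [CharZero F]
    (E : IntermediateField F Ω) [FiniteDimensional F E] :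
    ∃ σ : Fin (finrank F E) → Ω ≃ₐ[F] Ω,
      ∀ x : E, ∑ i, σ i x = algebraMap F Ω (Algebra.trace F E x) := by
  classical
  have := IsAlgClosure.isAlgClosed F (K := Ω)
  let e : (E →ₐ[F] Ω) ≃ Fin (finrank F E) := Fintype.equivFinOfCardEq (AlgHom.card F E Ω)
  refine ⟨fun i => AlgEquiv.ofBijective ((e.symm i).liftNormal Ω)
    (Algebra.IsAlgebraic.algHom_bijective _), fun x => ?_⟩
  rw [trace_eq_sum_embeddings Ω, ← Equiv.sum_comp e.symm]
  refine Finset.sum_congr rfl fun i _ => ?_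
  exact (e.symm i).liftNormal_commutes Ω x

/-- Sketch: view `F'` as `E := IntermediateField.extendScalars h : IntermediateField F Ω`; extend the
`finrank F E` embeddings `E →ₐ[F] Ω` (`AlgHom.card`) to automorphisms of `Ω`
(`AlgHom.liftNormal`, `AlgEquiv.ofBijective`), `trace_eq_sum_embeddings`, `Module.finBasis`,
`Module.Basis.traceDual`. -/
theorem exists_trData {F F' : IntermediateField F₀ Ω} (h : F ≤ F') [FiniteDimensional F₀ F'] :
    Nonempty (TrData F F') := by
  let E := IntermediateField.extendScalars h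
  have h0 : FiniteDimensional F₀ E := ‹FiniteDimensional F₀ F'›
  have h1 : FiniteDimensional F E := Module.Finite.of_restrictScalars_finite F₀ F E
  have h2 : IsAlgClosure F Ω :=
    ⟨IsAlgClosure.isAlgClosed F₀, Algebra.IsAlgebraic.tower_top (K := F₀) F⟩
  obtain ⟨σ, hσ⟩ := Trc_sum E
  let b := Module.finBasis F E
  refine ⟨{
    d := finrank F E
    pos := finrank_pos
    σ := fun i => (σ i).restrictScalars F₀
    fix := fun i x hx => (σ i).commutes ⟨x, hx⟩
    mem := fun x hx => ?_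
    rank := ?_
    θ := fun i => b i
    θ' := fun i => b.traceDual i
    θ_mem := fun i => (b i).2
    θ'_mem := fun i => (b.traceDual i).2
    indep := fun c hc h3 i => ?_
    dual := fun x hx => ?_ }⟩
  · have := hσ ⟨x, hx⟩
    exact this ▸ (Algebra.trace F E ⟨x, hx⟩).2
  · rw [← IntermediateField.finrank_bot_mul_relfinrank h,
      IntermediateField.relfinrank_eq_finrank_of_le h, mul_comm]
  · have h4 := Fintype.linearIndependent_iff.1 b.linearIndependent (fun i => ⟨c i, hc i⟩)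
      (Subtype.ext (by
        simp only [IntermediateField.coe_sum]
        exact h3)) i
    exact congrArg Subtype.val h4
  · have h4 := congrArg Subtype.val (b.traceDual.sum_repr ⟨x, hx⟩)
    refine h4.symm.trans ?_
    simp only [IntermediateField.coe_sum]
    refine Finset.sum_congr rfl fun i _ => ?_
    rw [Module.Basis.traceDual_repr_apply, Algebra.traceForm_apply]
    have h5 := hσ (⟨x, hx⟩ * b i)
    exact congrArg (· * ((b.traceDual i : E) : Ω)) h5.symm

namespace TrData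
variable {F F' : IntermediateField F₀ Ω} (T : TrData F F') {x : Ω}

variable (k) in
/-- the trace -/
def tr : Ω →ₗ[k] Ω := ∑ i, (T.σ i).toLinearMap.restrictScalars k

lemma tr_apply (x : Ω) : T.tr k x = ∑ i, T.σ i x := by simp [tr]

lemma tr_mem (hx : x ∈ F') : T.tr k x ∈ F := by
  rw [tr_apply]
  exact T.mem x hx

lemma tr_mul {c : Ω} (hc : c ∈ F) (x : Ω) : T.tr k (c * x) = c * T.tr k x := by
  simp [tr_apply, T.fix _ c hc, Finset.mul_sum]

lemma tr_of_mem (hx : x ∈ F) : T.tr k x = (T.d : k) • x := by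
  simp [tr_apply, T.fix _ x hx, Nat.cast_smul_eq_nsmul]

variable {B : Base k F₀ Ω}

lemma tr_ge {v : B.P} {m : ℚ} (h : ∀ w, B.Same F w v → w.1.Ge x m) : v.1.Ge (T.tr k x) m := by
  rw [tr_apply]
  exact QVal.Ge.sum fun i _ => (Base.act_ge _ _ _ _).mp (h _ (Base.same_act (T.fix i) v))

lemma tr_gt {v : B.P} {m : ℚ} (h : ∀ w, B.Same F w v → w.1.Gt x m) : v.1.Gt (T.tr k x) m := by
  rw [tr_apply]
  exact QVal.Gt.sum fun i _ => (Base.act_gt _ _ _ _).mp (h _ (Base.same_act (T.fix i) v))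

lemma tr_mem_Γ {D : B.Dv} (hD : B.IsDiv F D) (hx : x ∈ B.Γ F' D) : T.tr k x ∈ B.Γ F D :=
  Base.mem_Γ.mpr ⟨T.tr_mem hx.1, fun v => T.tr_ge fun w hw =>
    hD.same w v hw ▸ (Base.mem_Γ.mp hx).2 w⟩

end TrData

end Pool.Agent.Lib.MP_bc213e_ag.KBV
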