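import Pool.Agent.Lib.MP_bc213e_ag.KBV.Apx
import Pool.Agent.Lib.MP_bc213e_ag.KBV.Trc

/-!
Ramification.
-/

set_option linter.unusedSectionVars false

namespace Pool.Agent.Lib.MP_bc213e_ag.KBV
open Module Filter Topology

variable {k F₀ Ω : Type} [Field k] [Field F₀] [Field Ω] [Algebra k F₀] [Algebra F₀ Ω]
  [Algebra k Ω] [IsScalarTower k F₀ Ω] [IsAlgClosure F₀ Ω] [CharZero k] [CharZero F₀] [CharZero Ω]

namespace Base
variable {B : Base k F₀ Ω} {F F' : IntermediateField F₀ Ω} {D : B.Dv} {v w : B.P} {x : Ω}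

theorem Eps_unif (F : IntermediateField F₀ Ω) (v : B.P) : ∃ x ∈ F, x ≠ 0 ∧ v.1.ord x = 1 := by
  obtain ⟨z, hz, e⟩ := exists_unif (res_mem v)
  exact ⟨_, F.algebraMap_mem z, by simpa using hz, e⟩

theorem Eps_int [FiniteDimensional F₀ F] (v : B.P) (hx : x ∈ F) :
    ∃ n : ℤ, ((finrank F₀ F).factorial : ℚ) * v.1.ord x = n := by
  by_cases h0 : x = 0
  · exact ⟨0, by simp [h0]⟩
  have := IsAlgClosure.isAlgebraic (R := F₀) (K := Ω)
  obtain ⟨n, y, h1, h2, -, h3⟩ := v.1.exists_tors (Algebra.IsAlgebraic.isAlgebraic (R := F₀) x) h0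
  have h4 : (minpoly F₀ x).natDegree ≤ finrank F₀ F := by
    rw [← show minpoly F₀ (⟨x, hx⟩ : F) = minpoly F₀ x from IntermediateField.minpoly_eq _]
    exact minpoly.natDegree_le _
  obtain ⟨c, hc⟩ := Nat.dvd_factorial h1 (h2.trans h4)
  obtain ⟨m, hm⟩ := B.int _ (res_mem v) y
  refine ⟨c * m, ?_⟩
  rw [res_ord, ← h3] at hm
  rw [hc]
  push_cast
  rw [← hm]
  ring

/-- Sketch: by `QVal.exists_tors`, `B.int` all values of `v` on `F` lie in `(1 / N!) ℤ`,
`N = finrank F₀ F`, and `1` is a value (`exists_unif`); take the least positive one. -/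
theorem eps_isLeast (F : IntermediateField F₀ Ω) [FiniteDimensional F₀ F] (v : B.P) :
    IsLeast {q : ℚ | 0 < q ∧ ∃ x ∈ F, v.1.ord x = q} (B.eps F v) := by
  have hM : (0 : ℚ) < (finrank F₀ F).factorial := by exact_mod_cast Nat.factorial_pos _
  have h1 : ∃ n : ℕ, 0 < n ∧ ∃ x ∈ F, ((finrank F₀ F).factorial : ℚ) * v.1.ord x = n := by
    obtain ⟨x, hx, -, e⟩ := Eps_unif F v
    exact ⟨_, Nat.factorial_pos _, x, hx, by rw [e, mul_one]⟩
  classical
  obtain ⟨h2, x, hx, e⟩ := Nat.find_spec h1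
  have h3 : (0 : ℚ) < Nat.find h1 := by exact_mod_cast h2
  refine Classical.epsilon_spec (p := fun e => IsLeast {q : ℚ | 0 < q ∧ ∃ x ∈ F, v.1.ord x = q} e)
    ⟨v.1.ord x, ⟨(mul_pos_iff_of_pos_left hM).mp (e ▸ h3), x, hx, rfl⟩, ?_⟩
  rintro _ ⟨h4, y, hy, rfl⟩
  obtain ⟨n, hn⟩ := Eps_int v hy
  have h5 : 0 < n := by exact_mod_cast hn ▸ mul_pos hM h4
  obtain ⟨n, rfl⟩ := Int.eq_ofNat_of_zero_le h5.le
  have h6 : (Nat.find h1 : ℚ) ≤ n := by
    exact_mod_cast Nat.find_min' h1 ⟨by exact_mod_cast h5, y, hy, by exact_mod_cast hn⟩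
  refine le_of_mul_le_mul_left ?_ hM
  rw [e, hn]
  exact_mod_cast h6

theorem eps_pos (F : IntermediateField F₀ Ω) [FiniteDimensional F₀ F] (v : B.P) :
    0 < B.eps F v := (eps_isLeast F v).1.1

theorem exists_eps (F : IntermediateField F₀ Ω) [FiniteDimensional F₀ F] (v : B.P) :
    ∃ x ∈ F, x ≠ 0 ∧ v.1.ord x = B.eps F v := by
  obtain ⟨h, x, hx, e⟩ := (eps_isLeast F v).1
  exact ⟨x, hx, fun h0 => by simp [← e, h0] at h, e⟩

theorem eps_le [FiniteDimensional F₀ F] (hx : x ∈ F) (h : 0 < v.1.ord x) :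
    B.eps F v ≤ v.1.ord x := (eps_isLeast F v).2 ⟨h, x, hx, rfl⟩

/-- all values are multiples of `eps`. Sketch: divide by a power of a uniformiser. -/
theorem exists_mul_eps [FiniteDimensional F₀ F] (v : B.P) (hx : x ∈ F) :
    ∃ n : ℤ, v.1.ord x = n * B.eps F v := by
  by_cases h0 : x = 0
  · exact ⟨0, by simp [h0]⟩
  obtain ⟨π, h1, h2, h3⟩ := exists_eps F v
  have h4 := eps_pos F v
  refine ⟨⌊v.1.ord x / B.eps F v⌋, ?_⟩
  have h5 := (le_div_iff₀ h4).mp (Int.floor_le (v.1.ord x / B.eps F v))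
  have h6 := (div_lt_iff₀ h4).mp (Int.lt_floor_add_one (v.1.ord x / B.eps F v))
  have h7 : v.1.ord (x / π ^ ⌊v.1.ord x / B.eps F v⌋) =
      v.1.ord x - ⌊v.1.ord x / B.eps F v⌋ * B.eps F v := by
    rw [v.1.ord_div h0 (zpow_ne_zero _ h2), QVal.ord_zpow, h3]
  by_contra h8
  have h9 := eps_le (v := v) (div_mem hx (zpow_mem h1 ⌊v.1.ord x / B.eps F v⌋))
    (by rw [h7]; exact sub_pos.mpr (lt_of_le_of_ne h5 (Ne.symm h8)))
  rw [h7] at h9
  linarith

theorem exists_nat_eps (F : IntermediateField F₀ Ω) [FiniteDimensional F₀ F] (v : B.P) :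
    ∃ e : ℕ, 0 < e ∧ e * B.eps F v = 1 := by
  obtain ⟨x, hx, -, e⟩ := Eps_unif F v
  obtain ⟨n, hn⟩ := exists_mul_eps v hx
  rw [e] at hn
  have h1 : 0 < n := by
    exact_mod_cast (mul_pos_iff_of_pos_right (eps_pos F v)).mp (hn ▸ one_pos)
  obtain ⟨n, rfl⟩ := Int.eq_ofNat_of_zero_le h1.le
  exact ⟨n, by exact_mod_cast h1, by exact_mod_cast hn.symm⟩

theorem eps_same (h : B.Same F v w) : B.eps F v = B.eps F w := by
  have e : {q : ℚ | 0 < q ∧ ∃ x ∈ F, v.1.ord x = q} = {q : ℚ | 0 < q ∧ ∃ x ∈ F, w.1.ord x = q} :=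
    Set.ext fun q => and_congr_right fun _ => exists_congr fun x => and_congr_right fun hx => by
      rw [h x hx]
  rw [eps, eps, e]

theorem eps_anti (h : F ≤ F') [FiniteDimensional F₀ F'] (v : B.P) : B.eps F' v ≤ B.eps F v := by
  have : FiniteDimensional F₀ F :=
    .of_injective (IntermediateField.inclusion h).toLinearMap (IntermediateField.inclusion_injective h)
  obtain ⟨x, hx, -, e⟩ := exists_eps F v
  rw [← e]
  exact eps_le (h hx) (e ▸ eps_pos F v)

theorem eps_bot (v : B.P) : B.eps ⊥ v = 1 := by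
  obtain ⟨x, hx, -, e⟩ := Eps_unif ⊥ v
  refine le_antisymm (e ▸ eps_le hx (e ▸ one_pos)) ?_
  obtain ⟨y, hy, -, e'⟩ := exists_eps ⊥ v
  obtain ⟨z, rfl⟩ := IntermediateField.mem_bot.mp hy
  obtain ⟨n, hn⟩ := B.int _ (res_mem v) z
  have h1 := eps_pos ⊥ v
  rw [← e', ← res_ord, hn] at h1 ⊢
  exact_mod_cast (by exact_mod_cast h1 : 0 < n)

theorem Cod_mono (h : F ≤ F') [FiniteDimensional F₀ F'] : B.Cod F ≤ B.Cod F' := fun v =>
  sub_le_sub_left (eps_anti h v) 1

theorem Cod_nonneg (F : IntermediateField F₀ Ω) [FiniteDimensional F₀ F] : 0 ≤ B.Cod F := fun v => by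
  have := eps_anti (B := B) (bot_le : ⊥ ≤ F) v
  rw [eps_bot] at this
  exact sub_nonneg.mpr this

theorem Eps_gt [FiniteDimensional F₀ F] (hx : x ∈ F) (m : ℤ) :
    v.1.Gt x (m * B.eps F v - B.eps F v) ↔ v.1.Ge x (m * B.eps F v) := by
  have h1 := eps_pos F v
  refine ⟨fun h => ?_, fun h => h.gt (by linarith)⟩
  refine h.imp_right fun h => ?_
  obtain ⟨n, hn⟩ := exists_mul_eps v hx
  rw [hn] at h ⊢
  have h2 : ((m - 1 : ℤ) : ℚ) < n := lt_of_mul_lt_mul_right (by push_cast; linarith) h1.le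
  have h3 : m ≤ n := by
    have : m - 1 < n := by exact_mod_cast h2
    omega
  exact mul_le_mul_of_nonneg_right (by exact_mod_cast h3) h1.le

theorem Eps_ind (F : IntermediateField F₀ Ω) [FiniteDimensional F₀ F] {T : Set B.P} {p : QVal F₀}
    (h1 : ∀ v ∈ T, B.res v = p) (h2 : ∀ v w, B.Same F v w → v ∈ T → w ∈ T) :
    B.IsDiv F (T.indicator (B.eps F)) := by
  refine ⟨⟨{p}, Set.finite_singleton p, fun v hv => h1 v (Set.mem_of_indicator_ne_zero hv)⟩,
    fun v w h => ?_, fun v => ?_⟩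
  · by_cases hv : v ∈ T
    · simp [hv, h2 v w h hv, eps_same h]
    · simp [hv, mt (h2 w v h.symm) hv]
  · by_cases hv : v ∈ T
    · obtain ⟨x, hx, h0, e⟩ := exists_eps F v
      exact ⟨x, hx, h0, by simp [hv, e]⟩
    · exact ⟨1, one_mem _, one_ne_zero, by simp [hv]⟩

/-- discreteness -/
theorem gt_iff_ge [FiniteDimensional F₀ F] (hx : x ∈ F) {y : Ω} (hy : y ∈ F) :
    v.1.Gt x (v.1.ord y - B.eps F v) ↔ v.1.Ge x (v.1.ord y) := by
  obtain ⟨m, hm⟩ := exists_mul_eps v hy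
  rw [hm]
  exact Eps_gt hx m

theorem IsDiv.gt_iff_ge [FiniteDimensional F₀ F] (hD : B.IsDiv F D) (hx : x ∈ F) :
    v.1.Gt x (-D v - B.eps F v) ↔ v.1.Ge x (-D v) := by
  obtain ⟨y, hy, -, e⟩ := hD.neg.val v
  rw [Pi.neg_apply] at e
  rw [e]
  exact Base.gt_iff_ge hx hy

/-- the sections of `D + Cod F` -/
theorem IsDiv.ge_Cod_iff [FiniteDimensional F₀ F] (hD : B.IsDiv F D) (hx : x ∈ F) :
    v.1.Ge x (-(D + B.Cod F) v) ↔ v.1.Gt x (-D v - 1) := by
  obtain ⟨y, hy, -, e⟩ := hD.val v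
  obtain ⟨m, hm⟩ := exists_mul_eps v hy
  obtain ⟨n, -, hn⟩ := exists_nat_eps F v
  have h1 : -(D + B.Cod F) v = ((1 - m - n : ℤ) : ℚ) * B.eps F v := by
    simp only [Pi.add_apply, Cod]
    push_cast
    linarith
  rw [h1, ← Eps_gt hx]
  congr! 1
  push_cast
  linarith

/-- Almost all places are unramified. Sketch: `T : TrData ⊥ F`; let `S` contain the poles
(`fin_poles`) of all `θ i`, `θ' i`. For `res v ∉ S` take `x` with `w.ord x = eps F w` for all `w` over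
`res v` (`approx`, or `IsDiv.exists_ord` for `eps` restricted to these `w`); `tr (x * θ i)` has positive
order (`tr_gt`), hence order at least `1`, so by `T.dual` also `x`. -/
theorem isDiv_Cod (F : IntermediateField F₀ Ω) [FiniteDimensional F₀ F] :
    B.IsDiv F (B.Cod F) := by
  obtain ⟨T⟩ := exists_trData (bot_le : ⊥ ≤ F)
  choose S hS h1 using fun i => fin_poles (B := B) (T.θ i)
  choose S' hS' h2 using fun i => fin_poles (B := B) (T.θ' i)
  refine ⟨⟨(⋃ i, S i) ∪ ⋃ i, S' i, (Set.finite_iUnion hS).union (Set.finite_iUnion hS'),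
    fun v hv => ?_⟩, fun v w h => by rw [Cod, Cod, eps_same h], fun v => ?_⟩
  · by_contra hc
    simp only [Set.mem_union, Set.mem_iUnion, not_or, not_exists] at hc
    obtain ⟨x, hx, h0, e⟩ := (Eps_ind F (T := {w | B.res w = B.res v}) (fun _ h => h)
      fun u w h hu => h.res.symm.trans hu).exists_ord (Set.finite_singleton (B.res v))
    have e' : ∀ w, B.res w = B.res v → w.1.ord x = B.eps F w := fun w hw => by
      rw [e w hw, Set.indicator_of_mem (by exact hw)]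
    have h3 : ∀ i, v.1.Ge (∑ l, T.σ l (x * T.θ i)) 1 := fun i => by
      rw [← T.tr_apply (k := k)]
      have h4 := Eps_gt (v := v) (T.tr_mem (k := k) (mul_mem hx (T.θ_mem i))) 1
      rw [eps_bot, Int.cast_one, one_mul, sub_self] at h4
      refine h4.mp (T.tr_gt fun w hw => ?_)
      rw [mul_comm]
      exact (h1 i w (hw.res ▸ hc.1 i)).mul_gt₀ (.of_lt (e' w hw.res ▸ eps_pos F w))
    have h5 : v.1.Ge x 1 := by
      rw [T.dual x hx]
      exact QVal.Ge.sum fun i _ => by simpa using (h3 i).mul (h2 i v (hc.2 i))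
    have h6 := h5.le h0
    rw [e' v rfl] at h6
    exact hv (le_antisymm (sub_nonpos.mpr h6) (Cod_nonneg F v))
  · obtain ⟨x, hx, h0, e⟩ := Eps_unif F v
    obtain ⟨y, hy, h0', e'⟩ := exists_eps F v
    exact ⟨x / y, div_mem hx hy, div_ne_zero h0 h0', by rw [v.1.ord_div h0 h0', e, e', Cod]⟩

/-- the trace maps the relative codifferent into the integers -/
theorem tr_mem_Cod (T : TrData F F') [FiniteDimensional F₀ F] [FiniteDimensional F₀ F']
    (hD : B.IsDiv F D) (hx : x ∈ B.Γ F' (D + (B.Cod F' - B.Cod F))) : T.tr k x ∈ B.Γ F D := by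
  refine mem_Γ.mpr ⟨T.tr_mem hx.1, fun v => (hD.gt_iff_ge (T.tr_mem hx.1)).mp
    (T.tr_gt fun w hw => ((mem_Γ.mp hx).2 w).gt ?_)⟩
  have := eps_pos F' w
  simp only [Pi.add_apply, Pi.sub_apply, Cod, hD.same w v hw, eps_same hw]
  linarith

/-- the prime divisor of `F` defined by `w` -/
noncomputable def prime (F : IntermediateField F₀ Ω) (w : B.P) : B.Dv :=
  {v | B.Same F v w}.indicator (B.eps F)

theorem isDiv_prime (F : IntermediateField F₀ Ω) [FiniteDimensional F₀ F] (w : B.P) :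
    B.IsDiv F (prime F w) :=
  Eps_ind F (fun _ h => Same.res h) fun _ _ h hu => h.symm.trans hu

end Base

end Pool.Agent.Lib.MP_bc213e_ag.KBV
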