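import Pool.Agent.Lib.MP_bc213e_ag.KBV.VDefs

/-!
Lines in a bundle and the Koszul quotient.
-/

set_option linter.unusedSectionVars false

namespace Pool.Agent.Lib.MP_bc213e_ag.KBV
open Module Filter Topology

variable {k F₀ Ω : Type} [Field k] [Field F₀] [Field Ω] [Algebra k F₀] [Algebra F₀ Ω]
  [Algebra k Ω] [IsScalarTower k F₀ Ω] [IsAlgClosure F₀ Ω] [CharZero k] [CharZero F₀] [CharZero Ω]

section
variable {I : Type} [Fintype I] {W : Submodule Ω (I → Ω)} {s x : I → Ω}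
  {F : IntermediateField F₀ Ω}

theorem kos_eq_zero_iff (hs : s ≠ 0) : kos s x = 0 ↔ ∃ c : Ω, x = c • s := by
  refine ⟨fun h => ?_, ?_⟩
  · obtain ⟨i, hi⟩ := Function.ne_iff.mp hs
    have hi : s i ≠ 0 := hi
    refine ⟨x i / s i, funext fun j => ?_⟩
    have := congrFun h (j, i)
    simp only [kos_apply, Pi.zero_apply] at this
    simp only [Pi.smul_apply, smul_eq_mul]
    field_simp
    linear_combination this
  · rintro ⟨c, rfl⟩
    funext p
    simp only [kos_apply, Pi.smul_apply, smul_eq_mul, Pi.zero_apply]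
    ring

theorem kos_self (s : I → Ω) : kos s s = 0 := funext fun p => by simp [mul_comm]

theorem finrank_kos (hs : s ∈ W) (h0 : s ≠ 0) : finrank Ω (W.map (kos s)) + 1 = finrank Ω W := by
  have h : W ⊓ LinearMap.ker (kos s) = Submodule.span Ω {s} := by
    ext x
    simp only [Submodule.mem_inf, LinearMap.mem_ker, kos_eq_zero_iff h0,
      Submodule.mem_span_singleton]
    exact ⟨fun ⟨_, c, e⟩ => ⟨c, e.symm⟩, fun ⟨c, e⟩ => ⟨e ▸ W.smul_mem c hs, c, e.symm⟩⟩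
  rw [← finrank_map_add (kos s) W, h, finrank_span_singleton h0]

theorem kos_mem (hs : ∀ i, s i ∈ F) (hx : ∀ i, x i ∈ F) (p : I × I) : kos s x p ∈ F :=
  sub_mem (mul_mem (hx _) (hs _)) (mul_mem (hx _) (hs _))

namespace Base

theorem Rat.kos (h : Rat F W) (hs : ∀ i, s i ∈ F) : Rat F (W.map (kos s)) := by
  refine (Submodule.map_mono h).trans ?_
  rw [Submodule.map_span]
  refine Submodule.span_mono ?_
  rintro _ ⟨x, hx, rfl⟩
  exact ⟨⟨x, hx.1, rfl⟩, kos_mem hs hx.2⟩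

theorem Rat.exists (h : Rat F W) (h0 : W ≠ ⊥) : ∃ s ∈ W, s ≠ 0 ∧ ∀ i, s i ∈ F := by
  by_contra hc
  refine h0 (le_bot_iff.mp (h.trans (Submodule.span_le.mpr fun x hx => ?_)))
  by_contra hx0
  exact hc ⟨x, hx.1, hx0, hx.2⟩

theorem rat_span {J : Type*} {w : J → I → Ω} (h : ∀ j i, w j i ∈ F) :
    Rat F (Submodule.span Ω (Set.range w)) := by
  refine Submodule.span_mono ?_
  rintro _ ⟨j, rfl⟩
  exact ⟨Submodule.subset_span ⟨j, rfl⟩, h j⟩

theorem rat_top : Rat F (⊤ : Submodule Ω (I → Ω)) := by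
  classical
  rw [← (Pi.basisFun Ω I).span_eq]
  refine rat_span fun j i => ?_
  rw [Pi.basisFun_apply, Pi.single_apply]
  split_ifs
  exacts [one_mem _, zero_mem _]

theorem Rat.act (h : Rat F W) {σ : Ω ≃ₐ[F₀] Ω} (hσ : ∀ x ∈ F, σ x = x) (hx : x ∈ W) :
    (fun i => σ (x i)) ∈ W := by
  refine Submodule.span_induction (p := fun x _ => (fun i => σ (x i)) ∈ W) (fun y hy => ?_)
    ?_ (fun y z _ _ hy hz => ?_) (fun c y _ hy => ?_) (h hx)
  · simpa [hσ _ (hy.2 _)] using hy.1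
  · simp only [Pi.zero_apply, map_zero]
    exact W.zero_mem
  · simp only [Pi.add_apply, map_add]
    exact W.add_mem hy hz
  · simp only [Pi.smul_apply, smul_eq_mul, map_mul]
    exact W.smul_mem (σ c) hy

variable {B : Base k F₀ Ω} {D : I → B.Dv} {v : B.P}

theorem nrm_le (D : I → B.Dv) {i : I} (hi : s i ≠ 0) (v : B.P) :
    B.nrm D s v ≤ D i v + v.1.ord (s i) := by
  classical
  have h : i ∈ Finset.univ.filter fun i => s i ≠ 0 := by simpa using hi
  unfold nrm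
  rw [dif_pos ⟨i, by convert h⟩]
  exact Finset.inf'_le _ (by convert h)

theorem exists_nrm (D : I → B.Dv) (hs : s ≠ 0) (v : B.P) :
    ∃ i, s i ≠ 0 ∧ B.nrm D s v = D i v + v.1.ord (s i) := by
  obtain ⟨i, hi⟩ := Function.ne_iff.mp hs
  unfold nrm
  rw [dif_pos ⟨i, by simpa using hi⟩]
  exact (Finset.exists_mem_eq_inf' _ fun i => D i v + v.1.ord (s i)).imp
    fun j hj => ⟨by simpa using hj.1, hj.2⟩

theorem nrm_zero (D : I → B.Dv) : B.nrm D 0 = 0 := funext fun v => by simp [nrm]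

theorem ge_nrm (D : I → B.Dv) (s : I → Ω) (i : I) (v : B.P) :
    v.1.Ge (s i) (B.nrm D s v - D i v) :=
  (em (s i = 0)).imp id fun h => by linarith [nrm_le D h v]

theorem le_nrm_iff (hs : s ≠ 0) {m : ℚ} : m ≤ B.nrm D s v ↔ ∀ i, v.1.Ge (s i) (m - D i v) := by
  refine ⟨fun h i => (ge_nrm D s i v).mono (by linarith), fun h => ?_⟩
  obtain ⟨i, hi, e⟩ := exists_nrm D hs v
  linarith [(h i).le hi]

/-- a choice of an index which computes `nrm`, depending only on the restriction to `F` -/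
theorem exists_sel (hD : ∀ i, B.IsDiv F (D i)) (hs : ∀ i, s i ∈ F) (h0 : s ≠ 0) :
    ∃ ι : B.P → I, (∀ v w, B.Same F v w → ι v = ι w) ∧
      ∀ v, s (ι v) ≠ 0 ∧ B.nrm D s v = D (ι v) v + v.1.ord (s (ι v)) := by
  have : Nonempty I := (Function.ne_iff.mp h0).nonempty
  refine ⟨fun v => Classical.epsilon fun i => s i ≠ 0 ∧
    ∀ j, s j ≠ 0 → D i v + v.1.ord (s i) ≤ D j v + v.1.ord (s j), fun v w h => ?_, fun v => ?_⟩
  · simp only [fun i => (hD i).same v w h, fun i => h _ (hs i)]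
  · obtain ⟨i, hi, e⟩ := exists_nrm D h0 v
    obtain ⟨h1, h2⟩ := Classical.epsilon_spec (p := fun i => s i ≠ 0 ∧
      ∀ j, s j ≠ 0 → D i v + v.1.ord (s i) ≤ D j v + v.1.ord (s j))
      ⟨i, hi, fun j hj => e ▸ nrm_le D hj v⟩
    exact ⟨h1, le_antisymm (nrm_le D h1 v) (e ▸ h2 i hi)⟩

theorem isDiv_nrm (hD : ∀ i, B.IsDiv F (D i)) (hs : ∀ i, s i ∈ F) : B.IsDiv F (B.nrm D s) := by
  classical
  by_cases h0 : s = 0
  · rw [h0, nrm_zero]
    exact .zero
  obtain ⟨ι, h1, h2⟩ := exists_sel hD hs h0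
  have : B.nrm D s = ∑ i, {v | ι v = i}.indicator (D i + B.dv (s i)) := funext fun v => by
    simp [Finset.sum_apply, Set.indicator_apply, (h2 v).2]
  rw [this]
  exact .sum fun i _ => ((hD i).add (isDiv_dv (hs i))).indicator fun v w h hv =>
    (h1 v w h).symm.trans hv

theorem isDiv_qD (hD : ∀ i, B.IsDiv F (D i)) (hs : ∀ i, s i ∈ F) (p : I × I) :
    B.IsDiv F (B.qD D s p) := ((hD _).add (hD _)).sub (isDiv_nrm hD hs)

theorem nrm_add (hs : s ≠ 0) (G : B.Dv) : B.nrm (fun i => D i + G) s = B.nrm D s + G :=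
  funext fun v => eq_of_forall_le_iff fun m => by
    rw [Pi.add_apply, ← sub_le_iff_le_add, le_nrm_iff hs, le_nrm_iff hs]
    simp only [Pi.add_apply, sub_sub, add_comm (G v)]

theorem qD_add (hs : s ≠ 0) (G : B.Dv) :
    B.qD (fun i => D i + G) s = fun p => B.qD D s p + G := funext fun p => by
  simp only [qD, nrm_add hs]
  abel

theorem nrm_smul (hs : s ≠ 0) {c : Ω} (hc : c ≠ 0) : B.nrm D (c • s) = B.nrm D s + B.dv c :=
  funext fun v => eq_of_forall_le_iff fun m => by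
    rw [Pi.add_apply, ← sub_le_iff_le_add, le_nrm_iff hs, le_nrm_iff (smul_ne_zero hc hs)]
    simp only [Pi.smul_apply, smul_eq_mul, mul_comm c, QVal.ge_mul_iff hc, dv_apply, sub_right_comm]

theorem smul_mem_ΓB_iff (hs : s ∈ W) (h0 : s ≠ 0) (hF : ∀ i, s i ∈ F) {c : Ω} :
    c • s ∈ B.ΓB F D W ↔ c ∈ B.Γ F (B.nrm D s) := by
  rw [mem_ΓB, mem_Γ]
  refine ⟨fun h => ⟨?_, fun v => ?_⟩, fun h => ⟨W.smul_mem c hs, fun i => mem_Γ.mpr
    ⟨mul_mem h.1 (hF i), fun v => ((h.2 v).mul (ge_nrm D s i v)).mono (by linarith)⟩⟩⟩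
  · obtain ⟨i, hi, -⟩ := Function.ne_iff.mp h0 |>.imp fun i hi => And.intro hi trivial
    have hi : s i ≠ 0 := hi
    simpa [hi] using mul_mem (h.2 i).1 (inv_mem (hF i))
  · obtain ⟨i, hi, e⟩ := exists_nrm D h0 v
    exact ((QVal.ge_mul_iff hi).mp ((mem_Γ.mp (h.2 i)).2 v)).mono (by linarith)

theorem kos_ge {m : ℚ} (s : I → Ω) (hx : ∀ i, v.1.Ge (x i) (m - D i v)) (p : I × I) :
    v.1.Ge (kos s x p) (m - B.qD D s p v) :=
  (((hx _).mul (ge_nrm D s _ v)).mono (by simp [qD]; linarith)).sub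
    (((hx _).mul (ge_nrm D s _ v)).mono (by simp [qD]; linarith))

theorem kos_mem_ΓB (hF : ∀ i, s i ∈ F) (hx : x ∈ B.ΓB F D W) :
    kos s x ∈ B.ΓB F (B.qD D s) (W.map (kos s)) := by
  rw [mem_ΓB] at hx ⊢
  exact ⟨⟨x, hx.1, rfl⟩, fun p => mem_Γ.mpr ⟨kos_mem hF (fun i => (hx.2 i).1) p, fun v => by
    simpa using kos_ge (m := 0) s (fun i => by simpa using (mem_Γ.mp (hx.2 i)).2 v) p⟩⟩

/-- local splitting of the Koszul sequence -/
theorem ge_of_kos {m : ℚ} {i : I} (hi : s i ≠ 0) (he : B.nrm D s v = D i v + v.1.ord (s i))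
    (h1 : v.1.Ge (x i / s i) (m - B.nrm D s v))
    (h2 : ∀ p, v.1.Ge (kos s x p) (m - B.qD D s p v)) (j : I) : v.1.Ge (x j) (m - D j v) := by
  have e : x j = x i / s i * s j + kos s x (j, i) / s i := by
    rw [kos_apply]
    field_simp
    ring
  rw [e]
  refine ((h1.mul (ge_nrm D s j v)).mono (by linarith)).add
    ((QVal.ge_div_iff hi).mpr ((h2 _).mono ?_))
  simp only [qD, Pi.sub_apply, Pi.add_apply]
  linarith

end Base
end

end Pool.Agent.Lib.MP_bc213e_ag.KBV
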