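import Pool.Agent.Lib.MP_bc213e_ag.KBV.Deg
import Pool.Agent.Lib.MP_bc213e_ag.KBV.Nrm

/-!
Sections of bundles.
-/

set_option linter.unusedSectionVars false

namespace Pool.Agent.Lib.MP_bc213e_ag.KBV
open Module Filter Topology

variable {k F₀ Ω : Type} [Field k] [Field F₀] [Field Ω] [Algebra k F₀] [Algebra F₀ Ω]
  [Algebra k Ω] [IsScalarTower k F₀ Ω] [IsAlgClosure F₀ Ω] [CharZero k] [CharZero F₀] [CharZero Ω]

namespace VC
variable {V : VC k F₀ Ω} {F F' : IntermediateField F₀ Ω} {I : Type} [Fintype I]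
  {D D' : I → V.Dv} {W : Submodule Ω (I → Ω)} {s : I → Ω} {x : Ω}

theorem Bun.quot (h : V.Bun F D W) (hs : ∀ i, s i ∈ F) : V.Bun F (V.qD D s) (W.map (kos s)) :=
  ⟨h.ok, Base.isDiv_qD h.div hs, h.rat.kos hs⟩

theorem Bun.tame (h : V.Bun F D W) : Tame V.ν fun b => V.ΓB F (fun i => D i + b • V.L) W :=
  (vd_pi fun i => h.ok.tame (h.div i)).1.mono fun _ => inf_le_right

theorem fB_bot (F : IntermediateField F₀ Ω) (D : I → V.Dv) : V.fB F D ⊥ = 0 := by
  simp [fB, Base.ΓB, vd_bot]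

theorem Bun.fB_top (h : V.Bun F D ⊤) : V.fB F D ⊤ = ∑ i, V.f F (D i) := by
  simp only [fB, f, Base.ΓB, Submodule.restrictScalars_top, top_inf_eq, ← Finset.sum_div,
    (vd_pi fun i => h.ok.tame (h.div i)).2]

theorem FB_smul (hx : x ∈ F) (h0 : x ≠ 0) {y : I → Ω} :
    x • y ∈ V.ΓB F D W ↔ y ∈ V.ΓB F (fun i => D i + V.dv x) W := by
  simp only [Base.mem_ΓB, W.smul_mem_iff h0, Pi.smul_apply, smul_eq_mul, mul_comm x,
    Base.mul_mem_Γ_iff hx h0]

/-- the coordinate `i` relative to `s` -/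
noncomputable def FB_psi (s : I → Ω) (i : I) : (I → Ω) →ₗ[Ω] Ω where
  toFun y := y i / s i
  map_add' _ _ := add_div _ _ _
  map_smul' _ _ := mul_div_assoc _ _ _

/-- a splitting of the Koszul sequence -/
noncomputable def FB_Phi (s : I → Ω) (i₀ : I) : (Ω × (I × I → Ω)) →ₗ[Ω] (I → Ω) where
  toFun z j := z.1 * s j + z.2 (j, i₀) / s i₀
  map_add' y z := funext fun j => by simp; ring
  map_smul' c y := funext fun j => by simp; ring

theorem FB_Phi_kos {i₀ : I} (hi : s i₀ ≠ 0) (c : Ω) (y : I → Ω) :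
    FB_Phi s i₀ (c, kos s y) = (c - y i₀ / s i₀) • s + y := funext fun j => by
  show c * s j + (y j * s i₀ - y i₀ * s j) / s i₀ = (c - y i₀ / s i₀) * s j + y j
  field_simp
  ring

/-- multiplication by `x` and `x⁻¹`, `Tame.of_inj` -/
theorem Bun.fB_dv (h : V.Bun F D W) (hx : x ∈ F) (h0 : x ≠ 0) :
    V.fB F (fun i => D i + V.dv x) W = V.fB F D W := by
  have e : ∀ b : ℕ, (fun i => D i + V.dv x + b • V.L) = fun i => D i + b • V.L + V.dv x :=
    fun b => funext fun i => add_right_comm _ _ _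
  have h1 := ((h.tw (Base.isDiv_dv hx)).tame.of_inj
    (U := fun b => V.ΓB F (fun i => D i + b • V.L) W)
    (fun _ => (LinearMap.lsmul Ω (I → Ω) x⁻¹).restrictScalars k)
    (fun b y hy => by
      rw [e, ← FB_smul hx h0]
      simpa [h0] using hy)
    fun b y _ hy => (smul_eq_zero.mp hy).resolve_left (inv_ne_zero h0)).2
  have h2 := (h.tame.of_inj (U := fun b => V.ΓB F (fun i => D i + V.dv x + b • V.L) W)
    (fun _ => (LinearMap.lsmul Ω (I → Ω) x).restrictScalars k)
    (fun b y hy => (FB_smul hx h0).mpr (e b ▸ hy))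
    fun b y _ hy => (smul_eq_zero.mp hy).resolve_left h0).2
  rw [fB, fB, le_antisymm h2 h1]

/-- Sketch: `vd_map_add` for `(kos s).restrictScalars k`; the image lies in the sections of the
quotient (`kos_mem_ΓB`, `qD_add`), the kernel is the image of `Γ F (nrm D s + b L)` under
`c ↦ c • s` (`kos_eq_zero_iff`, `smul_mem_ΓB_iff`, `nrm_add`). -/
theorem Bun.fB_le (h : V.Bun F D W) (hs : s ∈ W) (h0 : s ≠ 0) (hF : ∀ i, s i ∈ F) :
    V.fB F D W ≤ V.f F (V.nrm D s) + V.fB F (V.qD D s) (W.map (kos s)) := by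
  obtain ⟨i₀, hi⟩ := Function.ne_iff.mp h0
  have hi : s i₀ ≠ 0 := hi
  have h1 := vd_map_add h.tame fun _ => (kos s).restrictScalars k
  have h2 := vd_mono (U := fun b => (V.ΓB F (fun i => D i + b • V.L) W).map
      ((kos s).restrictScalars k)) (h.quot hF).tame fun b => by
    rintro _ ⟨y, hy, rfl⟩
    have := Base.kos_mem_ΓB hF hy
    rwa [Base.qD_add h0] at this
  have h3 := ((h.ok.tame (Base.isDiv_nrm h.div hF)).of_inj
    (U := fun b => V.ΓB F (fun i => D i + b • V.L) W ⊓ LinearMap.ker ((kos s).restrictScalars k))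
    (fun _ => (FB_psi s i₀).restrictScalars k)
    (fun b y hy => by
      obtain ⟨c, rfl⟩ := (kos_eq_zero_iff h0).mp hy.2
      have := (Base.smul_mem_ΓB_iff hs h0 hF).mp hy.1
      rw [Base.nrm_add h0] at this
      show c * s i₀ / s i₀ ∈ _
      rwa [mul_div_cancel_right₀ _ hi])
    fun b y hy e => by
      obtain ⟨c, rfl⟩ := (kos_eq_zero_iff h0).mp hy.2
      have e' : c * s i₀ / s i₀ = 0 := e
      rw [mul_div_cancel_right₀ _ hi] at e'
      rw [e', zero_smul]).2
  rw [fB, fB, f, ← add_div]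
  exact div_le_div_of_nonneg_right (by linarith) h.ok.pos.le

/-- Sketch: fix `i₀` with `s i₀ ≠ 0`, `R := D i₀ + dv (s i₀) - nrm D s ≥ 0`, `ι` from `exists_sel`.
On `U b := (Γ F (nrm + R + b L)).prod (ΓB F (qD + b L) (W.map (kos s)))` (`vd_prod`) consider the
injective `k`-linear map `Φ (c, y) = fun j => c * s j + y (j, i₀) / s i₀`, with values in `W` and
`kos s (Φ (c, y)) = y` (write `y = kos s x'`). For `i` with `s i ≠ 0` the map
`φ i (c, y) = Φ (c, y) i / s i = c + y (i, i₀) / (s i₀ * s i)` goes to `Γ F (A i + b L)`,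
`A i = D i + dv (s i) + R`. Impose `φ i ∈ Γ F (A i - R i + b L)`, `R i = {v | ι v = i}.indicator R`
(`vd_conds`, cost `≤ deg (R i)` by `f_add_le`, `∑ R i = R`). Then `Φ (c, y) ∈ ΓB` by `ge_of_kos` with
`i = ι v`. Finally `f (nrm + R) - deg R ≥ chi (nrm + R) - deg R = chi nrm`. -/
theorem Bun.fB_ge (h : V.Bun F D W) (hs : s ∈ W) (h0 : s ≠ 0) (hF : ∀ i, s i ∈ F) :
    V.chi F (V.nrm D s) + V.fB F (V.qD D s) (W.map (kos s)) ≤ V.fB F D W := by
  classical
  obtain ⟨i₀, hi⟩ := Function.ne_iff.mp h0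
  have hi : s i₀ ≠ 0 := hi
  obtain ⟨ι, ι1, ι2⟩ := Base.exists_sel h.div hF h0
  have hN := Base.isDiv_nrm h.div hF
  obtain ⟨R, hR⟩ : ∃ R, R = D i₀ + V.dv (s i₀) - V.nrm D s := ⟨_, rfl⟩
  have R0 : ∀ v, R v = D i₀ v + v.1.ord (s i₀) - V.nrm D s v := fun v => by rw [hR]; rfl
  have R1 : V.IsDiv F R := hR ▸ ((h.div i₀).add (Base.isDiv_dv (hF i₀))).sub hN
  have R2 : 0 ≤ R := fun v => by
    rw [R0]
    exact sub_nonneg.mpr (Base.nrm_le D hi v)
  have R3 : ∀ i, V.IsDiv F ({v | ι v = i}.indicator R) := fun i =>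
    R1.indicator fun v w e hv => (ι1 v w e).symm.trans hv
  have R4 : ∀ i, 0 ≤ {v | ι v = i}.indicator R := fun i v =>
    Set.indicator_nonneg (fun a _ => R2 a) v
  have R5 : ∑ i, {v | ι v = i}.indicator R = R := funext fun v => by
    simp [Finset.sum_apply, Set.indicator_apply]
  have A1 : ∀ i, V.IsDiv F (D i + V.dv (s i) + R) := fun i =>
    ((h.div i).add (Base.isDiv_dv (hF i))).add R1
  obtain ⟨t1, e1⟩ := vd_prod (h.ok.tame (hN.add R1)) (h.quot hF).tame
  have e2 := vd_conds Finset.univ (A := fun i b => V.Γ F (D i + V.dv (s i) + R + b • V.L))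
    (C := fun i b => V.Γ F (D i + V.dv (s i) + R - {v | ι v = i}.indicator R + b • V.L)) t1
    (fun i _ => h.ok.tame (A1 i))
    (fun i _ => ((FB_psi s i).comp (FB_Phi s i₀)).restrictScalars k)
    (fun i _ b z hz => by
      show (z.1 * s i + z.2 (i, i₀) / s i₀) / s i ∈ _
      by_cases hi' : s i = 0
      · rw [hi', div_zero]
        exact zero_mem _
      have k1 := Base.mem_Γ.mp hz.1
      have k2 := Base.mem_Γ.mp ((Base.mem_ΓB.mp hz.2).2 (i, i₀))
      rw [add_div, mul_div_cancel_right₀ _ hi']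
      refine Base.mem_Γ.mpr ⟨add_mem k1.1 (div_mem (div_mem k2.1 (hF _)) (hF _)), fun v => ?_⟩
      refine ((k1.2 v).mono ?_).add
        ((QVal.ge_div_iff hi').mpr ((QVal.ge_div_iff hi).mpr ((k2.2 v).mono ?_)))
      · simp only [Pi.add_apply, Base.dv_apply]
        linarith [Base.nrm_le D hi' v]
      · simp only [Pi.add_apply, Pi.sub_apply, Base.dv_apply, Base.qD, R0]
        linarith)
    fun i _ b => Base.Γ_mono (add_le_add_left (sub_le_self _ (R4 i)) _)
  have e3 := (h.tame.of_inj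
    (U := fun b => (V.Γ F (V.nrm D s + R + b • V.L)).prod
      (V.ΓB F (fun p => V.qD D s p + b • V.L) (W.map (kos s))) ⊓ ⨅ i ∈ Finset.univ,
      (V.Γ F (D i + V.dv (s i) + R - {v | ι v = i}.indicator R + b • V.L)).comap
        (((FB_psi s i).comp (FB_Phi s i₀)).restrictScalars k))
    (fun _ => (FB_Phi s i₀).restrictScalars k)
    (fun b z hz => by
      obtain ⟨c, y⟩ := z
      obtain ⟨⟨k1, k2⟩, k3⟩ := hz
      obtain ⟨⟨y', k4, rfl⟩, k5⟩ := Base.mem_ΓB.mp k2
      have k6 : kos s (FB_Phi s i₀ (c, kos s y')) = kos s y' := by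
        rw [FB_Phi_kos hi, map_add, map_smul, kos_self, smul_zero, zero_add]
      refine Base.mem_ΓB.mpr ⟨?_, fun j => Base.mem_Γ.mpr ⟨?_, fun v => ?_⟩⟩
      · show FB_Phi s i₀ (c, kos s y') ∈ W
        rw [FB_Phi_kos hi]
        exact add_mem (W.smul_mem _ hs) k4
      · exact add_mem (mul_mem (Base.mem_Γ.mp k1).1 (hF j))
          (div_mem (Base.mem_Γ.mp (k5 (j, i₀))).1 (hF _))
      · have k7 : FB_Phi s i₀ (c, kos s y') (ι v) / s (ι v) ∈ V.Γ F (D (ι v) + V.dv (s (ι v)) + R -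
            {w | ι w = ι v}.indicator R + b • V.L) :=
          (Submodule.mem_iInf _).mp ((Submodule.mem_iInf _).mp k3 (ι v)) (Finset.mem_univ _)
        refine (Base.ge_of_kos (x := FB_Phi s i₀ (c, kos s y')) (m := -(b • V.L) v) (ι2 v).1 (ι2 v).2
          (((Base.mem_Γ.mp k7).2 v).mono ?_) (fun p => ?_) j).mono ?_
        · rw [(ι2 v).2]
          simp only [Pi.add_apply, Pi.sub_apply, Base.dv_apply,
            Set.indicator_of_mem (s := {w | ι w = ι v}) (a := v) rfl]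
          linarith
        · rw [k6]
          refine ((Base.mem_Γ.mp (k5 p)).2 v).mono ?_
          simp only [Pi.add_apply]
          linarith
        · simp only [Pi.add_apply]
          linarith)
    fun b z hz e => by
      obtain ⟨c, y⟩ := z
      obtain ⟨⟨y', -, rfl⟩, -⟩ := Base.mem_ΓB.mp hz.1.2
      have e' : FB_Phi s i₀ (c, kos s y') = 0 := e
      have k6 : kos s y' = 0 := by
        have := congrArg (kos s) e'
        rwa [FB_Phi_kos hi, map_add, map_smul, kos_self, smul_zero, zero_add, map_zero] at this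
      rw [k6] at e' ⊢
      have k7 : c * s i₀ + 0 / s i₀ = 0 := congrFun e' i₀
      rw [zero_div, add_zero] at k7
      rw [(mul_eq_zero.mp k7).resolve_right hi]
      rfl).2
  have e4 : ∀ i, V.f F (D i + V.dv (s i) + R) -
      V.f F (D i + V.dv (s i) + R - {v | ι v = i}.indicator R) ≤
        V.deg ({v | ι v = i}.indicator R) := fun i => by
    simpa only [sub_add_cancel] using h.ok.f_add_le ((A1 i).sub (R3 i)) (R3 i) (R4 i)
  have e5 := Finset.sum_le_sum fun i (_ : i ∈ Finset.univ) => e4 i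
  rw [← h.ok.deg_sum fun i _ => R3 i, R5] at e5
  have e6 := h.ok.chi_le (hN.add R1)
  rw [h.ok.chi_add hN R1] at e6
  have e7 := div_le_div_of_nonneg_right (e2.trans e3) h.ok.pos.le
  rw [e1, sub_div, add_div, Finset.sum_div] at e7
  simp only [sub_div] at e7
  simp only [f] at e5 e6
  simp only [fB]
  linarith

end VC

end Pool.Agent.Lib.MP_bc213e_ag.KBV
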