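import Pool.Agent.Lib.MP_bc213e_ag.KBV.VDefs

/-!
The virtual dimension of spaces of sections.
-/

set_option linter.unusedSectionVars false

namespace Pool.Agent.Lib.MP_bc213e_ag.KBV
open Module Filter Topology

variable {k F₀ Ω : Type} [Field k] [Field F₀] [Field Ω] [Algebra k F₀] [Algebra F₀ Ω]
  [Algebra k Ω] [IsScalarTower k F₀ Ω] [IsAlgClosure F₀ Ω] [CharZero k] [CharZero F₀] [CharZero Ω]

namespace VC
variable {V : VC k F₀ Ω} {F F' : IntermediateField F₀ Ω} {D D' E : V.Dv} {x : Ω}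

/-- a common denominator for finitely many elements -/
theorem Fd_clear [FiniteDimensional F₀ F] {d : ℕ} {θ : Fin d → Ω} (hθ : ∀ i, θ i ∈ F) :
    ∃ (c : ℕ) (z : F₀), z ≠ 0 ∧ ∀ i, θ i * algebraMap F₀ Ω z ∈ V.Γ F (c • V.H) := by
  obtain ⟨c, z, hz, h1, -⟩ := (Base.IsDiv.sum (B := V.toBase) (s := Finset.univ)
    fun i _ => (Base.isDiv_dv (hθ i)).neg.posPart).exists_bound
  refine ⟨c, z, hz, fun i => (Base.mul_mem_Γ_iff (F.algebraMap_mem z) (by simpa using hz)).mpr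
    (Base.Γ_mono (le_trans ?_ h1) (Base.mem_Γ_dv (hθ i)))⟩
  exact (le_posPart _).trans (Finset.single_le_sum (f := fun i => (-V.dv (θ i))⁺)
    (fun _ _ => posPart_nonneg _) (Finset.mem_univ i))

/-- multiplication by an element -/
theorem Fd_mul {G : ℕ → V.Dv} (h : Tame V.ν fun b => V.Γ F (G b)) (hx : x ∈ F) (h0 : x ≠ 0) :
    (Tame V.ν fun b => V.Γ F (G b + V.dv x)) ∧
      (vd V.ν fun b => V.Γ F (G b + V.dv x)) ≤ vd V.ν fun b => V.Γ F (G b) :=
  h.of_inj (fun _ => LinearMap.mulRight k x) (fun _ _ hy => (Base.mul_mem_Γ_iff hx h0).mpr hy)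
    fun _ _ _ hy => (mul_eq_zero.mp hy).resolve_right h0

/-- the coordinates with respect to the dual basis -/
theorem Fd_down (T : TrData F F') {c : ℕ} {z : F₀} (hz : z ≠ 0)
    (hc : ∀ i, T.θ i * algebraMap F₀ Ω z ∈ V.Γ F' (c • V.H)) {G : ℕ → V.Dv}
    (hG : ∀ b, V.IsDiv F (G b)) (h : Tame V.ν fun b => V.Γ F (G b + c • V.H)) :
    (Tame V.ν fun b => V.Γ F' (G b)) ∧
      (vd V.ν fun b => V.Γ F' (G b)) ≤ T.d * vd V.ν fun b => V.Γ F (G b + c • V.H) := by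
  obtain ⟨h1, h2⟩ := vd_pi (ι := Fin T.d) fun _ => h
  rw [Finset.sum_const, Finset.card_univ, Fintype.card_fin, nsmul_eq_mul T.d] at h2
  rw [← h2]
  refine h1.of_inj (fun _ => LinearMap.pi fun i =>
    T.tr k ∘ₗ LinearMap.mulRight k (T.θ i * algebraMap F₀ Ω z)) (fun b y hy i _ => ?_)
    fun b y hy h0 => ?_
  · exact T.tr_mem_Γ ((hG b).add ((Base.isDiv_H F).nsmul c)) (Base.mul_mem_Γ hy (hc i))
  · rw [T.dual y hy.1]
    refine Finset.sum_eq_zero fun i _ => ?_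
    have h3 : T.tr k (y * (T.θ i * algebraMap F₀ Ω z)) = 0 := congrFun h0 i
    rw [← mul_assoc, mul_comm, T.tr_mul (F.algebraMap_mem z), T.tr_apply] at h3
    rw [(mul_eq_zero.mp h3).resolve_left (by simpa using hz), zero_mul]

/-- linear combinations of the basis -/
theorem Fd_up (hle : F ≤ F') (T : TrData F F') {c : ℕ} {z : F₀} (hz : z ≠ 0)
    (hc : ∀ i, T.θ i * algebraMap F₀ Ω z ∈ V.Γ F' (c • V.H)) {G : ℕ → V.Dv}
    (h : Tame V.ν fun b => V.Γ F (G b)) (h' : Tame V.ν fun b => V.Γ F' (G b + c • V.H)) :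
    (T.d * vd V.ν fun b => V.Γ F (G b)) ≤ vd V.ν fun b => V.Γ F' (G b + c • V.H) := by
  obtain ⟨-, h2⟩ := vd_pi (ι := Fin T.d) fun _ => h
  rw [Finset.sum_const, Finset.card_univ, Fintype.card_fin, nsmul_eq_mul] at h2
  rw [← h2]
  refine (h'.of_inj (fun _ => ∑ i, LinearMap.mulRight k (T.θ i * algebraMap F₀ Ω z) ∘ₗ
    LinearMap.proj i) (fun b y hy => ?_) fun b y hy h0 => ?_).2
  · rw [LinearMap.sum_apply]
    exact Submodule.sum_mem _ fun i _ =>
      Base.mul_mem_Γ (Base.Γ_mono_field hle le_rfl (hy i trivial)) (hc i)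
  · have h3 : (∑ i, y i * T.θ i) * algebraMap F₀ Ω z = 0 := by
      rw [← h0, LinearMap.sum_apply, Finset.sum_mul]
      exact Finset.sum_congr rfl fun i _ => mul_assoc _ _ _
    exact funext (T.indep y (fun i => (hy i trivial).1)
      ((mul_eq_zero.mp h3).resolve_right (by simpa using hz)))

/-- Sketch: `T : TrData V.K F`; `exists_bound` gives `c`, `z` with `D ≤ c H + dv z` and `c'`, `z'` with
`θ i * z' ∈ Γ F (c' H)`; `x ↦ fun i => tr (x * z * z' * θ i)` is injective (`T.dual`) into a product of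
copies of `Γ K ((c + c') H + b L)` (`tr_mem_Γ`); `Tame.of_inj`, `vd_pi`, `V.tame`. -/
theorem Ok.tame (hF : V.Ok F) (hD : V.IsDiv F D) : Tame V.ν fun b => V.Γ F (D + b • V.L) := by
  have := hF.fin
  obtain ⟨T⟩ := exists_trData hF.le
  obtain ⟨c', z', hz', hc'⟩ := Fd_clear (V := V) T.θ_mem
  obtain ⟨c, z, hz, h1, -⟩ := hD.exists_bound
  have h2 := (Fd_down T hz' hc' (G := fun b => c • V.H + b • V.L)
    (fun b => ((Base.isDiv_H _).nsmul c).add (V.hL.nsmul b))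
    (by simpa only [add_nsmul, add_right_comm] using V.tame (c + c'))).1
  refine (Fd_mul h2 (F.algebraMap_mem z) (by simpa using hz)).1.mono fun b => Base.Γ_mono ?_
  rw [add_right_comm]
  gcongr

theorem Ok.f_nonneg (hF : V.Ok F) (hD : V.IsDiv F D) : 0 ≤ V.f F D :=
  div_nonneg (vd_nonneg (hF.tame hD)) hF.pos.le

theorem Ok.f_mono (hF : V.Ok F) (hD' : V.IsDiv F D') (h : D ≤ D') : V.f F D ≤ V.f F D' :=
  div_le_div_of_nonneg_right (vd_mono (hF.tame hD') fun _ => Base.Γ_mono (by gcongr)) hF.pos.le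

/-- Sketch: multiplication by `x` and by `x⁻¹`, `mul_mem_Γ_iff`, `Tame.of_inj`. -/
theorem Ok.f_dv (hF : V.Ok F) (hD : V.IsDiv F D) (hx : x ∈ F) (h0 : x ≠ 0) :
    V.f F (D + V.dv x) = V.f F D := by
  have h1 := (Fd_mul (hF.tame hD) hx h0).2
  have h2 := (Fd_mul (hF.tame (hD.add (Base.isDiv_dv hx))) (inv_mem hx) (inv_ne_zero h0)).2
  have e1 : ∀ b : ℕ, D + b • V.L + V.dv x = D + V.dv x + b • V.L := fun b => add_right_comm _ _ _
  have e2 : ∀ b : ℕ, D + V.dv x + b • V.L + V.dv x⁻¹ = D + b • V.L := fun b => by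
    rw [Base.dv_inv]
    abel
  simp only [e1] at h1
  simp only [e2] at h2
  unfold f
  rw [le_antisymm h1 h2]

/-- Sketch: `vd_shift`. -/
theorem Ok.f_L (hF : V.Ok F) (hD : V.IsDiv F D) (a : ℤ) : V.f F (D + a • V.L) = V.f F D := by
  have key : ∀ {D : V.Dv}, V.IsDiv F D → ∀ n : ℕ, V.f F (D + n • V.L) = V.f F D := fun {D} hD n => by
    have e : ∀ b : ℕ, D + n • V.L + b • V.L = D + (b + n) • V.L := fun b => by
      rw [add_nsmul]
      abel
    unfold f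
    simp only [e]
    rw [(vd_shift (hF.tame hD) n).2]
  obtain ⟨n, rfl | rfl⟩ := a.eq_nat_or_neg
  · rw [natCast_zsmul, key hD]
  · rw [← key (hD.add (hF.hL.zsmul (-n))) n]
    simp

/-- supermodularity; `Γ_inf`, `vd_sup_add_inf` -/
theorem Ok.f_super (hF : V.Ok F) (hD : V.IsDiv F D) (hD' : V.IsDiv F D') :
    V.f F D + V.f F D' ≤ V.f F (D ⊔ D') + V.f F (D ⊓ D') := by
  have h1 := vd_sup_add_inf (hF.tame hD) (hF.tame hD')
  have h2 : (vd V.ν fun b => V.Γ F (D + b • V.L) ⊔ V.Γ F (D' + b • V.L)) ≤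
      vd V.ν fun b => V.Γ F (D ⊔ D' + b • V.L) :=
    vd_mono (hF.tame (hD.sup hD')) fun b => sup_le (Base.Γ_mono (by gcongr; exact le_sup_left))
      (Base.Γ_mono (by gcongr; exact le_sup_right))
  have e : ∀ b : ℕ, V.Γ F (D + b • V.L) ⊓ V.Γ F (D' + b • V.L) = V.Γ F (D ⊓ D' + b • V.L) :=
    fun b => by rw [← Base.Γ_inf, inf_add]
  simp only [e] at h1
  unfold f
  rw [← add_div, ← add_div]
  exact div_le_div_of_nonneg_right (by linarith) hF.pos.le

/-- increments grow -/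
theorem Ok.f_incr (hF : V.Ok F) (hD : V.IsDiv F D) (hD' : V.IsDiv F D') (hE : V.IsDiv F E)
    (h0 : 0 ≤ E) (h : D ≤ D') (he : ∀ v, E v ≠ 0 → D v = D' v) :
    V.f F (D + E) - V.f F D ≤ V.f F (D' + E) - V.f F D' := by
  have h1 := hF.f_super (hD.add hE) hD'
  have e1 : (D + E) ⊔ D' = D' + E := funext fun v => by
    by_cases hv : E v = 0
    · simpa [hv] using h v
    · simpa [he v hv] using h0 v
  have e2 : (D + E) ⊓ D' = D := funext fun v => by
    by_cases hv : E v = 0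
    · simpa [hv] using h v
    · simpa [he v hv] using h0 v
  rw [e1, e2] at h1
  linarith

/-- Change of field. Sketch: `T : TrData F F'`, `θ i * z ∈ Γ F' (c H)`; the maps
`(x i) ↦ ∑ x i * (θ i * z)` (injective by `T.indep`) and `x ↦ fun i => tr (x * (θ i * z))`. -/
theorem Ok.sandwich (hF : V.Ok F) (hF' : V.Ok F') (h : F ≤ F') : ∃ c : ℕ, ∀ D, V.IsDiv F D →
    V.f F (D - c • V.H) ≤ V.f F' D ∧ V.f F' D ≤ V.f F (D + c • V.H) := by
  have := hF'.fin
  obtain ⟨T⟩ := exists_trData h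
  obtain ⟨c, z, hz, hc⟩ := Fd_clear (V := V) T.θ_mem
  have hd : (0 : ℝ) < T.d := by exact_mod_cast T.pos
  have hH := (Base.isDiv_H (B := V.toBase) F).nsmul c
  refine ⟨c, fun D hD => ⟨?_, ?_⟩⟩
  · have e : ∀ b : ℕ, D - c • V.H + b • V.L + c • V.H = D + b • V.L := fun b => by abel
    have h1 := Fd_up h T hz hc (hF.tame (hD.sub hH)) (by simpa only [e] using hF'.tame (hD.mono h))
    simp only [e] at h1
    unfold f
    rw [T.rank, Nat.cast_mul, ← mul_div_mul_left _ _ hd.ne']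
    exact div_le_div_of_nonneg_right h1 (mul_pos hd hF.pos).le
  · have e : ∀ b : ℕ, D + b • V.L + c • V.H = D + c • V.H + b • V.L := fun b => add_right_comm _ _ _
    have h1 := (Fd_down T hz hc (G := fun b => D + b • V.L) (fun b => hD.add (hF.hL.nsmul b))
      (by simpa only [e] using hF.tame (hD.add hH))).2
    simp only [e] at h1
    unfold f
    rw [T.rank, Nat.cast_mul, ← mul_div_mul_left _ (finrank F₀ F : ℝ) hd.ne']
    exact div_le_div_of_nonneg_right h1 (mul_pos hd hF.pos).le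

theorem Ok.map (hF : V.Ok F) {σ : Ω ≃ₐ[F₀] Ω} (hσ : ∀ x ∈ V.K, σ x = x) :
    V.Ok (F.map (σ : Ω →ₐ[F₀] Ω)) := by
  have := hF.fin
  exact ⟨fun x hx => ⟨x, hF.le hx, hσ x hx⟩,
    (IntermediateField.equivMap F (σ : Ω →ₐ[F₀] Ω)).toLinearEquiv.finiteDimensional⟩

/-- Galois invariance; `map_mem_Γ` -/
theorem Ok.f_act (hF : V.Ok F) {σ : Ω ≃ₐ[F₀] Ω} (hσ : ∀ x ∈ V.K, σ x = x) (D : V.Dv) :
    V.f (F.map (σ : Ω →ₐ[F₀] Ω)) (D ∘ Base.act σ) = V.f F D := by
  have e : ∀ b : ℕ, V.Γ (F.map (σ : Ω →ₐ[F₀] Ω)) (D ∘ Base.act σ + b • V.L) =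
      (V.Γ F (D + b • V.L)).map (σ.toLinearEquiv.restrictScalars k : Ω →ₗ[k] Ω) := fun b => by
    have e1 : D ∘ Base.act σ + b • V.L = (D + b • V.L) ∘ Base.act σ := by
      conv_lhs => rw [← V.hL.comp_act_eq hσ]
      rfl
    ext y
    obtain ⟨x, rfl⟩ := σ.surjective y
    rw [e1, Base.map_mem_Γ]
    exact ⟨fun h => ⟨x, h, rfl⟩, fun ⟨x', h, e⟩ => (σ.injective e : x' = x) ▸ h⟩
  have e' : ∀ b : ℕ, finrank k (V.Γ (F.map (σ : Ω →ₐ[F₀] Ω)) (D ∘ Base.act σ + b • V.L)) =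
      finrank k (V.Γ F (D + b • V.L)) := fun b => by rw [e, LinearEquiv.finrank_map_eq]
  unfold f vd
  simp only [e']
  rw [(IntermediateField.equivMap F (σ : Ω →ₐ[F₀] Ω)).toLinearEquiv.finrank_eq]

/-- `V.lin` and `sandwich` -/
theorem Ok.lin (hF : V.Ok F) : ∃ C : ℝ, ∀ m : ℕ, |V.f F (m • V.H) - m * V.δ| ≤ C := by
  obtain ⟨c, hc⟩ := V.ok_K.sandwich hF hF.le
  obtain ⟨C, hC⟩ : ∃ C : ℝ, ∀ m : ℕ, |V.f V.K (m • V.H) - m * V.δ| ≤ C := V.lin
  have hC0 : 0 ≤ C := (abs_nonneg _).trans (hC 0)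
  refine ⟨C + c * |V.δ|, fun m => ?_⟩
  obtain ⟨h1, h2⟩ := hc _ ((Base.isDiv_H _).nsmul m)
  have a1 := mul_le_mul_of_nonneg_left (le_abs_self V.δ) (Nat.cast_nonneg (α := ℝ) c)
  refine abs_le.mpr ⟨?_, ?_⟩
  · rcases le_total c m with h | h
    · obtain ⟨n, rfl⟩ := Nat.exists_eq_add_of_le' h
      rw [add_nsmul, add_sub_cancel_right, ← add_nsmul] at h1
      have := (abs_le.mp (hC n)).1
      push_cast
      linarith
    · have h3 := hF.f_nonneg ((Base.isDiv_H _).nsmul m)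
      have h4 : (m : ℝ) * V.δ ≤ c * |V.δ| :=
        (mul_le_mul_of_nonneg_left (le_abs_self V.δ) (Nat.cast_nonneg m)).trans
          (mul_le_mul_of_nonneg_right (by exact_mod_cast h) (abs_nonneg _))
      linarith
  · rw [← add_nsmul] at h2
    have := (abs_le.mp (hC (m + c))).2
    push_cast at this
    linarith

theorem Ok.exists_sec (hF : V.Ok F) (hD : V.IsDiv F D) (h : 0 < V.f F D) :
    ∃ᶠ b : ℕ in atTop, ∃ x ∈ V.Γ F (D + b • V.L), x ≠ 0 :=
  (frequently_ne_bot (hF.tame hD) ((div_pos_iff_of_pos_right hF.pos).mp h)).mono fun _ hb =>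
    Submodule.exists_mem_ne_zero_of_ne_bot hb

end VC

end Pool.Agent.Lib.MP_bc213e_ag.KBV
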