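import Pool.Agent.Lib.MP_bc213e_ag.KBV.Sg2
import Pool.Agent.Lib.MP_bc213e_ag.KBV.ChiB

/-!
The absolute Siegel lemma.
-/

set_option linter.unusedSectionVars false

namespace Pool.Agent.Lib.MP_bc213e_ag.KBV
open Module Filter Topology

variable {k F₀ Ω : Type} [Field k] [Field F₀] [Field Ω] [Algebra k F₀] [Algebra F₀ Ω]
  [Algebra k Ω] [IsScalarTower k F₀ Ω] [IsAlgClosure F₀ Ω] [CharZero k] [CharZero F₀] [CharZero Ω]

namespace VC
variable {V : VC k F₀ Ω} {F : IntermediateField F₀ Ω} {I : Type} [Fintype I]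
  {D : I → V.Dv} {W : Submodule Ω (I → Ω)}

/-- Sketch: induction on the rank, generalizing `I`, `F`, `m`. Let `m'` be the supremum of the degrees
of all lines; choose `s` of degree `> m' - ε`, enlarge the field (`degB_field`); by `sg2` all lines
of the quotient have degree `≤ m' + ε`; `degB_add`. -/
theorem Bun.sgr (h : V.Bun F D W) (hδ : 0 < V.δ) {m : ℝ}
    (hm : ∀ s ∈ W, s ≠ 0 → V.deg (V.nrm D s) ≤ m) : V.degB F D W ≤ finrank Ω W * m := by
  generalize hr : finrank Ω W = r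
  induction r generalizing I F m with
  | zero =>
    rw [Submodule.finrank_eq_zero.mp hr, degB_bot]
    simp
  | succ r ih =>
    obtain ⟨s₀, hs₀, hs₀', -⟩ := h.rat.exists (by rintro rfl; simp at hr)
    set S : Set ℝ := {a | ∃ s ∈ W, s ≠ 0 ∧ V.deg (V.nrm D s) = a} with hS
    have hne : S.Nonempty := ⟨_, s₀, hs₀, hs₀', rfl⟩
    have hub : m ∈ upperBounds S := by
      rintro _ ⟨s, h1, h2, rfl⟩
      exact hm s h1 h2
    have hle : ∀ s ∈ W, s ≠ 0 → V.deg (V.nrm D s) ≤ sSup S := fun s h1 h2 =>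
      le_csSup ⟨m, hub⟩ ⟨s, h1, h2, rfl⟩
    have hm' : sSup S ≤ m := csSup_le hne hub
    refine le_of_forall_pos_le_add fun ε hε => ?_
    have hε' : 0 < ε / (r + 1) := by positivity
    obtain ⟨_, ⟨s, hs, hs0, rfl⟩, hlt⟩ := exists_lt_of_lt_csSup hne (sub_lt_self (sSup S) hε')
    obtain ⟨F', k1, k2, k3⟩ := h.ok.exists_field_fun s
    have h' := h.mono k1 k2
    have key := ih (h'.quot k3) (m := sSup S + ε / (r + 1)) (by
      rintro _ ⟨t, ht, rfl⟩ hk
      obtain ⟨F'', l1, l2, l3⟩ := k2.exists_field_fun t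
      have := l2.sg2 hδ (fun i => (h'.div i).mono l1) (fun i => l1 (k3 i)) l3 hs0 hk
        (hle s hs hs0) fun c => hle _ (W.sub_mem ht (W.smul_mem c hs)) fun e =>
          hk ((kos_eq_zero_iff hs0).2 ⟨c, sub_eq_zero.1 e⟩)
      linarith) (by have := finrank_kos hs hs0; omega)
    rw [← h.degB_field k1 k2, h'.degB_add hs hs0 k3]
    have e1 : (r : ℝ) * (ε / (r + 1)) ≤ ε := by
      rw [← mul_div_assoc, div_le_iff₀ (by positivity)]
      nlinarith
    have e2 : (r : ℝ) * sSup S ≤ r * m := mul_le_mul_of_nonneg_left hm' (Nat.cast_nonneg r)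
    have e3 := hm s hs hs0
    push_cast
    nlinarith

end VC

end Pool.Agent.Lib.MP_bc213e_ag.KBV
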