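import Pool.Agent.Lib.MP_bc213e_ag.KBV.ChiB

/-!
Vanishing descends along a finite cover.
-/

set_option linter.unusedSectionVars false

namespace Pool.Agent.Lib.MP_bc213e_ag.KBV
open Module Filter Topology

variable {k F₀ Ω : Type} [Field k] [Field F₀] [Field Ω] [Algebra k F₀] [Algebra F₀ Ω]
  [Algebra k Ω] [IsScalarTower k F₀ Ω] [IsAlgClosure F₀ Ω] [CharZero k] [CharZero F₀] [CharZero Ω]

namespace VC
variable {V : VC k F₀ Ω} {F F' : IntermediateField F₀ Ω} {I : Type} [Fintype I]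
  {D : I → V.Dv} {W : Submodule Ω (I → Ω)} {A A' : V.Dv}

theorem TrS_inf (D D' : I → V.Dv) :
    V.ΓB F D W ⊓ V.ΓB F D' W = V.ΓB F (fun i => D i ⊓ D' i) W := by
  ext x
  simp only [Submodule.mem_inf, Base.mem_ΓB, Base.Γ_inf]
  exact ⟨fun h => ⟨h.1.1, fun i => ⟨h.1.2 i, h.2.2 i⟩⟩,
    fun h => ⟨⟨h.1, fun i => (h.2 i).1⟩, h.1, fun i => (h.2 i).2⟩⟩

theorem TrS_mono {D D' : I → V.Dv} (hF : F ≤ F') (h : ∀ i, D i ≤ D' i) :
    V.ΓB F D W ≤ V.ΓB F' D' W := fun _ hx =>
  Base.mem_ΓB.2 ⟨(Base.mem_ΓB.1 hx).1,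
    fun i => Base.Γ_mono_field hF (h i) ((Base.mem_ΓB.1 hx).2 i)⟩

/-- as `Ok.defect` -/
theorem Bun.defect (h : V.Bun F D W) (hA : V.IsDiv F A) (hA' : V.IsDiv F A') (hd : A ⊓ A' = 0) :
    (vd V.ν (fun b => V.ΓB F (fun i => D i + (A + A') + b • V.L) W) -
      vd V.ν fun b => V.ΓB F (fun i => D i + A + b • V.L) W ⊔
        V.ΓB F (fun i => D i + A' + b • V.L) W) / finrank F₀ F =
    V.sigB F (fun i => D i + (A + A')) W - V.sigB F (fun i => D i + A) W -
      V.sigB F (fun i => D i + A') W + V.sigB F D W := by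
  have h1 := vd_sup_add_inf (h.tw hA).tame (h.tw hA').tame
  have h2 : ∀ b : ℕ, V.ΓB F (fun i => D i + A + b • V.L) W ⊓
      V.ΓB F (fun i => D i + A' + b • V.L) W = V.ΓB F (fun i => D i + b • V.L) W := fun b => by
    rw [TrS_inf]
    congr 1
    funext i
    rw [← inf_add, ← add_inf, hd, add_zero]
  simp only [h2] at h1
  simp only [sigB, fB, h.chiB_tw (hA.add hA'), h.chiB_tw hA, h.chiB_tw hA', h.ok.deg_add hA hA']
  rw [← eq_sub_iff_add_eq] at h1
  rw [h1]
  ring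

theorem TrS_tr (T : TrData F F') (h : V.Bun F D W) (hF' : V.Ok F') {y : I → Ω}
    (hy : y ∈ V.ΓB F' (fun i => D i + (V.Cod F' - V.Cod F)) W) :
    (fun i => T.tr k (y i)) ∈ V.ΓB F D W := by
  have := h.ok.fin
  have := hF'.fin
  obtain ⟨h1, h2⟩ := Base.mem_ΓB.1 hy
  refine Base.mem_ΓB.2 ⟨?_, fun i => Base.tr_mem_Cod T (h.div i) (h2 i)⟩
  have e : (fun i => T.tr k (y i)) = ∑ l, fun i => T.σ l (y i) := by
    funext i
    rw [T.tr_apply, Finset.sum_apply]
  rw [e]
  exact W.sum_mem fun l _ => h.rat.act (T.fix l) h1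

theorem TrS_dv (h : V.Bun F D W) (m : ℕ) {z : F₀} (hz : z ≠ 0)
    (hA : A = m • V.H + V.dv (algebraMap F₀ Ω z)) :
    V.sigB F (fun i => D i + A) W = V.sigB F (fun i => D i + m • V.H) W := by
  rw [← (h.tw ((Base.isDiv_H F).nsmul m)).sigB_dv (F.algebraMap_mem z)
    ((map_ne_zero _).2 hz), hA]
  simp only [add_assoc]

theorem TrS_step (h : V.Bun F D W) (hle : F ≤ F') (hF' : V.Ok F') (hA : V.IsDiv F A)
    (hA' : V.IsDiv F A') (h0 : 0 ≤ A) (h0' : 0 ≤ A') (hd : A ⊓ A' = 0)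
    (h1 : V.sigB F' (fun i => D i + (V.Cod F' - V.Cod F) + (A + A')) W ≤ 0)
    (h2 : V.sigB F' (fun i => D i + (V.Cod F' - V.Cod F)) W ≤ 0) :
    V.sigB F D W ≤ V.sigB F (fun i => D i + A) W + V.sigB F (fun i => D i + A') W := by
  have := h.ok.fin
  have := hF'.fin
  obtain ⟨T⟩ := exists_trData hle
  have hR : V.IsDiv F' (V.Cod F' - V.Cod F) :=
    (Base.isDiv_Cod F').sub ((Base.isDiv_Cod F).mono hle)
  have hR0 : 0 ≤ V.Cod F' - V.Cod F := sub_nonneg.2 (Base.Cod_mono hle)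
  have h' := (h.mono hle hF').tw hR
  have d1 := h.defect hA hA' hd
  have d2 := h'.defect (hA.mono hle) (hA'.mono hle) hd
  have n1 := (h'.tw (hA.mono hle)).sigB_nonneg
  have n2 := (h'.tw (hA'.mono hle)).sigB_nonneg
  have n3 := (h.tw (hA.add hA')).sigB_nonneg
  have d3 := (div_nonpos_iff.1 (d2.trans_le (by linarith))).resolve_left fun h3 =>
    absurd hF'.pos (not_lt.2 h3.2)
  have c1 := vd_cond (h.tw (hA.add hA')).tame (h'.tw ((hA.add hA').mono hle)).tame
    (C := fun b => V.ΓB F' (fun i => D i + (V.Cod F' - V.Cod F) + A + b • V.L) W ⊔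
      V.ΓB F' (fun i => D i + (V.Cod F' - V.Cod F) + A' + b • V.L) W) (fun _ => LinearMap.id)
    (fun b => TrS_mono hle fun i => by
      gcongr
      exact le_add_of_nonneg_right hR0)
    (fun b => sup_le (TrS_mono le_rfl fun i => by
      gcongr
      exact le_add_of_nonneg_right h0') (TrS_mono le_rfl fun i => by
      gcongr
      exact le_add_of_nonneg_left h0))
  have c2 := c1.trans (vd_mono ((h.tw hA).tame.sup (h.tw hA').tame) fun b x hx => by
    obtain ⟨hx, hy⟩ := Submodule.mem_inf.1 hx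
    obtain ⟨y, hy, y', hy', e⟩ := Submodule.mem_sup.1 (Submodule.mem_comap.1 hy)
    have hL := h.ok.hL.nsmul b
    have t1 := TrS_tr T ((h.tw hA).tw hL) hF' (y := y) (TrS_mono le_rfl (fun i => by
      apply le_of_eq
      abel) hy)
    have t2 := TrS_tr T ((h.tw hA').tw hL) hF' (y := y') (TrS_mono le_rfl (fun i => by
      apply le_of_eq
      abel) hy')
    have e' : (T.d : k) • x = (fun i => T.tr k (y i)) + fun i => T.tr k (y' i) := by
      funext i
      rw [Pi.smul_apply, Pi.add_apply, ← map_add,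
        ← T.tr_of_mem (Base.mem_Γ.1 ((Base.mem_ΓB.1 hx).2 i)).1]
      exact congrArg _ (congrFun e i).symm
    rw [← Submodule.smul_mem_iff _ (Nat.cast_ne_zero.2 T.pos.ne' : (T.d : k) ≠ 0), e']
    exact Submodule.add_mem_sup t1 t2)
  have c3 := div_nonpos_of_nonpos_of_nonneg (sub_nonpos.2 (le_trans (by linarith [d3.1]) c2) :
    vd V.ν (fun b => V.ΓB F (fun i => D i + (A + A') + b • V.L) W) - _ ≤ 0) h.ok.pos.le
  linarith [d1.symm.trans_le c3]

/-- Sketch: two different hyperplanes `p`, `p'` (`hyp'`), `A = m • ov p`, `A' = m • ov p'`, both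
equivalent to `m H` (`sigB_dv`). With `D' = D + (Cod F' - Cod F)` the defect of `D'` over `F'` is `0`.
Let `X ⊇ Y` be the two families of `defect` for `F`, `X' ⊇ Y'` those for `F'`. Then `X ≤ X'`
(`Cod_mono`) and `X ⊓ Y' ≤ Y`: apply the trace coordinatewise (`tr_mem_Cod`, `Rat.act`,
`tr_of_mem`). So `vd X - vd Y ≤ vd X' - vd Y' = 0` (`vd_cond` with the identity map). Let
`m → ∞` (`sigB_tendsto`). -/
theorem Bun.tr_step (h : V.Bun F D W) (hle : F ≤ F') (hF' : V.Ok F')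
    (h0 : ∀ m : ℕ, V.sigB F' (fun i => D i + (V.Cod F' - V.Cod F + m • V.H)) W ≤ 0) :
    V.sigB F D W ≤ 0 := by
  obtain ⟨p, -, -, z, hz, e⟩ := Base.hyp' (B := V.toBase) Set.finite_empty
  obtain ⟨p', -, hp, z', hz', e'⟩ := Base.hyp' (B := V.toBase) (Set.finite_singleton p)
  have := h.ok.fin
  have := hF'.fin
  have hR : V.IsDiv F' (V.Cod F' - V.Cod F) :=
    (Base.isDiv_Cod F').sub ((Base.isDiv_Cod F).mono hle)
  have h' := (h.mono hle hF').tw hR
  have h2 : V.sigB F' (fun i => D i + (V.Cod F' - V.Cod F)) W ≤ 0 := by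
    simpa only [zero_smul, add_zero] using h0 0
  have key : ∀ m : ℕ, V.sigB F D W ≤ 2 * V.sigB F (fun i => D i + m • V.H) W := by
    intro m
    have e1 : m • V.ov p = m • V.H + V.dv (algebraMap F₀ Ω (z ^ m)) := by
      rw [map_pow, Base.dv_pow, ← smul_add, e]
    have e2 : m • V.ov p' = m • V.H + V.dv (algebraMap F₀ Ω (z' ^ m)) := by
      rw [map_pow, Base.dv_pow, ← smul_add, e']
    have e3 : m • V.ov p + m • V.ov p' =
        (m + m) • V.H + V.dv (algebraMap F₀ Ω (z ^ m * z' ^ m)) := by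
      rw [e1, e2, map_mul, Base.dv_mul ((map_ne_zero _).2 (pow_ne_zero m hz))
        ((map_ne_zero _).2 (pow_ne_zero m hz')), add_smul]
      abel
    have n1 : 0 ≤ m • V.ov p := nsmul_nonneg (Base.ov_nonneg p) m
    have n2 : 0 ≤ m • V.ov p' := nsmul_nonneg (Base.ov_nonneg p') m
    have hd : m • V.ov p ⊓ m • V.ov p' = 0 := by
      funext v
      rw [Pi.inf_apply, Pi.zero_apply]
      by_cases hv : V.res v = p
      · have h3 : (m • V.ov p') v = 0 := by
          rw [Pi.smul_apply, Base.ov_of_ne (fun h4 => hp (h4.symm.trans hv)), smul_zero]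
        rw [h3]
        exact inf_eq_right.2 (n1 v)
      · have h3 : (m • V.ov p) v = 0 := by rw [Pi.smul_apply, Base.ov_of_ne hv, smul_zero]
        rw [h3]
        exact inf_eq_left.2 (n2 v)
    have h3 := TrS_step h hle hF' ((Base.isDiv_ov F p).nsmul m) ((Base.isDiv_ov F p').nsmul m)
      n1 n2 hd (by
        rw [TrS_dv h' (m + m) (mul_ne_zero (pow_ne_zero m hz) (pow_ne_zero m hz')) e3]
        simpa only [add_assoc] using h0 (m + m)) h2
    rw [TrS_dv h m (pow_ne_zero m hz) e1, TrS_dv h m (pow_ne_zero m hz') e2] at h3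
    linarith
  have lim := h.sigB_tendsto.const_mul 2
  rw [mul_zero] at lim
  exact ge_of_tendsto' lim key

end VC

end Pool.Agent.Lib.MP_bc213e_ag.KBV
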