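import Pool.Agent.Lib.MP_bc213e_ag.KBV.Slope
import Pool.Agent.Lib.MP_bc213e_ag.KBV.Sgr
import Pool.Agent.Lib.MP_bc213e_ag.KBV.TrS

/-!
The key inequality.
-/

set_option linter.unusedSectionVars false

namespace Pool.Agent.Lib.MP_bc213e_ag.KBV
open Module Filter Topology

variable {k F₀ Ω : Type} [Field k] [Field F₀] [Field Ω] [Algebra k F₀] [Algebra F₀ Ω]
  [Algebra k Ω] [IsScalarTower k F₀ Ω] [IsAlgClosure F₀ Ω] [CharZero k] [CharZero F₀] [CharZero Ω]

namespace VC
variable {V : VC k F₀ Ω}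

theorem van (hδ : 0 < V.δ) (nv : V.NV) {N : Type} [Fintype N] {a : N → ℕ} {s : N → Ω}
    (hs : ∀ l, s l ∈ V.K) (ind : V.Indep a s) (r : ℕ) : ∀ (I : Type) [Fintype I]
    (F : IntermediateField F₀ Ω) (D : I → V.Dv) (w : N → I → Ω), V.Ok F → (∀ i, V.IsDiv F (D i)) →
    (∀ l i, w l i ∈ F) → (∀ l i (v : V.P), v.1.Ge (w l i) ((V.H + a l • V.L) v - D i v)) →
    ∑ l, s l • w l = 0 → finrank Ω (Submodule.span Ω (Set.range w)) = r →
    ∃ F', F ≤ F' ∧ V.Ok F' ∧ ∀ F'', F' ≤ F'' → V.Ok F'' → ∀ m : ℕ,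
      V.sigB F'' (fun i => D i + (V.Cod F'' - V.Cod V.K + m • V.H))
        (Submodule.span Ω (Set.range w)) ≤ 0 := by
  induction r with
  | zero =>
    intro I _ F D w hF _ _ _ _ hr
    refine ⟨F, le_rfl, hF, fun F'' _ _ m => ?_⟩
    rw [Submodule.finrank_eq_zero.mp hr, sigB_bot]
  | succ r ih =>
    intro I _ F D w hF hD wF hge rel hr
    have hB : V.Bun F D (Submodule.span Ω (Set.range w)) := ⟨hF, hD, Base.rat_span wF⟩
    have h1 := hF.slope hD hs ind wF hge rel (by intro h; rw [h, finrank_bot] at hr; omega)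
    obtain ⟨t, ht, ht0, hdeg⟩ : ∃ t ∈ Submodule.span Ω (Set.range w), t ≠ 0 ∧
        V.δ < V.deg (V.nrm D t) := by
      by_contra hc
      push Not at hc
      exact absurd (hB.sgr hδ hc) (not_le.mpr h1)
    obtain ⟨F₁, hle, hF₁, htF⟩ := hF.exists_field_fun t
    have hD₁ := fun i => (hD i).mono hle
    have hsp : Submodule.span Ω (Set.range fun l => kos t (w l)) =
        (Submodule.span Ω (Set.range w)).map (kos t) := by
      rw [Submodule.map_span, ← Set.range_comp]
      rfl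
    obtain ⟨F', hle', hF', h⟩ := ih (I × I) F₁ (V.qD D t) (fun l => kos t (w l)) hF₁
      (Base.isDiv_qD hD₁ htF) (fun l => kos_mem htF fun i => hle (wF l i))
      (fun l p v => Base.kos_ge t (hge l · v) p)
      (by simpa only [map_sum, map_smul, map_zero] using congrArg (kos t) rel)
      (by have := finrank_kos ht ht0; rw [hsp]; omega)
    refine ⟨F', hle.trans hle', hF', fun F'' hle'' hF'' m => ?_⟩
    have := hF''.fin
    have := V.finK
    have hle₁ := hle'.trans hle''
    have hC : V.IsDiv F'' (V.Cod F'' - V.Cod V.K) :=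
      (Base.isDiv_Cod _).sub ((Base.isDiv_Cod _).mono hF''.le)
    have hm : V.IsDiv F'' (m • V.H) := (Base.isDiv_H _).nsmul m
    have hN := (Base.isDiv_nrm hD₁ htF).mono hle₁
    have h2 := ((hB.mono (hle.trans hle₁) hF'').tw (hC.add hm)).sigB_le ht ht0
      fun i => hle₁ (htF i)
    have h3 := h F'' hle'' hF'' m
    have h4 := nv F'' _ hF'' hN hdeg
    have h5 := hF''.sig_anti (hN.add hC) (hN.add (hC.add hm))
      (by gcongr; exact le_add_of_nonneg_right (nsmul_nonneg Base.H_nonneg m))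
    rw [Base.nrm_add ht0, Base.qD_add ht0, ← hsp] at h2
    linarith

theorem key (hδ : 0 < V.δ) (nv : V.NV) {N : Type} [Fintype N] {a : N → ℕ} {s : N → Ω} {j : ℕ}
    (hs : ∀ l, s l ∈ V.Γ V.K (j • V.H + a l • V.L)) (ind : V.Indep a s) :
    Fintype.card N * V.sig V.K V.H ≤ V.sig V.K (V.H - j • V.H) := by
  classical
  have hK := V.ok_K
  have hH : V.IsDiv V.K V.H := Base.isDiv_H _
  have hj := hH.sub (hH.nsmul j)
  rcases isEmpty_or_nonempty N with hN | ⟨⟨l₀⟩⟩
  · simpa using hK.sig_nonneg hj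
  have sK := fun l => (hs l).1
  have s0 : s ≠ 0 := fun h => one_ne_zero (α := Ω) (by
    simpa using ind l₀ (Pi.single l₀ 1) (fun l => by
      rcases eq_or_ne l l₀ with rfl | hl
      · simpa using Vert.one V.K
      · simpa [hl] using Vert.zero V.K _) (by simp [h]))
  have hD : ∀ l, V.IsDiv V.K (V.H + a l • V.L) := fun l => hH.add (V.hL.nsmul _)
  have hB : V.Bun V.K (fun l => V.H + a l • V.L) ⊤ := ⟨hK, hD, Base.rat_top⟩
  have hsp : Submodule.span Ω (Set.range fun l => kos s (Pi.single l 1)) =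
      (⊤ : Submodule Ω (N → Ω)).map (kos s) := by
    rw [← (Pi.basisFun Ω N).span_eq, Submodule.map_span, ← Set.range_comp]
    congr 2
  have e1 : ∀ l i, (Pi.single l 1 : N → Ω) i ∈ V.K := fun l i => by
    rw [Pi.single_apply]
    split_ifs
    exacts [one_mem _, zero_mem _]
  obtain ⟨F', hle, hF', h⟩ := van hδ nv sK ind _ (N × N) V.K (V.qD (fun l => V.H + a l • V.L) s)
    (fun l => kos s (Pi.single l 1)) hK (Base.isDiv_qD hD sK) (fun l => kos_mem sK (e1 l))
    (fun l p v => Base.kos_ge s (fun i => by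
      rcases eq_or_ne i l with rfl | hl
      · simpa using v.1.ge_one
      · simp [hl]) p)
    (by
      simp only [← map_smul, ← map_sum]
      rw [← kos_self s]
      congr 1
      funext i
      simp [Finset.sum_apply, Pi.single_apply]) rfl
  rw [hsp] at h
  have h1 := (hB.quot sK).tr_step hle hF' (h F' le_rfl hF')
  have h2 := hB.sigB_le trivial s0 sK
  have h3 := hK.sig_anti hj (Base.isDiv_nrm hD sK) fun v => (Base.le_nrm_iff s0).mpr fun l =>
    ((Base.mem_Γ.mp (hs l)).2 v).mono (by simp; linarith)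
  have h4 : ∀ l, V.sig V.K (V.H + a l • V.L) = V.sig V.K V.H := fun l => by
    simpa using hK.sig_L hH (a l)
  rw [hB.sigB_top, Finset.sum_congr rfl fun l _ => h4 l, Finset.sum_const, Finset.card_univ,
    nsmul_eq_mul] at h2
  linarith

end VC

end Pool.Agent.Lib.MP_bc213e_ag.KBV
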