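import Pool.Agent.Lib.MP_bc213e_ag.KBV.Vd

/-!
Elementary facts on divisors that are used for the output of the virtual curve.
-/

set_option linter.unusedSectionVars false

namespace Pool.Agent.Lib.MP_bc213e_ag.KBV
open Module Filter Topology

variable {k F₀ Ω : Type} [Field k] [Field F₀] [Field Ω] [Algebra k F₀] [Algebra F₀ Ω]
  [Algebra k Ω] [IsScalarTower k F₀ Ω] [IsAlgClosure F₀ Ω] [CharZero k]

namespace Base
variable {B : Base k F₀ Ω} {K : IntermediateField F₀ Ω} {D E : B.Dv}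

theorem out_zero : B.IsDiv K 0 :=
  ⟨⟨∅, Set.finite_empty, fun _ h => absurd rfl h⟩, fun _ _ _ => rfl,
    fun _ => ⟨1, one_mem _, one_ne_zero, by simp⟩⟩

theorem out_add (hD : B.IsDiv K D) (hE : B.IsDiv K E) : B.IsDiv K (D + E) := by
  obtain ⟨S, hS, h1⟩ := hD.fin
  obtain ⟨T, hT, h2⟩ := hE.fin
  refine ⟨⟨S ∪ T, hS.union hT, fun v hv => ?_⟩, fun v w h => ?_, fun v => ?_⟩
  · by_contra hc
    rw [Set.mem_union, not_or] at hc
    apply hv
    have e1 : D v = 0 := by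
      by_contra h
      exact hc.1 (h1 v h)
    have e2 : E v = 0 := by
      by_contra h
      exact hc.2 (h2 v h)
    rw [Pi.add_apply, e1, e2, add_zero]
  · rw [Pi.add_apply, Pi.add_apply, hD.same v w h, hE.same v w h]
  · obtain ⟨x, hx, x0, e1⟩ := hD.val v
    obtain ⟨y, hy, y0, e2⟩ := hE.val v
    exact ⟨x * y, mul_mem hx hy, mul_ne_zero x0 y0, by
      rw [Pi.add_apply, e1, e2, v.1.ord_mul x0 y0]⟩

theorem out_zsmul (hD : B.IsDiv K D) (n : ℤ) : B.IsDiv K (n • D) := by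
  obtain ⟨S, hS, h1⟩ := hD.fin
  refine ⟨⟨S, hS, fun v hv => h1 v fun h => hv ?_⟩, fun v w h => ?_, fun v => ?_⟩
  · rw [Pi.smul_apply, h, smul_zero]
  · rw [Pi.smul_apply, Pi.smul_apply, hD.same v w h]
  · obtain ⟨x, hx, x0, e1⟩ := hD.val v
    exact ⟨x ^ n, zpow_mem hx n, zpow_ne_zero n x0, by
      rw [Pi.smul_apply, e1, QVal.ord_zpow, zsmul_eq_mul]⟩

theorem out_nsmul (hD : B.IsDiv K D) (n : ℕ) : B.IsDiv K (n • D) := by
  rw [← natCast_zsmul]
  exact out_zsmul hD n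

theorem out_neg (hD : B.IsDiv K D) : B.IsDiv K (-D) := by
  rw [← neg_one_zsmul]
  exact out_zsmul hD (-1)

theorem out_sub (hD : B.IsDiv K D) (hE : B.IsDiv K E) : B.IsDiv K (D - E) := by
  rw [sub_eq_add_neg]
  exact out_add hD (out_neg hE)

theorem out_dv {x : Ω} (hx : x ∈ K) (h0 : x ≠ 0) : B.IsDiv K (B.dv x) := by
  have ha : IsAlgebraic F₀ x := Algebra.IsAlgebraic.isAlgebraic x
  refine ⟨⟨⋃ i ∈ Finset.range ((minpoly F₀ x).natDegree + 1),
    {p | p ∈ B.Pl ∧ p.ord ((minpoly F₀ x).coeff i) ≠ 0},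
    Set.Finite.biUnion (Finset.finite_toSet _) fun i _ => B.fin _, fun v hv => ?_⟩,
    fun v w h => h x hx, fun v => ⟨x, hx, h0, rfl⟩⟩
  by_contra hc
  simp only [Set.mem_iUnion, not_exists] at hc
  have h1 : ∀ i ∈ Finset.range ((minpoly F₀ x).natDegree + 1),
      v.1.ord (algebraMap F₀ Ω ((minpoly F₀ x).coeff i)) = 0 := fun i hi => by
    by_contra h
    exact hc i hi ⟨v.2, h⟩
  obtain ⟨i, hi, j, hj, hij, h2, h3, h4, -⟩ := QVal.exists_two_min (V := v.1) (ext_sum F₀ x)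
    (Finset.self_mem_range_succ _) (ext_top ha h0)
  rw [v.1.ord_mul (left_ne_zero_of_mul h2) (pow_ne_zero _ h0),
    v.1.ord_mul (left_ne_zero_of_mul h3) (pow_ne_zero _ h0), h1 i hi, h1 j hj, QVal.ord_pow,
    QVal.ord_pow, zero_add, zero_add] at h4
  have h5 : ((i : ℚ) - j) * v.1.ord x = 0 := by linarith
  refine hv ((mul_eq_zero.1 h5).resolve_left ?_)
  rw [sub_eq_zero]
  exact_mod_cast hij

theorem out_same_res {v w : B.P} (h : B.Same K v w) : B.res v = B.res w := by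
  ext x
  exact h _ (K.algebraMap_mem x)

theorem out_unif : ∃ z : F₀, z ≠ 0 ∧ B.inf.ord z = 1 := by
  obtain ⟨p, hp, h1, z, z0, h2⟩ := B.hyp {B.inf} (Set.finite_singleton _)
  have h3 := h2 B.inf B.inf_mem
  rw [if_pos rfl, if_neg (fun h => h1 (by rw [← h]; rfl))] at h3
  exact ⟨z⁻¹, inv_ne_zero z0, by rw [QVal.ord_inv]; linarith⟩

theorem out_H : B.IsDiv K B.H := by
  refine ⟨⟨{B.inf}, Set.finite_singleton _, fun v hv => ?_⟩, fun v w h => ?_, fun v => ?_⟩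
  · by_contra hc
    exact hv (if_neg hc)
  · have e := out_same_res h
    by_cases hv : B.res v = B.inf
    · simp [H, ov, hv, e ▸ hv]
    · simp [H, ov, hv, e ▸ hv]
  · by_cases hv : B.res v = B.inf
    · obtain ⟨z, z0, hz⟩ := out_unif (B := B)
      refine ⟨algebraMap F₀ Ω z, K.algebraMap_mem z, by simpa using z0, ?_⟩
      rw [← hv] at hz
      simp only [H, ov, if_pos hv]
      exact hz.symm
    · exact ⟨1, one_mem _, one_ne_zero, by simp [H, ov, hv]⟩

theorem out_H_nonneg : 0 ≤ B.H := fun v => by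
  simp only [H, ov, Pi.zero_apply]
  split_ifs <;> norm_num

open Classical in
/-- the function with value `q` on the valuations that agree with `w` on `K` -/
noncomputable def outPt (K : IntermediateField F₀ Ω) (w : B.P) (q : ℚ) : B.Dv :=
  fun v => if B.Same K v w then q else 0

theorem out_pt_same {v w : B.P} {q : ℚ} (h : B.Same K v w) : outPt K w q v = q := if_pos h

theorem out_pt_not {v w : B.P} {q : ℚ} (h : ¬ B.Same K v w) : outPt K w q v = 0 := if_neg h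

theorem out_pt {w : B.P} {x : Ω} (hx : x ∈ K) (h0 : x ≠ 0) :
    B.IsDiv K (outPt K w (w.1.ord x)) := by
  refine ⟨⟨{B.res w}, Set.finite_singleton _, fun v hv => ?_⟩, fun v v' h => ?_, fun v => ?_⟩
  · by_cases hs : B.Same K v w
    · exact out_same_res hs
    · exact absurd (out_pt_not hs) hv
  · by_cases hs : B.Same K v w
    · rw [out_pt_same hs, out_pt_same fun y hy => (h y hy).symm.trans (hs y hy)]
    · rw [out_pt_not hs, out_pt_not fun h' => hs fun y hy => (h y hy).trans (h' y hy)]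
  · by_cases hs : B.Same K v w
    · exact ⟨x, hx, h0, by rw [out_pt_same hs, hs x hx]⟩
    · exact ⟨1, one_mem _, one_ne_zero, by rw [out_pt_not hs, QVal.ord_one]⟩

theorem out_pt_nonneg {w : B.P} {q : ℚ} (hq : 0 ≤ q) : 0 ≤ outPt K w q := fun v => by
  by_cases hs : B.Same K v w
  · rw [out_pt_same hs]
    exact hq
  · rw [out_pt_not hs]
    exact le_rfl

/-- finitely many valuations of `K` lie over the place at infinity -/
theorem out_classes [FiniteDimensional F₀ K] :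
    ∃ T : Finset B.P, (∀ w ∈ T, B.res w = B.inf) ∧
      ∀ v : B.P, B.res v = B.inf → ∃ w ∈ T, B.Same K v w := by
  classical
  have : CharZero F₀ := charZero_of_injective_algebraMap (algebraMap k F₀).injective
  have : IsGalois F₀ Ω := IsAlgClosure.isGalois F₀ Ω
  by_cases hex : ∃ v₀ : B.P, B.res v₀ = B.inf
  swap
  · exact ⟨∅, by simp, fun v hv => absurd ⟨v, hv⟩ hex⟩
  obtain ⟨v₀, hv₀⟩ := hex
  have h1 : ∀ φ : K →ₐ[F₀] Ω, ∃ w : B.P, B.res w = B.inf ∧
      ∀ v : B.P, B.res v = B.inf → (∀ x : K, v.1.ord x = v₀.1.ord (φ x)) → B.Same K v w := by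
    intro φ
    by_cases h : ∃ w : B.P, B.res w = B.inf ∧ ∀ x : K, w.1.ord x = v₀.1.ord (φ x)
    · obtain ⟨w, hw, h2⟩ := h
      exact ⟨w, hw, fun v _ h3 x hx => (h3 ⟨x, hx⟩).trans (h2 ⟨x, hx⟩).symm⟩
    · exact ⟨v₀, hv₀, fun v hv h3 => absurd ⟨v, hv, h3⟩ h⟩
  choose w hw h2 using h1
  refine ⟨Finset.univ.image w, fun u hu => ?_, fun v hv => ?_⟩
  · obtain ⟨φ, -, rfl⟩ := Finset.mem_image.1 hu
    exact hw φ
  · obtain ⟨σ, hσ⟩ := QVal.exists_conj (F := F₀) v.1 v₀.1 fun x => by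
      have := congrArg (fun p : QVal F₀ => p.ord x) (hv.trans hv₀.symm)
      exact this
    exact ⟨w ((σ : Ω →ₐ[F₀] Ω).comp K.val), Finset.mem_image_of_mem _ (Finset.mem_univ _),
      h2 _ v hv fun x => (hσ x).symm⟩

/-- the least positive value on `K` -/
theorem out_least [FiniteDimensional F₀ K] {w : B.P} (hw : B.res w = B.inf) :
    ∃ π ∈ K, π ≠ 0 ∧ 0 < w.1.ord π ∧ ∀ x ∈ K, 0 < w.1.ord x → w.1.ord π ≤ w.1.ord x := by
  classical
  set N := (finrank F₀ K).factorial with hN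
  have hN0 : (0 : ℚ) < N := by exact_mod_cast Nat.factorial_pos _
  have h1 : ∀ x ∈ K, ∃ n : ℤ, (N : ℚ) * w.1.ord x = n := by
    intro x hx
    by_cases h0 : x = 0
    · exact ⟨0, by simp [h0]⟩
    obtain ⟨n, y, hn, hn', -, h2⟩ :=
      w.1.exists_tors (F := F₀) (Algebra.IsAlgebraic.isAlgebraic x) h0
    obtain ⟨m, hm⟩ := B.int _ w.2 y
    have h3 : (minpoly F₀ x).natDegree ≤ finrank F₀ K := by
      have := minpoly.natDegree_le (A := F₀) (⟨x, hx⟩ : K)
      rwa [IntermediateField.minpoly_eq] at this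
    obtain ⟨c, hc⟩ := Nat.dvd_factorial hn (hn'.trans h3)
    refine ⟨c * m, ?_⟩
    rw [hN, hc]
    push_cast
    rw [← hm, QVal.comap_ord, ← h2]
    ring
  have h2 : ∃ n : ℕ, ∃ x ∈ K, 0 < w.1.ord x ∧ (N : ℚ) * w.1.ord x = n := by
    obtain ⟨z, z0, hz⟩ := out_unif (B := B)
    rw [← hw] at hz
    have hz' : w.1.ord (algebraMap F₀ Ω z) = 1 := hz
    exact ⟨N, _, K.algebraMap_mem z, by rw [hz']; norm_num, by rw [hz', mul_one]⟩
  obtain ⟨π, hπ, h3, h4⟩ := Nat.find_spec h2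
  refine ⟨π, hπ, fun h => by simp [h] at h3, h3, fun x hx h5 => ?_⟩
  obtain ⟨n, hn⟩ := h1 x hx
  have h6 : 0 ≤ n := by
    have : (0 : ℚ) ≤ n := hn ▸ (mul_pos hN0 h5).le
    exact_mod_cast this
  obtain ⟨n, rfl⟩ := Int.eq_ofNat_of_zero_le h6
  have h7 : Nat.find h2 ≤ n := Nat.find_min' h2 ⟨x, hx, h5, by simpa using hn⟩
  have h8 : (N : ℚ) * w.1.ord π ≤ N * w.1.ord x := by
    rw [h4, hn]
    exact_mod_cast h7
  exact le_of_mul_le_mul_left h8 hN0

theorem out_mul {x y : Ω} (hx : x ∈ B.Γ K D) (hy : y ∈ B.Γ K E) : x * y ∈ B.Γ K (D + E) := by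
  rw [mem_Γ] at hx hy ⊢
  refine ⟨mul_mem hx.1 hy.1, fun v => ?_⟩
  have := (hx.2 v).mul (hy.2 v)
  rwa [← neg_add] at this

theorem out_mono (h : D ≤ E) : B.Γ K D ≤ B.Γ K E := fun _ hx => by
  rw [mem_Γ] at hx ⊢
  exact ⟨hx.1, fun v => (hx.2 v).mono (neg_le_neg (h v))⟩

end Base

end Pool.Agent.Lib.MP_bc213e_ag.KBV
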