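import Mathlib

/-!
Valuations with rational values.
-/

set_option linter.unusedSectionVars false

namespace Pool.Agent.Lib.MP_bc213e_ag.KBV
open Module Polynomial

/-- an additive valuation with rational values (junk value `0` at `0`) -/
@[ext] structure QVal (E : Type) [Field E] where
  ord : E → ℚ
  ord_zero : ord 0 = 0
  ord_mul : ∀ {f g : E}, f ≠ 0 → g ≠ 0 → ord (f * g) = ord f + ord g
  ord_add : ∀ {f g : E}, f ≠ 0 → g ≠ 0 → f + g ≠ 0 → min (ord f) (ord g) ≤ ord (f + g)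

variable {k K E F : Type} [Field k] [Field K] [Field E] [Field F]

namespace QVal
variable (V : QVal E)

/-- `f` vanishes to order at least `m` -/
def Ge (f : E) (m : ℚ) : Prop := f = 0 ∨ m ≤ V.ord f

/-- `f` vanishes to order more than `m` -/
def Gt (f : E) (m : ℚ) : Prop := f = 0 ∨ m < V.ord f

@[simp] lemma ord_zero' : V.ord 0 = 0 := V.ord_zero

@[simp] lemma ord_one : V.ord 1 = 0 := by
  have := V.ord_mul (f := 1) (g := 1) one_ne_zero one_ne_zero
  rw [mul_one] at this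
  linarith

@[simp] lemma ord_inv (f : E) : V.ord f⁻¹ = -V.ord f := by
  by_cases hf : f = 0
  · simp [hf]
  · have := V.ord_mul hf (inv_ne_zero hf)
    rw [mul_inv_cancel₀ hf, ord_one] at this
    linarith

lemma ord_div {f g : E} (hf : f ≠ 0) (hg : g ≠ 0) : V.ord (f / g) = V.ord f - V.ord g := by
  rw [div_eq_mul_inv, V.ord_mul hf (inv_ne_zero hg), ord_inv, sub_eq_add_neg]

@[simp] lemma ord_pow (f : E) (m : ℕ) : V.ord (f ^ m) = m * V.ord f := by
  by_cases hf : f = 0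
  · cases m <;> simp [hf]
  induction m with
  | zero => simp
  | succ m ih =>
    rw [pow_succ, V.ord_mul (pow_ne_zero _ hf) hf, ih]
    push_cast
    ring

@[simp] lemma ord_zpow (f : E) (m : ℤ) : V.ord (f ^ m) = m * V.ord f := by
  cases m with
  | ofNat m => simp
  | negSucc m =>
    rw [zpow_negSucc, ord_inv, ord_pow, Int.negSucc_eq]
    push_cast
    ring

/-- roots of unity have order zero -/
lemma ord_of_pow_eq_one {f : E} {n : ℕ} (hn : n ≠ 0) (h : f ^ n = 1) : V.ord f = 0 := by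
  have := V.ord_pow f n
  rw [h, ord_one] at this
  exact (mul_eq_zero.mp this.symm).resolve_left (by exact_mod_cast hn)

@[simp] lemma ord_neg (f : E) : V.ord (-f) = V.ord f := by
  by_cases hf : f = 0
  · simp [hf]
  · have h1 : V.ord (-1 : E) = 0 := V.ord_of_pow_eq_one two_ne_zero (by ring)
    rw [← neg_one_mul, V.ord_mul (by simp) hf, h1, zero_add]

lemma ord_prod {ι : Type*} (s : Finset ι) (f : ι → E) (h : ∀ i ∈ s, f i ≠ 0) :
    V.ord (∏ i ∈ s, f i) = ∑ i ∈ s, V.ord (f i) := by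
  classical
  induction s using Finset.induction_on with
  | empty => simp
  | insert a s ha ih =>
    rw [Finset.prod_insert ha, Finset.sum_insert ha, V.ord_mul (h a (by simp))
      (Finset.prod_ne_zero_iff.mpr fun i hi => h i (by simp [hi])), ih fun i hi => h i (by simp [hi])]

@[simp] lemma ge_zero (m : ℚ) : V.Ge 0 m := Or.inl rfl

@[simp] lemma gt_zero (m : ℚ) : V.Gt 0 m := Or.inl rfl

lemma ge_ord (f : E) : V.Ge f (V.ord f) := Or.inr le_rfl

lemma ge_one : V.Ge 1 0 := Or.inr (by simp)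

variable {V}

lemma ge_iff {f : E} (hf : f ≠ 0) {m : ℚ} : V.Ge f m ↔ m ≤ V.ord f := by simp [Ge, hf]

lemma gt_iff {f : E} (hf : f ≠ 0) {m : ℚ} : V.Gt f m ↔ m < V.ord f := by simp [Gt, hf]

lemma Ge.le {f : E} {m : ℚ} (h : V.Ge f m) (hf : f ≠ 0) : m ≤ V.ord f := (ge_iff hf).mp h

lemma Gt.lt {f : E} {m : ℚ} (h : V.Gt f m) (hf : f ≠ 0) : m < V.ord f := (gt_iff hf).mp h

lemma Ge.of_le {f : E} {m : ℚ} (h : m ≤ V.ord f) : V.Ge f m := Or.inr h

lemma Gt.of_lt {f : E} {m : ℚ} (h : m < V.ord f) : V.Gt f m := Or.inr h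

lemma Ge.mono {f : E} {m m' : ℚ} (h : V.Ge f m) (hm : m' ≤ m) : V.Ge f m' :=
  h.imp id hm.trans

lemma Gt.mono {f : E} {m m' : ℚ} (h : V.Gt f m) (hm : m' ≤ m) : V.Gt f m' :=
  h.imp id hm.trans_lt

lemma Gt.ge {f : E} {m : ℚ} (h : V.Gt f m) : V.Ge f m := h.imp id le_of_lt

lemma Ge.gt {f : E} {m m' : ℚ} (h : V.Ge f m) (hm : m' < m) : V.Gt f m' := h.imp id hm.trans_le

lemma not_ge_iff {f : E} {m : ℚ} : ¬ V.Ge f m ↔ f ≠ 0 ∧ V.ord f < m := by simp [Ge]

lemma not_gt_iff {f : E} {m : ℚ} : ¬ V.Gt f m ↔ f ≠ 0 ∧ V.ord f ≤ m := by simp [Gt]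

/-- an element of arbitrarily large order is zero -/
lemma eq_zero_of_ge {f : E} (h : ∀ n : ℕ, V.Ge f n) : f = 0 := by
  by_contra h0
  obtain ⟨n, hn⟩ := exists_nat_gt (V.ord f)
  exact absurd ((h n).le h0) (not_le.mpr hn)

lemma Gt.exists_ge {f : E} {m : ℚ} (h : V.Gt f m) : ∃ m', m < m' ∧ V.Ge f m' := by
  rcases h with h | h
  · exact ⟨m + 1, by linarith, Or.inl h⟩
  · exact ⟨_, h, V.ge_ord f⟩

lemma Ge.add {f g : E} {m : ℚ} (hf : V.Ge f m) (hg : V.Ge g m) : V.Ge (f + g) m := by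
  by_cases h1 : f = 0
  · simpa [h1] using hg
  by_cases h2 : g = 0
  · simpa [h2] using hf
  by_cases h3 : f + g = 0
  · exact Or.inl h3
  exact Or.inr ((le_min (hf.le h1) (hg.le h2)).trans (V.ord_add h1 h2 h3))

lemma Gt.add {f g : E} {m : ℚ} (hf : V.Gt f m) (hg : V.Gt g m) : V.Gt (f + g) m := by
  obtain ⟨a, ha, h1⟩ := hf.exists_ge
  obtain ⟨b, hb, h2⟩ := hg.exists_ge
  exact ((h1.mono (min_le_left a b)).add (h2.mono (min_le_right a b))).gt (lt_min ha hb)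

lemma Ge.neg {f : E} {m : ℚ} (hf : V.Ge f m) : V.Ge (-f) m :=
  hf.imp (fun h => by simp [h]) fun h => by simpa using h

lemma Gt.neg {f : E} {m : ℚ} (hf : V.Gt f m) : V.Gt (-f) m :=
  hf.imp (fun h => by simp [h]) fun h => by simpa using h

lemma Ge.sub {f g : E} {m : ℚ} (hf : V.Ge f m) (hg : V.Ge g m) : V.Ge (f - g) m := by
  rw [sub_eq_add_neg]
  exact hf.add hg.neg

lemma Gt.sub {f g : E} {m : ℚ} (hf : V.Gt f m) (hg : V.Gt g m) : V.Gt (f - g) m := by
  rw [sub_eq_add_neg]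
  exact hf.add hg.neg

lemma Ge.mul {f g : E} {m m' : ℚ} (hf : V.Ge f m) (hg : V.Ge g m') : V.Ge (f * g) (m + m') := by
  by_cases h1 : f = 0
  · simp [h1]
  by_cases h2 : g = 0
  · simp [h2]
  exact Or.inr (by rw [V.ord_mul h1 h2]; exact add_le_add (hf.le h1) (hg.le h2))

lemma Gt.mul_ge {f g : E} {m m' : ℚ} (hf : V.Gt f m) (hg : V.Ge g m') :
    V.Gt (f * g) (m + m') := by
  obtain ⟨a, ha, h1⟩ := hf.exists_ge
  exact (h1.mul hg).gt (by linarith)

lemma Ge.mul_gt {f g : E} {m m' : ℚ} (hf : V.Ge f m) (hg : V.Gt g m') :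
    V.Gt (f * g) (m + m') := by
  rw [mul_comm, add_comm]
  exact hg.mul_ge hf

lemma Ge.mul₀ {f g : E} {m : ℚ} (hf : V.Ge f 0) (hg : V.Ge g m) : V.Ge (f * g) m := by
  simpa using hf.mul hg

lemma Ge.mul_gt₀ {f g : E} {m : ℚ} (hf : V.Ge f 0) (hg : V.Gt g m) : V.Gt (f * g) m := by
  simpa using hf.mul_gt hg

lemma Ge.pow {f : E} {m : ℚ} (hf : V.Ge f m) (e : ℕ) : V.Ge (f ^ e) (e * m) := by
  induction e with
  | zero => simpa using V.ge_one
  | succ e ih =>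
    rw [pow_succ]
    convert ih.mul hf using 1
    push_cast
    ring

lemma Gt.pow {f : E} {m : ℚ} (hf : V.Gt f m) {e : ℕ} (he : e ≠ 0) : V.Gt (f ^ e) (e * m) := by
  obtain ⟨a, ha, h1⟩ := hf.exists_ge
  exact (h1.pow e).gt (mul_lt_mul_of_pos_left ha (by exact_mod_cast Nat.pos_of_ne_zero he))

lemma Ge.pow₀ {f : E} (hf : V.Ge f 0) (e : ℕ) : V.Ge (f ^ e) 0 := by simpa using hf.pow e

lemma ge_pow_iff {f : E} {m : ℚ} {e : ℕ} (he : e ≠ 0) : V.Ge (f ^ e) (e * m) ↔ V.Ge f m := by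
  have : (0 : ℚ) < e := by exact_mod_cast Nat.pos_of_ne_zero he
  simp [Ge, he, this]

lemma gt_pow_iff {f : E} {m : ℚ} {e : ℕ} (he : e ≠ 0) : V.Gt (f ^ e) (e * m) ↔ V.Gt f m := by
  have : (0 : ℚ) < e := by exact_mod_cast Nat.pos_of_ne_zero he
  simp [Gt, he, this]

lemma Ge.sum {ι : Type*} {s : Finset ι} {f : ι → E} {m : ℚ} (h : ∀ i ∈ s, V.Ge (f i) m) :
    V.Ge (∑ i ∈ s, f i) m :=
  Finset.sum_induction f (fun a => V.Ge a m) (fun _ _ => Ge.add) (V.ge_zero m) h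

lemma Gt.sum {ι : Type*} {s : Finset ι} {f : ι → E} {m : ℚ} (h : ∀ i ∈ s, V.Gt (f i) m) :
    V.Gt (∑ i ∈ s, f i) m :=
  Finset.sum_induction f (fun a => V.Gt a m) (fun _ _ => Gt.add) (V.gt_zero m) h

lemma Ge.prod {ι : Type*} {s : Finset ι} {f : ι → E} {m : ι → ℚ}
    (h : ∀ i ∈ s, V.Ge (f i) (m i)) : V.Ge (∏ i ∈ s, f i) (∑ i ∈ s, m i) := by
  classical
  induction s using Finset.induction_on with
  | empty => simpa using V.ge_one
  | insert a s ha ih =>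
    rw [Finset.prod_insert ha, Finset.sum_insert ha]
    exact (h a (by simp)).mul (ih fun i hi => h i (by simp [hi]))

lemma ge_natCast (V : QVal E) (n : ℕ) : V.Ge (n : E) 0 := by
  induction n with
  | zero => simp
  | succ n ih => simpa using ih.add V.ge_one

lemma ge_intCast (V : QVal E) (n : ℤ) : V.Ge (n : E) 0 := by
  obtain ⟨n, rfl | rfl⟩ := n.eq_nat_or_neg
  · simpa using V.ge_natCast n
  · simpa using (V.ge_natCast n).neg

lemma ge_mul_iff {f g : E} (hg : g ≠ 0) {m : ℚ} : V.Ge (f * g) m ↔ V.Ge f (m - V.ord g) := by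
  by_cases hf : f = 0
  · simp [hf]
  · rw [ge_iff (mul_ne_zero hf hg), ge_iff hf, V.ord_mul hf hg, sub_le_iff_le_add]

lemma gt_mul_iff {f g : E} (hg : g ≠ 0) {m : ℚ} : V.Gt (f * g) m ↔ V.Gt f (m - V.ord g) := by
  by_cases hf : f = 0
  · simp [hf]
  · rw [gt_iff (mul_ne_zero hf hg), gt_iff hf, V.ord_mul hf hg, sub_lt_iff_lt_add]

lemma ge_div_iff {f g : E} (hg : g ≠ 0) {m : ℚ} : V.Ge (f / g) m ↔ V.Ge f (m + V.ord g) := by
  rw [div_eq_mul_inv, ge_mul_iff (inv_ne_zero hg), ord_inv, sub_neg_eq_add]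

lemma gt_div_iff {f g : E} (hg : g ≠ 0) {m : ℚ} : V.Gt (f / g) m ↔ V.Gt f (m + V.ord g) := by
  rw [div_eq_mul_inv, gt_mul_iff (inv_ne_zero hg), ord_inv, sub_neg_eq_add]

/-- a term of strictly smallest order determines the order of a sum -/
lemma ord_add_of_gt {f g : E} (hf : f ≠ 0) (hg : V.Gt g (V.ord f)) :
    f + g ≠ 0 ∧ V.ord (f + g) = V.ord f := by
  have h1 : ¬ V.Gt (f + g) (V.ord f) := fun h => by
    have := (h.sub hg).lt (by simpa using hf)
    rw [add_sub_cancel_right] at this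
    exact lt_irrefl _ this
  obtain ⟨h2, h3⟩ := not_gt_iff.mp h1
  exact ⟨h2, le_antisymm h3 (((V.ge_ord f).add hg.ge).le h2)⟩

lemma ord_eq_of_sub {f g : E} (hf : f ≠ 0) (h : V.Gt (g - f) (V.ord f)) :
    g ≠ 0 ∧ V.ord g = V.ord f := by
  simpa using ord_add_of_gt hf h

/-- a sum with one term of strictly smallest order -/
lemma ord_sum_of_lt {ι : Type*} {s : Finset ι} {f : ι → E} {i₀ : ι} (hi : i₀ ∈ s) (h0 : f i₀ ≠ 0)
    (h : ∀ i ∈ s, i ≠ i₀ → V.Gt (f i) (V.ord (f i₀))) :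
    ∑ i ∈ s, f i ≠ 0 ∧ V.ord (∑ i ∈ s, f i) = V.ord (f i₀) := by
  classical
  rw [← Finset.add_sum_erase s f hi]
  exact ord_add_of_gt h0 (Gt.sum fun i hi => h i (Finset.mem_of_mem_erase hi)
    (Finset.ne_of_mem_erase hi))

/-- in a vanishing sum with a nonzero term the minimal order is attained twice -/
lemma exists_two_min {ι : Type*} {s : Finset ι} {f : ι → E} (h : ∑ i ∈ s, f i = 0) {a : ι}
    (ha : a ∈ s) (h0 : f a ≠ 0) : ∃ i ∈ s, ∃ j ∈ s, i ≠ j ∧ f i ≠ 0 ∧ f j ≠ 0 ∧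
      V.ord (f i) = V.ord (f j) ∧ ∀ l ∈ s, V.Ge (f l) (V.ord (f i)) := by
  classical
  obtain ⟨i, hi, hmin⟩ := Finset.exists_min_image (s.filter fun l => f l ≠ 0)
    (fun l => V.ord (f l)) ⟨a, Finset.mem_filter.mpr ⟨ha, h0⟩⟩
  obtain ⟨hi1, hi2⟩ := Finset.mem_filter.mp hi
  have hge : ∀ l ∈ s, V.Ge (f l) (V.ord (f i)) := fun l hl =>
    (em (f l = 0)).imp id fun hl0 => hmin l (Finset.mem_filter.mpr ⟨hl, hl0⟩)
  by_contra hc
  refine (ord_sum_of_lt (V := V) hi1 hi2 fun j hj hji => ?_).1 h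
  by_contra hj2
  obtain ⟨h1, h2⟩ := not_gt_iff.mp hj2
  exact hc ⟨i, hi1, j, hj, hji.symm, hi2, h1, le_antisymm ((hge j hj).le h1) h2, hge⟩

variable (V)

/-- the integral elements -/
def O : Subring E where
  carrier := {x | V.Ge x 0}
  zero_mem' := V.ge_zero 0
  one_mem' := V.ge_one
  add_mem' := Ge.add
  neg_mem' := Ge.neg
  mul_mem' := Ge.mul₀

@[simp] lemma mem_O {x : E} : x ∈ V.O ↔ V.Ge x 0 := Iff.rfl

/-- integral elements have nonnegative order -/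
lemma ge_of_isIntegral {R : Type*} [CommRing R] [Algebra R E]
    (hR : ∀ a : R, V.Ge (algebraMap R E a) 0) {x : E} (hx : IsIntegral R x) : V.Ge x 0 := by
  by_contra h
  obtain ⟨h0, h1⟩ := not_ge_iff.mp h
  obtain ⟨f, hf, hx⟩ := hx
  rw [eval₂_eq_sum_range] at hx
  refine (ord_sum_of_lt (V := V) (Finset.self_mem_range_succ f.natDegree) ?_ fun i hi hne => ?_).1 hx
  · simp [hf.coeff_natDegree, h0]
  · have h2 : (i : ℚ) < f.natDegree := by
      exact_mod_cast lt_of_le_of_ne (Nat.lt_succ_iff.mp (Finset.mem_range.mp hi)) hne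
    simp only [hf.coeff_natDegree, map_one, one_mul, ord_pow]
    exact ((hR _).mul₀ ((V.ge_ord x).pow i)).gt (by nlinarith)

/-- pull back along a homomorphism of fields -/
def comap (f : F →+* E) : QVal F where
  ord x := V.ord (f x)
  ord_zero := by simp
  ord_mul hf hg := by rw [map_mul, V.ord_mul (by simpa using hf) (by simpa using hg)]
  ord_add {x y} hf hg h := by
    rw [map_add]
    exact V.ord_add (by simpa using hf) (by simpa using hg) (by rwa [← map_add, _root_.map_ne_zero])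

@[simp] lemma comap_ord (f : F →+* E) (x : F) : (V.comap f).ord x = V.ord (f x) := rfl

@[simp] lemma comap_ge (f : F →+* E) (x : F) (m : ℚ) : (V.comap f).Ge x m ↔ V.Ge (f x) m := by
  simp [Ge]

@[simp] lemma comap_gt (f : F →+* E) (x : F) (m : ℚ) : (V.comap f).Gt x m ↔ V.Gt (f x) m := by
  simp [Gt]

/-- rescale -/
def scale (c : ℚ) (hc : 0 ≤ c) : QVal E where
  ord x := c * V.ord x
  ord_zero := by simp
  ord_mul hf hg := by rw [V.ord_mul hf hg, mul_add]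
  ord_add hf hg h := by
    rw [← mul_min_of_nonneg _ _ hc]
    exact mul_le_mul_of_nonneg_left (V.ord_add hf hg h) hc

@[simp] lemma scale_ord (c : ℚ) (hc : 0 ≤ c) (x : E) : (V.scale c hc).ord x = c * V.ord x := rfl

end QVal

end Pool.Agent.Lib.MP_bc213e_ag.KBV
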