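import Pool.Agent.Lib.MP_bc213e_ag.KBV.Tri
import Pool.Agent.Lib.MP_bc213e_ag.KBV.Nrm

/-!
The absolute Siegel lemma in rank two.
-/

set_option linter.unusedSectionVars false

namespace Pool.Agent.Lib.MP_bc213e_ag.KBV
open Module Filter Topology

variable {k F₀ Ω : Type} [Field k] [Field F₀] [Field Ω] [Algebra k F₀] [Algebra F₀ Ω]
  [Algebra k Ω] [IsScalarTower k F₀ Ω] [IsAlgClosure F₀ Ω] [CharZero k] [CharZero F₀] [CharZero Ω]

namespace VC
variable {V : VC k F₀ Ω} {F : IntermediateField F₀ Ω} {I : Type} [Fintype I]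
  {D : I → V.Dv} {s t : I → Ω}

theorem Sg2_sum (hF : V.Ok F) (R : Multiset Ω) (E : Ω → V.Dv) (c : ℝ)
    (h : ∀ r ∈ R, V.IsDiv F (E r) ∧ V.deg (E r) ≤ c) :
    ∃ A, V.IsDiv F A ∧ V.deg A ≤ R.card * c ∧ ∀ v, A v = (R.map fun r => E r v).sum := by
  induction R using Multiset.induction_on with
  | empty => exact ⟨0, .zero, by simp, fun v => by simp⟩
  | cons r R ih =>
    obtain ⟨A, h1, h2, h3⟩ := ih fun x hx => h x (Multiset.mem_cons_of_mem hx)
    obtain ⟨h4, h5⟩ := h r (Multiset.mem_cons_self r R)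
    refine ⟨E r + A, h4.add h1, ?_, fun v => by simp [h3]⟩
    rw [hF.deg_add h4 h1, Multiset.card_cons]
    push_cast
    linarith

theorem Sg2_gauss (a c : ℝ) (n : ℕ) :
    ∑ l ∈ Finset.range (n + 1), (a + l * c) = (n + 1) * (a + n / 2 * c) := by
  induction n with
  | zero => simp
  | succ n ih =>
    rw [Finset.sum_range_succ, ih]
    push_cast
    ring

/-- Sketch: `N₁ = nrm D s`, `N₂ = nrm (qD D s) (kos s t)`, `ι` from `exists_sel`, `μ i = t i / s i`.
Fix `n` and choose `g : ℤ` with `0 < chi 0 + g δ + n / 2 * (deg N₂ - deg N₁) ≤ δ`. `Ok.tri` for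
`G l = g H + l (N₂ - N₁)` gives `b`, `p`. At `v` take `τ` with `ord τ = (N₂ - N₁) v`; `QVal.gauss`
gives `t'`; `ge_of_kos` with `kos s (t - r • s) = kos s t` gives
`N₁ v + ord (t' - r) ≤ nrm D (t - r • s) v`. So
`-(g H + b L) ≤ dv (lc p) + ∑ roots (nrm D (t - r • s) - N₁)`; take degrees over a field which
contains the roots and `lc p`: `-g δ ≤ n (m - deg N₁)`. Let `n → ∞`. -/
theorem Ok.sg2 (hF : V.Ok F) (hδ : 0 < V.δ) (hD : ∀ i, V.IsDiv F (D i)) (hs : ∀ i, s i ∈ F)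
    (ht : ∀ i, t i ∈ F) (h0 : s ≠ 0) (hk : kos s t ≠ 0) {m : ℝ} (h1 : V.deg (V.nrm D s) ≤ m)
    (h2 : ∀ r : Ω, V.deg (V.nrm D (t - r • s)) ≤ m) :
    V.deg (V.nrm D s) + V.deg (V.nrm (V.qD D s) (kos s t)) ≤ 2 * m := by
  classical
  have hac : IsAlgClosed Ω := IsAlgClosure.isAlgClosed F₀
  have hN₁ : V.IsDiv F (V.nrm D s) := Base.isDiv_nrm hD hs
  have hN₂ : V.IsDiv F (V.nrm (V.qD D s) (kos s t)) :=
    Base.isDiv_nrm (Base.isDiv_qD hD hs) (kos_mem hs ht)
  have hΔ := hN₂.sub hN₁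
  obtain ⟨ι, hι, hι'⟩ := Base.exists_sel hD hs h0
  have hker : ∀ r : Ω, kos s (t - r • s) = kos s t := fun r => by
    rw [map_sub, map_smul, kos_self, smul_zero, sub_zero]
  have hne : ∀ r : Ω, t - r • s ≠ 0 := fun r h => hk (by rw [← hker r, h, map_zero])
  have key : ∀ n : ℕ, (n : ℝ) / 2 * (V.deg (V.nrm D s) + V.deg (V.nrm (V.qD D s) (kos s t)) - 2 * m)
      ≤ V.δ - V.chi F 0 := by
    intro n
    obtain ⟨g, hg1, hg2⟩ : ∃ g : ℤ, 0 < V.chi F 0 + g * V.δ +
        n / 2 * (V.deg (V.nrm (V.qD D s) (kos s t)) - V.deg (V.nrm D s)) ∧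
        V.chi F 0 + g * V.δ +
        n / 2 * (V.deg (V.nrm (V.qD D s) (kos s t)) - V.deg (V.nrm D s)) ≤ V.δ := by
      generalize V.chi F 0 = a
      generalize (n : ℝ) / 2 * (V.deg (V.nrm (V.qD D s) (kos s t)) - V.deg (V.nrm D s)) = c
      have e1 := Int.floor_le (-(a + c) / V.δ)
      have e2 := Int.lt_floor_add_one (-(a + c) / V.δ)
      rw [le_div_iff₀ hδ] at e1
      rw [div_lt_iff₀ hδ] at e2
      refine ⟨⌊-(a + c) / V.δ⌋ + 1, ?_, ?_⟩ <;> push_cast <;> linarith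
    have hgH : V.IsDiv F (g • V.H) := (Base.isDiv_H F).zsmul g
    obtain ⟨b, p, hp, hdeg, hco⟩ := hF.tri n (fun i => t i / s i)
      (fun i => div_mem (ht i) (hs i)) ι hι
      (fun l => g • V.H + l • (V.nrm (V.qD D s) (kos s t) - V.nrm D s))
      (fun l => hgH.add (hΔ.nsmul l)) (by
        have e : ∀ l : ℕ, V.chi F (g • V.H + l • (V.nrm (V.qD D s) (kos s t) - V.nrm D s)) =
            V.chi F 0 + g * V.δ +
              l * (V.deg (V.nrm (V.qD D s) (kos s t)) - V.deg (V.nrm D s)) := fun l => by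
          rw [hF.chi_eq (hgH.add (hΔ.nsmul l)), hF.deg_add hgH (hΔ.nsmul l),
            hF.deg_zsmul (Base.isDiv_H F), hF.deg_nsmul hΔ, hF.deg_sub hN₂ hN₁, deg_H, add_assoc]
        simp only [e]
        rw [Sg2_gauss]
        positivity)
    obtain ⟨F', hFF, hF', hmem⟩ := hF.exists_field
      (s := insert p.leadingCoeff (p.roots.toFinset : Set Ω))
      (p.roots.toFinset.finite_toSet.insert _)
    have hlc : p.leadingCoeff ∈ F' := hmem _ (Set.mem_insert _ _)
    have hr : ∀ r ∈ p.roots, r ∈ F' := fun r h =>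
      hmem _ (Set.mem_insert_of_mem _ (by simpa using h))
    obtain ⟨A, hA, hA1, hA2⟩ := Sg2_sum hF' p.roots (fun r => V.nrm D (t - r • s) - V.nrm D s)
      (m - V.deg (V.nrm D s)) fun r h => by
        have h3 : V.IsDiv F' (V.nrm D (t - r • s)) :=
          Base.isDiv_nrm (fun i => (hD i).mono hFF) fun i =>
            sub_mem (hFF (ht i)) (mul_mem (hr r h) (hFF (hs i)))
        refine ⟨h3.sub (hN₁.mono hFF), ?_⟩
        rw [hF'.deg_sub h3 (hN₁.mono hFF)]
        linarith [h2 r]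
    have hle : -(g • V.H + b • V.L) ≤ V.dv p.leadingCoeff + A := fun v => by
      obtain ⟨τ, -, hτ, e⟩ := hΔ.val v
      obtain ⟨t', h3, h4⟩ := QVal.gauss v.1 (Base.ord_intCast v) hp (t (ι v) / s (ι v)) hτ
        (m := -(g • V.H + b • V.L) v) fun l => (hco v l).mono (le_of_eq (by
          rw [← e]
          rw [Pi.add_apply, Pi.add_apply, Pi.add_apply, Pi.smul_apply l, nsmul_eq_mul]
          ring))
      rw [Pi.neg_apply, Pi.add_apply (V.dv p.leadingCoeff), hA2, Base.dv_apply]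
      refine h4.trans (add_le_add le_rfl (Multiset.sum_map_le_sum_map _ _ fun r hr => ?_))
      obtain ⟨h5, h6⟩ := h3 r hr
      rw [Pi.sub_apply, le_sub_iff_add_le, Base.le_nrm_iff (hne r)]
      refine Base.ge_of_kos (hι' v).1 (hι' v).2 ?_ fun q => ?_
      · have e2 : (t - r • s) (ι v) / s (ι v) = t (ι v) / s (ι v) - r := by
          have := (hι' v).1
          simp only [Pi.sub_apply, Pi.smul_apply, smul_eq_mul]
          field_simp
        rw [e2, add_sub_cancel_right]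
        exact h6
      · rw [hker]
        refine (Base.ge_nrm (V.qD D s) (kos s t) q v).mono ?_
        rw [← e, Pi.sub_apply] at h5
        linarith
    have hL : V.IsDiv F' (b • V.L) := hF'.hL.nsmul b
    have hgH' : V.IsDiv F' (g • V.H) := hgH.mono hFF
    have h7 := hF'.deg_mono (hgH'.add hL).neg ((Base.isDiv_dv hlc).add hA) hle
    rw [hF'.deg_neg (hgH'.add hL), hF'.deg_add hgH' hL, hF'.deg_zsmul (Base.isDiv_H F'),
      hF'.deg_nsmul hF'.hL, deg_H, deg_L, hF'.deg_add (Base.isDiv_dv hlc) hA, deg_dv] at h7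
    have h8 : (p.roots.card : ℝ) ≤ n := by exact_mod_cast (Polynomial.card_roots' p).trans hdeg
    have h9 := mul_le_mul_of_nonneg_right h8 (sub_nonneg.mpr h1)
    linarith
  by_contra hc
  have hpos : 0 < V.deg (V.nrm D s) + V.deg (V.nrm (V.qD D s) (kos s t)) - 2 * m := by
    linarith [not_le.mp hc]
  obtain ⟨n, hn⟩ := exists_nat_gt (2 * (V.δ - V.chi F 0) /
    (V.deg (V.nrm D s) + V.deg (V.nrm (V.qD D s) (kos s t)) - 2 * m))
  rw [div_lt_iff₀ hpos] at hn
  linarith [key n]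

end VC

end Pool.Agent.Lib.MP_bc213e_ag.KBV
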