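import Pool.Agent.Lib.MP_bc213e_ag.KBV.Dich

/-!
Quotients of the evaluation bundle have large slope.
-/

set_option linter.unusedSectionVars false

namespace Pool.Agent.Lib.MP_bc213e_ag.KBV
open Module Filter Topology

variable {k F₀ Ω : Type} [Field k] [Field F₀] [Field Ω] [Algebra k F₀] [Algebra F₀ Ω]
  [Algebra k Ω] [IsScalarTower k F₀ Ω] [IsAlgClosure F₀ Ω] [CharZero k] [CharZero F₀] [CharZero Ω]

namespace VC
variable {V : VC k F₀ Ω} {F F' : IntermediateField F₀ Ω} {I : Type} [Fintype I]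
  {D : I → V.Dv} {d : ℤ} {c : Ω}

theorem Vert.zero (F : IntermediateField F₀ Ω) (d : ℤ) : V.Vert F d 0 :=
  ⟨0, .zero, le_rfl, deg_zero, zero_mem _⟩

theorem Vert.one (F : IntermediateField F₀ Ω) : V.Vert F 0 1 :=
  ⟨0, .zero, le_rfl, deg_zero, Base.mem_Γ.mpr ⟨one_mem _, fun v => by simpa using v.1.ge_one⟩⟩

theorem Vert.smul (h : V.Vert F d c) (a : k) : V.Vert F d (a • c) :=
  h.imp fun _ h => ⟨h.1, h.2.1, h.2.2.1, Submodule.smul_mem _ a h.2.2.2⟩

theorem Ok.vert_of_negPart (hF : V.Ok F) (hc : c ∈ F) (h : V.deg (V.dv c + d • V.L)⁻ ≤ 0) :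
    V.Vert F d c := by
  have h1 : V.IsDiv F (V.dv c + d • V.L)⁻ := ((Base.isDiv_dv hc).add (hF.hL.zsmul d)).negPart
  refine ⟨_, h1, negPart_nonneg _, le_antisymm h (hF.deg_nonneg h1 (negPart_nonneg _)),
    Base.mem_Γ.mpr ⟨hc, fun v => .of_le ?_⟩⟩
  have h2 : -(V.dv c + d • V.L) v ≤ (V.dv c + d • V.L)⁻ v := le_sup_left (a := -(V.dv c + d • V.L)) v
  simp only [Pi.add_apply, Base.dv_apply] at h2 ⊢
  linarith

/-- Sketch: `tr c = ∑ σ i c` is a section of `d L + ∑ E ∘ act (σ i)` over a field containing all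
conjugates of `F'` (`Ok.map`, `comp_act`, `deg_act`), so `(dv (tr c) + d L)⁻` has degree `≤ 0`. -/
theorem Vert.tr (h : V.Vert F' d c) (T : TrData F F') (hF : V.Ok F) (hF' : V.Ok F') :
    V.Vert F d (T.tr k c) := by
  obtain ⟨E, hE, hE0, hE1, hc⟩ := h
  by_cases h0 : T.tr k c = 0
  · rw [h0]
    exact Vert.zero F d
  have hσ : ∀ i, ∀ x ∈ V.K, T.σ i x = x := fun i x hx => T.fix i x (hF.le hx)
  have _ := fun i => (hF'.map (hσ i)).fin
  have _ := hF.fin
  have hG : V.Ok (F ⊔ ⨆ i, F'.map (T.σ i : Ω →ₐ[F₀] Ω)) := hF.of_le le_sup_left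
  have hA : ∀ i, V.IsDiv (F ⊔ ⨆ i, F'.map (T.σ i : Ω →ₐ[F₀] Ω)) (E ∘ Base.act (T.σ i)) := fun i =>
    (hE.comp_act (T.σ i)).mono
      ((le_iSup (fun i => F'.map (T.σ i : Ω →ₐ[F₀] Ω)) i).trans le_sup_right)
  have hm := T.tr_mem (k := k) hc.1
  refine hF.vert_of_negPart hm ((hG.deg_mono
    (((Base.isDiv_dv hm).add (hF.hL.zsmul d)).negPart.mono le_sup_left)
    (.sum (s := Finset.univ) fun i _ => hA i) (sup_le (fun v => ?_) fun v => ?_)).trans_eq ?_)
  · have h1 : v.1.Ge (T.tr k c) (-(d • V.L + ∑ i, E ∘ Base.act (T.σ i)) v) := by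
      rw [T.tr_apply]
      refine QVal.Ge.sum fun i _ => ((Base.act_ge _ _ _ _).mp ((Base.mem_Γ.mp hc).2 _)).mono ?_
      have e1 := Finset.single_le_sum (f := fun j => E (Base.act (T.σ j) v)) (s := Finset.univ)
        (fun j _ => hE0 _) (Finset.mem_univ i)
      have e2 : V.L (Base.act (T.σ i) v) = V.L v := congrFun (V.hL.comp_act_eq (hσ i)) v
      simp only [Pi.add_apply, Pi.smul_apply, Finset.sum_apply, Function.comp_apply, e2]
      linarith
    have h2 := h1.le h0
    simp only [Pi.add_apply, Pi.neg_apply, Base.dv_apply] at h2 ⊢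
    linarith
  · rw [Finset.sum_apply]
    exact Finset.sum_nonneg fun j _ => hE0 _
  · rw [hG.deg_sum fun i _ => hA i]
    exact Finset.sum_eq_zero fun i _ => by rw [hF'.deg_act hE (hσ i), hE1]

variable (V) in
/-- independence over the vertical sections -/
def Indep {N : Type} [Fintype N] (a : N → ℕ) (s : N → Ω) : Prop :=
  ∀ (l₀ : N) (c : N → Ω), (∀ l, V.Vert V.K ((a l₀ : ℤ) - a l) (c l)) → ∑ l, c l * s l = 0 → c l₀ = 0

/-- Sketch: choose `J : Set N` with `w` restricted to `J` a basis of the span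
(`exists_linearIndependent'` or `exists_linearIndepOn`), write `w l = ∑ j, c l j • w j`, enlarge `F` to
contain all `c l j` (`degB_field`), fix `j₀ ∈ J`. If `degB ≤ r δ`, then `dich` with
`D₀ j = H + a j L`, `D' = H + a l L` shows `Vert F (a j₀ - a l) (c l j₀)` for all `l`. From `rel`,
`∑ l, c l j₀ * s l = 0` and `c j₀ j₀ = 1`. Apply the trace to `K` (`Vert.tr`, `tr_mul`, `tr_of_mem`):
`ind` gives `(T.d : k) • 1 = 0`. -/
theorem Ok.slope (hF : V.Ok F) (hD : ∀ i, V.IsDiv F (D i)) {N : Type} [Fintype N] {a : N → ℕ}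
    {s : N → Ω} (hs : ∀ l, s l ∈ V.K) (ind : V.Indep a s) {w : N → I → Ω} (wF : ∀ l i, w l i ∈ F)
    (hge : ∀ l i (v : V.P), v.1.Ge (w l i) ((V.H + a l • V.L) v - D i v))
    (rel : ∑ l, s l • w l = 0) (hne : Submodule.span Ω (Set.range w) ≠ ⊥) :
    finrank Ω (Submodule.span Ω (Set.range w)) * V.δ <
      V.degB F D (Submodule.span Ω (Set.range w)) := by
  obtain ⟨J, e, he, hsp, hli⟩ := exists_linearIndependent' Ω w
  have _ : Finite J := Finite.of_injective e he
  have _ : Fintype J := Fintype.ofFinite J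
  have hc : ∀ l, ∃ c : J → Ω, ∑ j, c j • w (e j) = w l := fun l =>
    (Submodule.mem_span_range_iff_exists_fun Ω).mp (hsp ▸ Submodule.subset_span ⟨l, rfl⟩)
  choose c hc using hc
  obtain ⟨j₀⟩ : Nonempty J := by
    by_contra h0
    have _ := not_nonempty_iff.mp h0
    exact hne (by rw [← hsp, Set.range_eq_empty, Submodule.span_empty])
  obtain ⟨F', hle, hF', cF⟩ := hF.exists_field_fun fun p : N × J => c p.1 p.2
  have hB : V.Bun F D (Submodule.span Ω (Set.range w)) := ⟨hF, hD, Base.rat_span wF⟩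
  have hcard : Fintype.card J = finrank Ω (Submodule.span Ω (Set.range w)) := by
    rw [← hsp, finrank_span_eq_card hli]
  have hdiv : ∀ l, V.IsDiv F' (V.H + a l • V.L) := fun l =>
    (Base.isDiv_H F').add (hF'.hL.nsmul _)
  have hdeg : ∀ l, V.deg (V.H + a l • V.L) = V.δ := fun l => by
    rw [hF'.deg_add (Base.isDiv_H F') (hF'.hL.nsmul _), hF'.deg_nsmul hF'.hL, deg_H, deg_L, mul_zero,
      add_zero]
  by_contra hlt
  have h1 : ∀ l, V.Vert F' ((a (e j₀) : ℤ) - a l) (c l j₀) := fun l => by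
    by_cases h0 : c l j₀ = 0
    · rw [h0]
      exact Vert.zero _ _
    have h2 := (hB.mono hle hF').dich (w := w ∘ e) hli (fun j => Submodule.subset_span ⟨e j, rfl⟩)
      hcard (fun j i => hle (wF _ i)) (fun j => hdiv (e j)) (fun j => hge (e j))
      (fun j => cF (l, j)) (hdiv l) (fun i v => by
        simp only [Function.comp_apply, hc]
        exact hge l i v) h0
    rw [Finset.sum_congr rfl fun j _ => hdeg (e j), Finset.sum_const, Finset.card_univ,
      nsmul_eq_mul (Fintype.card J), hB.degB_field hle hF', hcard] at h2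
    refine hF'.vert_of_negPart (cF (l, j₀)) ?_
    have e1 : V.dv (c l j₀) + ((a (e j₀) : ℤ) - a l) • V.L =
        V.dv (c l j₀) + (V.H + a (e j₀) • V.L) - (V.H + a l • V.L) := by
      rw [sub_smul, natCast_zsmul, natCast_zsmul]
      abel
    rw [e1]
    linarith [not_lt.mp hlt]
  have h3 : ∑ l, s l * c l j₀ = 0 := by
    refine Fintype.linearIndependent_iff.mp hli (fun j => ∑ l, s l * c l j) ?_ j₀
    simp only [Finset.sum_smul, Function.comp_apply, mul_smul]
    rw [Finset.sum_comm]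
    simp only [← Finset.smul_sum, hc]
    exact rel
  have h4 : c (e j₀) j₀ = 1 := by
    classical
    have := Fintype.linearIndependent_iff.mp hli (fun j => c (e j₀) j - Pi.single (M := fun _ => Ω) j₀ 1 j)
      (by simp [sub_smul, hc, Pi.single_apply]) j₀
    simpa [sub_eq_zero] using this
  have _ := hF'.fin
  obtain ⟨T⟩ := exists_trData hF'.le
  have h5 := ind (e j₀) (fun l => T.tr k (c l j₀)) (fun l => (h1 l).tr T V.ok_K hF') (by
    have := congrArg (T.tr k) h3
    rw [map_sum, map_zero] at this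
    rw [← this]
    exact Finset.sum_congr rfl fun l _ => by rw [T.tr_mul (hs l), mul_comm])
  simp only [h4, T.tr_of_mem (one_mem _), smul_eq_zero, Nat.cast_eq_zero, one_ne_zero,
    or_false] at h5
  exact T.pos.ne' h5

end VC

end Pool.Agent.Lib.MP_bc213e_ag.KBV
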