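import Pool.Agent.Lib.MP_bc213e_ag.KBV.Deg

/-!
Polynomials with bounded Taylor coefficients.
-/

set_option linter.unusedSectionVars false

namespace Pool.Agent.Lib.MP_bc213e_ag.KBV
open Module Filter Topology

variable {k F₀ Ω : Type} [Field k] [Field F₀] [Field Ω] [Algebra k F₀] [Algebra F₀ Ω]
  [Algebra k Ω] [IsScalarTower k F₀ Ω] [IsAlgClosure F₀ Ω] [CharZero k] [CharZero F₀] [CharZero Ω]

open Polynomial

theorem Tri_ord (v : QVal Ω) (s : Multiset Ω) (h : ∀ x ∈ s, x ≠ 0) :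
    v.ord s.prod = (s.map v.ord).sum := by
  induction s using Multiset.induction_on with
  | empty => simp
  | cons a s ih =>
    have h1 := fun x hx => h x (Multiset.mem_cons_of_mem hx)
    rw [Multiset.prod_cons, v.ord_mul (h a (Multiset.mem_cons_self a s))
      (Multiset.prod_ne_zero fun h0 => h1 0 h0 rfl), ih h1, Multiset.map_cons, Multiset.sum_cons]

/-- Gauss lemma. Sketch: `t = μ + u * τ` with a natural number `u`: for each root `r` at most one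
`u` has `Gt (μ - r + u τ) (ord τ)`; for the other `u` all three properties hold.
`p.eval t = (taylor μ p).eval (u τ)` has order at least `m`, and `p` splits. -/
theorem QVal.gauss [IsAlgClosed Ω] (v : QVal Ω) (hv : ∀ n : ℤ, v.ord (n : Ω) = 0)
    {p : Polynomial Ω} (hp : p ≠ 0) (μ : Ω) {τ : Ω} (hτ : τ ≠ 0) {m : ℚ}
    (h : ∀ l, v.Ge ((taylor μ p).coeff l) (m - l * v.ord τ)) :
    ∃ t : Ω, (∀ r ∈ p.roots, v.ord (t - r) ≤ v.ord τ ∧ v.Ge (μ - r) (v.ord (t - r))) ∧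
      m ≤ v.ord p.leadingCoeff + (p.roots.map fun r => v.ord (t - r)).sum := by
  classical
  have h1 : ∀ r : Ω, {u : ℤ | v.Gt (μ - r + u * τ) (v.ord τ)}.Subsingleton := fun r u hu u' hu' => by
    by_contra e
    have h2 : ((u - u' : ℤ) : Ω) ≠ 0 := Int.cast_ne_zero.2 (sub_ne_zero.2 e)
    have h3 := QVal.Gt.sub hu hu'
    rw [add_sub_add_left_eq_sub, ← sub_mul, ← Int.cast_sub] at h3
    have h4 := h3.lt (mul_ne_zero h2 hτ)
    rw [v.ord_mul h2 hτ, hv, zero_add] at h4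
    exact lt_irrefl _ h4
  obtain ⟨u, hu⟩ := (p.roots.toFinset.finite_toSet.biUnion fun r _ => (h1 r).finite).exists_notMem
  have h2 : ∀ r ∈ p.roots, μ + u * τ - r ≠ 0 ∧ v.ord (μ + u * τ - r) ≤ v.ord τ := fun r hr => by
    rw [add_sub_right_comm]
    exact QVal.not_gt_iff.1 fun h3 => hu (Set.mem_biUnion (Multiset.mem_toFinset.2 hr) h3)
  have h3 : v.Ge (u * τ) (v.ord τ) := (v.ge_intCast u).mul₀ (v.ge_ord τ)
  refine ⟨μ + u * τ, fun r hr => ⟨(h2 r hr).2, ?_⟩, ?_⟩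
  · have h4 := (v.ge_ord (μ + u * τ - r)).sub (h3.mono (h2 r hr).2)
    rwa [sub_right_comm, add_sub_cancel_right] at h4
  · have h4 : v.Ge (p.eval (μ + u * τ)) m := by
      rw [add_comm, ← taylor_eval, eval_eq_sum_range]
      exact QVal.Ge.sum fun l _ => ((h l).mul (h3.pow l)).mono (sub_add_cancel _ _).ge
    have h5 : ∀ x ∈ p.roots.map fun r => μ + u * τ - r, x ≠ 0 := fun x hx => by
      obtain ⟨r, hr, rfl⟩ := Multiset.mem_map.1 hx
      exact (h2 r hr).1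
    have h6 := Multiset.prod_ne_zero fun h0 => h5 0 h0 rfl
    rw [(IsAlgClosed.splits p).eval_eq_prod_roots] at h4
    have h7 := h4.le (mul_ne_zero (leadingCoeff_ne_zero.2 hp) h6)
    rwa [v.ord_mul (leadingCoeff_ne_zero.2 hp) h6, Tri_ord v _ h5, Multiset.map_map] at h7

/-- the polynomial with given coefficients -/
noncomputable def Tri_P (n : ℕ) : (Fin (n + 1) → Ω) →ₗ[Ω] Polynomial Ω :=
  ∑ l : Fin (n + 1), monomial (l : ℕ) ∘ₗ LinearMap.proj l

theorem Tri_apply (n : ℕ) (x : Fin (n + 1) → Ω) :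
    Tri_P n x = ∑ l : Fin (n + 1), monomial (l : ℕ) (x l) := by simp [Tri_P]

theorem Tri_coeff (n : ℕ) (x : Fin (n + 1) → Ω) (l : Fin (n + 1)) : (Tri_P n x).coeff l = x l := by
  simp [Tri_apply, coeff_monomial, Fin.val_inj]

theorem Tri_deg (n : ℕ) (x : Fin (n + 1) → Ω) : (Tri_P n x).natDegree ≤ n := by
  rw [Tri_apply]
  exact natDegree_sum_le_of_forall_le _ _ fun l _ => (natDegree_monomial_le _).trans l.is_le

theorem Tri_taylor (n : ℕ) (x : Fin (n + 1) → Ω) (μ : Ω) (l : ℕ) :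
    (taylor μ (Tri_P n x)).coeff l =
      ∑ i : Fin (n + 1), x i * (μ ^ ((i : ℕ) - l) * ((i : ℕ).choose l : Ω)) := by
  simp only [Tri_apply, map_sum, taylor_monomial, finsetSum_coeff, coeff_C_mul, coeff_X_add_C_pow]

namespace VC
variable {V : VC k F₀ Ω} {F : IntermediateField F₀ Ω}

/-- Triangular Minkowski theorem. Sketch: let `E ≥ 0` with `Ge (μ j) (-E v)` for all `j`
(`E = ∑ (dv (μ j))⁻`), `G' ≥ G l + l E` for all `l ≤ n`, `A l = G' - l E`. On
`U b = pi (fun l : Fin (n + 1) => Γ F (A l + b L))` the `k`-linear map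
`φ (j, l) x = (taylor (μ j) (∑ monomial l' (x l'))).coeff l` goes to `Γ F (A l + b L)`
(`taylor_coeff`, `hasseDeriv`). Impose that it lies in
`Γ F (A l - {v | ι v = j}.indicator (A l - G l) + b L)`; by `vd_conds`, `vd_pi`, `f_add_le` the
remaining family has `vd / finrank ≥ ∑ (f (A l) - deg (A l - G l)) ≥ ∑ chi (G l) > 0`. -/
theorem Ok.tri (hF : V.Ok F) (n : ℕ) {J : Type} [Fintype J] (μ : J → Ω) (hμ : ∀ j, μ j ∈ F)
    (ι : V.P → J) (hι : ∀ v w, V.Same F v w → ι v = ι w) (G : ℕ → V.Dv)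
    (hG : ∀ l, V.IsDiv F (G l)) (h : 0 < ∑ l ∈ Finset.range (n + 1), V.chi F (G l)) :
    ∃ (b : ℕ) (p : Polynomial Ω), p ≠ 0 ∧ p.natDegree ≤ n ∧
      ∀ (v : V.P) l, v.1.Ge ((taylor (μ (ι v)) p).coeff l) (-(G l + b • V.L) v) := by
  classical
  obtain ⟨E, hE, hE'⟩ : ∃ E, V.IsDiv F E ∧ ∀ j (v : V.P), v.1.Ge (μ j) (-E v) := by
    refine ⟨∑ j, (V.dv (μ j))⁻, .sum fun j _ => (Base.isDiv_dv (hμ j)).negPart, fun j v => ?_⟩
    have h1 := (neg_le_negPart (V.dv (μ j))).trans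
      (Finset.single_le_sum (fun j _ => negPart_nonneg (V.dv (μ j))) (Finset.mem_univ j)) v
    exact .of_le (neg_le.1 h1)
  obtain ⟨G', hG', h1⟩ : ∃ G', V.IsDiv F G' ∧ ∀ l : Fin (n + 1), G l ≤ G' - (l : ℕ) • E :=
    ⟨∑ l : Fin (n + 1), (G l + (l : ℕ) • E)⁺, .sum fun l _ => ((hG l).add (hE.nsmul l)).posPart,
      fun l => le_sub_iff_add_le.2 ((le_posPart (G l + (l : ℕ) • E)).trans (Finset.single_le_sum
        (f := fun l : Fin (n + 1) => (G l + (l : ℕ) • E)⁺) (fun _ _ => posPart_nonneg _)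
        (Finset.mem_univ l)))⟩
  obtain ⟨A, eA⟩ : ∃ A : Fin (n + 1) → V.Dv, ∀ l, A l = G' - (l : ℕ) • E := ⟨_, fun _ => rfl⟩
  have hA : ∀ l, V.IsDiv F (A l) := fun l => eA l ▸ hG'.sub (hE.nsmul l)
  obtain ⟨Z, eZ⟩ : ∃ Z : J × Fin (n + 1) → V.Dv,
      ∀ i, Z i = {v | ι v = i.1}.indicator (A i.2 - G i.2) := ⟨_, fun _ => rfl⟩
  have hZ : ∀ i, V.IsDiv F (Z i) := fun i =>
    eZ i ▸ ((hA _).sub (hG _)).indicator fun v w e hv => (hι v w e).symm.trans hv
  have hZ0 : ∀ i, 0 ≤ Z i := fun i =>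
    eZ i ▸ Set.indicator_nonneg fun v _ => sub_nonneg.2 (eA i.2 ▸ h1 i.2 v)
  have hZs : ∀ l, ∑ j, Z (j, l) = A l - G l := fun l => funext fun v => by
    simp [eZ, Set.indicator_apply]
  obtain ⟨φ, hφ⟩ : ∃ φ : J × Fin (n + 1) → (Fin (n + 1) → Ω) →ₗ[k] Ω,
      ∀ i x, φ i x = (taylor (μ i.1) (Tri_P n x)).coeff i.2 :=
    ⟨fun i => (lcoeff Ω (i.2 : ℕ) ∘ₗ taylor (μ i.1) ∘ₗ Tri_P n).restrictScalars k, fun _ _ => rfl⟩
  obtain ⟨h2, h3⟩ := vd_pi fun l => hF.tame (hA l)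
  have h4 := vd_conds Finset.univ (A := fun i b => V.Γ F (A i.2 + b • V.L))
    (C := fun i b => V.Γ F (A i.2 - Z i + b • V.L)) h2 (fun i _ => hF.tame (hA i.2))
    (fun i _ => φ i) (fun i _ b x hx => by
      rw [hφ, Tri_taylor]
      refine sum_mem fun l _ => ?_
      have h5 := Base.mem_Γ.1 (hx l trivial)
      by_cases hl : (i.2 : ℕ) ≤ l
      · refine Base.mem_Γ.2 ⟨mul_mem h5.1 (mul_mem (pow_mem (hμ _) _) (natCast_mem _ _)),
          fun v => ((h5.2 v).mul (((hE' _ v).pow _).mul (v.1.ge_natCast _))).mono (le_of_eq ?_)⟩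
        simp only [eA, Pi.add_apply, Pi.sub_apply, Pi.smul_apply]
        simp only [nsmul_eq_mul, Nat.cast_sub hl]
        ring
      · simp [Nat.choose_eq_zero_of_lt (not_le.1 hl)])
    fun i _ b => Base.Γ_mono (by gcongr; exact sub_le_self _ (hZ0 i))
  have h5 : ∀ D, vd V.ν (fun b => V.Γ F (D + b • V.L)) = finrank F₀ F * V.f F D := fun D => by
    rw [f, mul_div_cancel₀ _ hF.pos.ne']
  have h6 : ∀ l : Fin (n + 1), V.chi F (G l) ≤
      V.f F (A l) - ∑ j, (V.f F (A l) - V.f F (A l - Z (j, l))) := fun l => by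
    have h7 : ∑ j, (V.f F (A l) - V.f F (A l - Z (j, l))) ≤ V.deg (A l - G l) := by
      rw [← hZs, hF.deg_sum fun j _ => hZ _]
      refine Finset.sum_le_sum fun j _ => ?_
      have h8 := hF.f_add_le ((hA l).sub (hZ (j, l))) (hZ (j, l)) (hZ0 (j, l))
      rwa [sub_add_cancel] at h8
    have h8 := hF.chi_add (hG l) ((hA l).sub (hG l))
    rw [add_sub_cancel] at h8
    linarith [hF.chi_le (hA l)]
  simp only [h3, h5, ← mul_sub, ← Finset.mul_sum] at h4
  rw [Fintype.sum_prod_type_right, ← Finset.sum_sub_distrib] at h4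
  rw [Finset.sum_range] at h
  obtain ⟨b, hb⟩ := (frequently_ne_bot (h2.inf _) ((mul_pos hF.pos
    (h.trans_le (Finset.sum_le_sum fun l _ => h6 l))).trans_le h4)).exists
  obtain ⟨x, hx, h0⟩ := Submodule.exists_mem_ne_zero_of_ne_bot hb
  refine ⟨b, Tri_P n x, fun e => h0 (funext fun l => ?_), Tri_deg n x, fun v l => ?_⟩
  · rw [← Tri_coeff n x l, e, coeff_zero, Pi.zero_apply]
  · by_cases hl : l < n + 1
    · have h7 := (Submodule.mem_iInf _).1 ((Submodule.mem_iInf _).1 hx.2 (ι v, ⟨l, hl⟩))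
        (Finset.mem_univ _)
      rw [Submodule.mem_comap, hφ] at h7
      refine ((Base.mem_Γ.1 h7).2 v).mono (le_of_eq ?_)
      simp [eZ]
    · rw [coeff_eq_zero_of_natDegree_lt (by
        rw [natDegree_taylor]
        exact (Tri_deg n x).trans_lt (by omega))]
      exact v.1.ge_zero _

end VC

end Pool.Agent.Lib.MP_bc213e_ag.KBV
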