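import Pool.Agent.Lib.MP_bc213e_ag.KBV.Eps

/-!
The numerical invariants of the virtual curve and of bundles on it.
-/

set_option linter.unusedSectionVars false

namespace Pool.Agent.Lib.MP_bc213e_ag.KBV
open Module Filter Topology

variable {k F₀ Ω : Type} [Field k] [Field F₀] [Field Ω] [Algebra k F₀] [Algebra F₀ Ω]
  [Algebra k Ω] [IsScalarTower k F₀ Ω] [IsAlgClosure F₀ Ω] [CharZero k] [CharZero F₀] [CharZero Ω]

namespace Base
variable (B : Base k F₀ Ω) {I : Type} [Fintype I]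

/-- `W` is defined over `F` -/
def Rat (F : IntermediateField F₀ Ω) (W : Submodule Ω (I → Ω)) : Prop :=
  W ≤ Submodule.span Ω {x | x ∈ W ∧ ∀ i, x i ∈ F}

/-- sections of the bundle `W ≤ ⊕ O(D i)` -/
def ΓB (F : IntermediateField F₀ Ω) (D : I → B.Dv) (W : Submodule Ω (I → Ω)) :
    Submodule k (I → Ω) :=
  W.restrictScalars k ⊓ Submodule.pi Set.univ fun i => B.Γ F (D i)

variable {B} in
lemma mem_ΓB {F : IntermediateField F₀ Ω} {D : I → B.Dv} {W : Submodule Ω (I → Ω)} {x : I → Ω} :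
    x ∈ B.ΓB F D W ↔ x ∈ W ∧ ∀ i, x i ∈ B.Γ F (D i) := by simp [ΓB, Submodule.mem_pi]

open Classical in
/-- the divisor of the line spanned by `s` -/
noncomputable def nrm (D : I → B.Dv) (s : I → Ω) : B.Dv := fun v =>
  if h : (Finset.univ.filter fun i => s i ≠ 0).Nonempty then
    (Finset.univ.filter fun i => s i ≠ 0).inf' h fun i => D i v + v.1.ord (s i) else 0

/-- the divisors of the quotient by `s` -/
noncomputable def qD (D : I → B.Dv) (s : I → Ω) : I × I → B.Dv :=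
  fun p => D p.1 + D p.2 - B.nrm D s

end Base

/-- the Koszul map with kernel spanned by `s` -/
def kos {I : Type} (s : I → Ω) : (I → Ω) →ₗ[Ω] (I × I → Ω) where
  toFun x p := x p.1 * s p.2 - x p.2 * s p.1
  map_add' x y := funext fun p => by simp; ring
  map_smul' c x := funext fun p => by simp; ring

@[simp] lemma kos_apply {I : Type} (s x : I → Ω) (p : I × I) :
    kos s x p = x p.1 * s p.2 - x p.2 * s p.1 := rfl

namespace VC
variable (V : VC k F₀ Ω)

/-- finite extensions of `K` -/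
structure Ok (F : IntermediateField F₀ Ω) : Prop where
  le : V.K ≤ F
  fin : FiniteDimensional F₀ F

/-- normalised virtual dimension of the sections of `D` -/
noncomputable def f (F : IntermediateField F₀ Ω) (D : V.Dv) : ℝ :=
  vd V.ν (fun b => V.Γ F (D + b • V.L)) / finrank F₀ F

/-- Euler characteristic -/
noncomputable def chi (F : IntermediateField F₀ Ω) (D : V.Dv) : ℝ :=
  ⨅ m : ℕ, (V.f F (D + m • V.H) - m * V.δ)

open Classical in
/-- degree -/
noncomputable def deg (D : V.Dv) : ℝ :=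
  if h : ∃ F, V.Ok F ∧ V.IsDiv F D then V.chi h.choose D - V.chi h.choose 0 else 0

/-- first cohomology -/
noncomputable def sig (F : IntermediateField F₀ Ω) (D : V.Dv) : ℝ := V.f F D - V.chi F D

/-- `c` is a rational section of `d L` whose poles have degree zero -/
def Vert (F : IntermediateField F₀ Ω) (d : ℤ) (c : Ω) : Prop :=
  ∃ E, V.IsDiv F E ∧ 0 ≤ E ∧ V.deg E = 0 ∧ c ∈ V.Γ F (d • V.L + E)

/-- the vanishing theorem -/
def NV : Prop := ∀ F G, V.Ok F → V.IsDiv F G → V.δ < V.deg G →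
  V.sig F (G + (V.Cod F - V.Cod V.K)) ≤ 0

variable {I : Type} [Fintype I]

/-- a bundle defined over `F` -/
structure Bun (F : IntermediateField F₀ Ω) (D : I → V.Dv) (W : Submodule Ω (I → Ω)) : Prop where
  ok : V.Ok F
  div : ∀ i, V.IsDiv F (D i)
  rat : Base.Rat F W

noncomputable def fB (F : IntermediateField F₀ Ω) (D : I → V.Dv) (W : Submodule Ω (I → Ω)) : ℝ :=
  vd V.ν (fun b => V.ΓB F (fun i => D i + b • V.L) W) / finrank F₀ F

noncomputable def chiB (F : IntermediateField F₀ Ω) (D : I → V.Dv) (W : Submodule Ω (I → Ω)) : ℝ :=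
  limUnder atTop fun m : ℕ => V.fB F (fun i => D i + m • V.H) W - finrank Ω W * (m * V.δ)

noncomputable def sigB (F : IntermediateField F₀ Ω) (D : I → V.Dv) (W : Submodule Ω (I → Ω)) : ℝ :=
  V.fB F D W - V.chiB F D W

noncomputable def degB (F : IntermediateField F₀ Ω) (D : I → V.Dv) (W : Submodule Ω (I → Ω)) : ℝ :=
  V.chiB F D W - finrank Ω W * V.chi F 0

variable {V} {F F' : IntermediateField F₀ Ω}

lemma ok_K (V : VC k F₀ Ω) : V.Ok V.K := ⟨le_rfl, V.finK⟩

lemma Ok.hL (hF : V.Ok F) : V.IsDiv F V.L := V.hL.mono hF.le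

lemma Ok.pos (hF : V.Ok F) : (0 : ℝ) < finrank F₀ F := by
  have := hF.fin
  exact_mod_cast finrank_pos

lemma Ok.of_le (hF : V.Ok F) (h : F ≤ F') [FiniteDimensional F₀ F'] : V.Ok F' :=
  ⟨hF.le.trans h, inferInstance⟩

lemma Ok.sup (hF : V.Ok F) (hF' : V.Ok F') : V.Ok (F ⊔ F') :=
  have := hF.fin; have := hF'.fin; hF.of_le le_sup_left

lemma Ok.exists_field (hF : V.Ok F) {s : Set Ω} (hs : s.Finite) :
    ∃ F', F ≤ F' ∧ V.Ok F' ∧ ∀ x ∈ s, x ∈ F' := by
  have := hF.fin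
  obtain ⟨F', h1, h2, h3⟩ := Base.exists_field F hs
  exact ⟨F', h1, hF.of_le h1, h3⟩

lemma Ok.exists_field_fun (hF : V.Ok F) {ι : Type*} [Finite ι] (s : ι → Ω) :
    ∃ F', F ≤ F' ∧ V.Ok F' ∧ ∀ i, s i ∈ F' := by
  obtain ⟨F', h1, h2, h3⟩ := hF.exists_field (Set.finite_range s)
  exact ⟨F', h1, h2, fun i => h3 _ ⟨i, rfl⟩⟩

lemma Bun.mono {D : I → V.Dv} {W : Submodule Ω (I → Ω)} (h : V.Bun F D W) (hF : F ≤ F')
    (hF' : V.Ok F') : V.Bun F' D W :=
  ⟨hF', fun i => (h.div i).mono hF,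
    h.rat.trans (Submodule.span_mono fun _ hx => ⟨hx.1, fun i => hF (hx.2 i)⟩)⟩

lemma Bun.tw {D : I → V.Dv} {W : Submodule Ω (I → Ω)} (h : V.Bun F D W) {G : V.Dv}
    (hG : V.IsDiv F G) : V.Bun F (fun i => D i + G) W :=
  ⟨h.ok, fun i => (h.div i).add hG, h.rat⟩

end VC

end Pool.Agent.Lib.MP_bc213e_ag.KBV
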